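import Pool.Agent.Lib.MP_8dbd20_lc.Frame4

/-!
# MP_8dbd20_lc: definitions, part 1 (codes of formulas, truth sets, completions, hierarchy)
-/

set_option linter.unusedVariables false

namespace B8d

/-- the family of sections of a real -/
def Secs (E : Set ℕ) : Set (Set ℕ) := {X | ∃ a, X = sec E a}

/-- the real all of whose sections are `c` -/
def cst (c : Set ℕ) : Set ℕ := {x | x.unpair.2 ∈ c}

/-- index `0` is the empty set, index `a+1` is the `a`-th section -/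
def ix (E : Set ℕ) (a : ℕ) : Set ℕ := {m | 0 < a ∧ Nat.pair (a - 1) m ∈ E}

/-- every natural number is a code of a formula -/
def dec : ℕ → F
  | 0 => .fls
  | k + 1 =>
    have : k.unpair.2 < k + 1 := Nat.lt_succ_of_le (Nat.unpair_right_le k)
    have : k.unpair.2.unpair.1 < k + 1 :=
      Nat.lt_succ_of_le ((Nat.unpair_left_le _).trans (Nat.unpair_right_le k))
    have : k.unpair.2.unpair.2 < k + 1 :=
      Nat.lt_succ_of_le ((Nat.unpair_right_le _).trans (Nat.unpair_right_le k))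
    match k.unpair.1 with
    | 0 => .add k.unpair.2.unpair.1 k.unpair.2.unpair.2.unpair.1 k.unpair.2.unpair.2.unpair.2
    | 1 => .mul k.unpair.2.unpair.1 k.unpair.2.unpair.2.unpair.1 k.unpair.2.unpair.2.unpair.2
    | 2 => .mem k.unpair.2.unpair.1 k.unpair.2.unpair.2
    | 3 => .cc k.unpair.2
    | 4 => .neg (dec k.unpair.2)
    | 5 => .and (dec k.unpair.2.unpair.1) (dec k.unpair.2.unpair.2)
    | 6 => .allN (dec k.unpair.2)
    | 7 => .allS (dec k.unpair.2)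
    | _ => .fls

/-- the predicate `C` of the structure coded by `E`, `K` -/
def CK (E K : Set ℕ) : Set (Set ℕ) := {X | ∃ a ∈ K, X = sec E a}

/-- truth set of the structure `(Secs E, CK E K)`:
`⟨k, ⟨m, S⟩⟩ ∈ Tru E K` iff formula `dec k` holds with the number variables given by the stack `m`
and the set variable `j` equal to `ix E (get j S)` -/
def Tru (E K : Set ℕ) : Set ℕ :=
  {x | eval (Secs E) (CK E K) (dec x.unpair.1) (fun i => get i x.unpair.2.unpair.1)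
    (fun j => ix E (get j x.unpair.2.unpair.2))}

/-- enumeration of the reals definable (with parameters) in a structure with truth set `T`:
`n ∈ sec (Wst T) ⟨k,⟨m,S⟩⟩` iff `⟨k,⟨⟨n,m⟩,S⟩⟩ ∈ T` -/
def Wst (T : Set ℕ) : Set ℕ :=
  {y | Nat.pair y.unpair.1.unpair.1 (Nat.pair (Nat.pair y.unpair.2 y.unpair.1.unpair.2.unpair.1)
    y.unpair.1.unpair.2.unpair.2) ∈ T}

/-- real with the sections `A, B, D, H` (and `∅`) -/
def join4 (A B D H : Set ℕ) : Set ℕ :=
  {x | (x.unpair.1 = 0 ∧ x.unpair.2 ∈ A) ∨ (x.unpair.1 = 1 ∧ x.unpair.2 ∈ B) ∨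
    (x.unpair.1 = 2 ∧ x.unpair.2 ∈ D) ∨ (x.unpair.1 = 3 ∧ x.unpair.2 ∈ H)}

/-- completion of the structure coded by `E`, `K` -/
def Cmp (E K : Set ℕ) : Set ℕ := join4 (Wst (Tru E K)) E K (Tru E K)

def IsCmp (c : Set ℕ) : Prop := ∃ E K, c = Cmp E K

/-- the reals listed by (the first section of) `c`; for `c = Cmp E K` these are all reals definable
with parameters in the structure coded by `E`, `K` -/
def Ss (c : Set ℕ) : Set (Set ℕ) := Secs (sec c 0)

/-- union of the `Ss c`, `c ∈ S` -/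
def UU (S : Set (Set ℕ)) : Set (Set ℕ) := {X | ∃ c ∈ S, X ∈ Ss c}

/-- the real defined over `(UU S, S)` by the parameter-free formula with code `k` -/
def pf (S : Set (Set ℕ)) (k : ℕ) : Set ℕ :=
  {n | eval (UU S) S (dec k) (nc n (fun _ => 0)) (fun _ => ∅)}

/-- formula `k` defines an enumeration of `UU S` -/
def Enu (S : Set (Set ℕ)) (k : ℕ) : Prop := Secs (pf S k) = UU S

/-- `c` is the next master code after the codes in `S` -/
def Step (S : Set (Set ℕ)) (c : Set ℕ) : Prop :=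
  (S = ∅ ∧ c = Cmp ∅ ∅) ∨
  (∃ d ∈ S, (∀ e ∈ S, e = d ∨ e ∈ Ss d) ∧ c = Cmp (cst d) ∅) ∨
  (S.Nonempty ∧ (∀ d ∈ S, ∃ e ∈ S, d ∈ Ss e) ∧
    ∃ k, Enu S k ∧ (∀ k' < k, ¬ Enu S k') ∧ c = Cmp (pf S k) {a | sec (pf S k) a ∈ S})

/-- the codes of `C` before `c` -/
def Lseg (C : Set (Set ℕ)) (c : Set ℕ) : Set (Set ℕ) := {d | d ∈ C ∧ d ∈ Ss c}

/-- `d ∈ C` is a limit code -/
def Lim (C : Set (Set ℕ)) (d : Set ℕ) : Prop :=
  d ∈ C ∧ (Lseg C d).Nonempty ∧ ∀ c ∈ Lseg C d, ∃ e ∈ Lseg C d, c ∈ Ss e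

/-- closure under definability (finitely many parameters) over `(U, C)` -/
def DefClosed (U C : Set (Set ℕ)) : Prop :=
  ∀ (φ : F) (v : ℕ → ℕ) (V : ℕ → Set ℕ), (∀ i, V i ∈ U) → {n | eval U C φ (nc n v) V} ∈ U

/-- the reals definable over `(U, C)` with parameters in `U` -/
def DefS (U C : Set (Set ℕ)) : Set (Set ℕ) :=
  {X | ∃ (φ : F) (v : ℕ → ℕ) (V : ℕ → Set ℕ), (∀ i, V i ∈ U) ∧ X = {n | eval U C φ (nc n v) V}}

/-- `K` is (the second-order part of) an ω-model of full second-order arithmetic -/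
def Mod2 (K : Set (Set ℕ)) : Prop := K.Nonempty ∧ DefClosed K ∅

/-- correctness of `K` for Σ¹₁ formulas (internal form) -/
def BetaI (K : Set (Set ℕ)) : Prop :=
  ∀ R, Ar R → ∀ (v : ℕ → ℕ) (V : ℕ → Set ℕ), (∀ i, V i ∈ K) →
    (∃ X, R v (sc X V)) → ∃ X ∈ K, R v (sc X V)

/-! ### strings and the canonical Cohen real -/

def slen (w : ℕ) : ℕ := w.unpair.1
def sbit (w i : ℕ) : Prop := w.unpair.2.testBit i = true
/-- `w'` extends `w` -/
def Ext (w w' : ℕ) : Prop := slen w ≤ slen w' ∧ ∀ i < slen w, (sbit w i ↔ sbit w' i)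
/-- `w` is an initial segment of `X` -/
def Ini (w : ℕ) (X : Set ℕ) : Prop := ∀ i < slen w, (sbit w i ↔ i ∈ X)

open Classical in
noncomputable def gstep (c : Set ℕ) (n w : ℕ) : ℕ :=
  if ∃ w', w' ∈ sec (sec c 0) n ∧ Ext w w' then sInf {w' | w' ∈ sec (sec c 0) n ∧ Ext w w'} else w

noncomputable def gseq (c : Set ℕ) (n : ℕ) : ℕ := Nat.rec 0 (fun n w => gstep c n w) n

/-- the canonical Cohen real over `Ss c` -/
def Gam (c : Set ℕ) : Set ℕ := {i | ∃ n, i < slen (gseq c n) ∧ sbit (gseq c n) i}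

/-! ### codes of hierarchies -/

def fld (Z : Set ℕ) : Set ℕ := {i | Nat.pair i i ∈ sec Z 0}
/-- strict order coded by the real `R` -/
def ltR (R : Set ℕ) (i j : ℕ) : Prop := Nat.pair i j ∈ R ∧ i ≠ j
/-- `R` is a (reflexive) linear order on its field `{i | ⟨i,i⟩ ∈ R}` -/
def LinO (R : Set ℕ) : Prop :=
  (∀ i j, Nat.pair i j ∈ R → Nat.pair i i ∈ R ∧ Nat.pair j j ∈ R) ∧
  (∀ i j, Nat.pair i j ∈ R → Nat.pair j i ∈ R → i = j) ∧
  (∀ i j k, Nat.pair i j ∈ R → Nat.pair j k ∈ R → Nat.pair i k ∈ R) ∧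
  (∀ i j, Nat.pair i i ∈ R → Nat.pair j j ∈ R → Nat.pair i j ∈ R ∨ Nat.pair j i ∈ R)
/-- `f` codes a descending sequence of `R` -/
def Desc (f R : Set ℕ) : Prop :=
  (∀ k, ∃ x, Nat.pair k x ∈ f) ∧
  ∀ k x y, Nat.pair k x ∈ f → Nat.pair (k + 1) y ∈ f → ltR R y x
/-- the codes attached to the predecessors of `i` -/
def Prd (Z : Set ℕ) (i : ℕ) : Set (Set ℕ) := {X | ∃ j, ltR (sec Z 0) j i ∧ X = sec Z (j + 1)}
/-- `Z` is a hierarchy of master codes along the linear order `sec Z 0` -/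
def Local (Z : Set ℕ) : Prop :=
  LinO (sec Z 0) ∧ ∀ i ∈ fld Z, Step (Prd Z i) (sec Z (i + 1))
/-- the codes listed by `Z` -/
def Ent (Z : Set ℕ) : Set (Set ℕ) := {X | ∃ i ∈ fld Z, X = sec Z (i + 1)}
/-- code of a hierarchy, well-founded in the sense of `K` -/
def HCin (K : Set (Set ℕ)) (Z : Set ℕ) : Prop := Local Z ∧ ∀ f ∈ K, ¬ Desc f (sec Z 0)
/-- code of a hierarchy, truly well-founded -/
def HCode (Z : Set ℕ) : Prop := Local Z ∧ ∀ f, ¬ Desc f (sec Z 0)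

end B8d
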