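import Mathlib

/-!
# MP_8dbd20_lc: framework of definability (fully proved)

* `F`      : formulas of the language of second-order arithmetic with an extra predicate `C` on
             sets (de Bruijn indices; number variables and set variables separately);
* `eval U C φ v V` : satisfaction, set quantifiers range over `U`, the predicate is `C`;
* `Ar R`   : the relation `R v V` (`v : ℕ → ℕ`, `V : ℕ → Set ℕ`) is arithmetical;
* `AN f`, `AS t` : number-valued / set-valued terms with arithmetical graph;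
* `UD R`   : the relation `R U C v V` is uniformly definable over all good structures `(U,C)`.
-/

set_option linter.unusedVariables false

namespace B8d

inductive F : Type
  | fls : F
  | add (i j k : ℕ) : F
  | mul (i j k : ℕ) : F
  | mem (i j : ℕ) : F
  | cc (j : ℕ) : F
  | neg (φ : F) : F
  | and (φ ψ : F) : F
  | allN (φ : F) : F
  | allS (φ : F) : F

/-- push a number on a valuation -/
def nc (n : ℕ) (v : ℕ → ℕ) : ℕ → ℕ
  | 0 => n
  | i + 1 => v i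

/-- push a set on a valuation -/
def sc (X : Set ℕ) (V : ℕ → Set ℕ) : ℕ → Set ℕ
  | 0 => X
  | i + 1 => V i

@[simp] theorem nc_zero (n : ℕ) (v : ℕ → ℕ) : nc n v 0 = n := rfl
@[simp] theorem nc_succ (n : ℕ) (v : ℕ → ℕ) (i : ℕ) : nc n v (i + 1) = v i := rfl
@[simp] theorem sc_zero (X : Set ℕ) (V : ℕ → Set ℕ) : sc X V 0 = X := rfl
@[simp] theorem sc_succ (X : Set ℕ) (V : ℕ → Set ℕ) (i : ℕ) : sc X V (i + 1) = V i := rfl

theorem nc_eta (v : ℕ → ℕ) : nc (v 0) (fun i => v (i + 1)) = v := by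
  funext i; cases i <;> rfl

theorem sc_eta (V : ℕ → Set ℕ) : sc (V 0) (fun i => V (i + 1)) = V := by
  funext i; cases i <;> rfl

/-- satisfaction in the structure `(ℕ, U, C)` -/
def eval (U C : Set (Set ℕ)) : F → (ℕ → ℕ) → (ℕ → Set ℕ) → Prop
  | .fls, _, _ => False
  | .add i j k, v, _ => v i + v j = v k
  | .mul i j k, v, _ => v i * v j = v k
  | .mem i j, v, V => v i ∈ V j
  | .cc j, _, V => V j ∈ C
  | .neg φ, v, V => ¬ eval U C φ v V
  | .and φ ψ, v, V => eval U C φ v V ∧ eval U C ψ v V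
  | .allN φ, v, V => ∀ n, eval U C φ (nc n v) V
  | .allS φ, v, V => ∀ X ∈ U, eval U C φ v (sc X V)

/-- arithmetical formulas: no set quantifier, no predicate `C` -/
def F.arith : F → Prop
  | .fls => True
  | .add _ _ _ => True
  | .mul _ _ _ => True
  | .mem _ _ => True
  | .cc _ => False
  | .neg φ => φ.arith
  | .and φ ψ => φ.arith ∧ ψ.arith
  | .allN φ => φ.arith
  | .allS _ => False

theorem eval_arith {φ : F} (h : φ.arith) (U C U' C' : Set (Set ℕ)) (v : ℕ → ℕ) (V : ℕ → Set ℕ) :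
    eval U C φ v V ↔ eval U' C' φ v V := by
  induction φ generalizing v V with
  | fls => exact Iff.rfl
  | add => exact Iff.rfl
  | mul => exact Iff.rfl
  | mem => exact Iff.rfl
  | cc => exact h.elim
  | neg φ ih => exact not_congr (ih h v V)
  | and φ ψ ih1 ih2 => exact and_congr (ih1 h.1 v V) (ih2 h.2 v V)
  | allN φ ih => exact forall_congr' fun n => ih h _ _
  | allS => exact h.elim

/-- arithmetical relations -/
def Ar (R : (ℕ → ℕ) → (ℕ → Set ℕ) → Prop) : Prop :=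
  ∃ φ : F, φ.arith ∧ ∀ v V, R v V ↔ eval ∅ ∅ φ v V

/-- number-valued terms with arithmetical graph -/
def AN (f : (ℕ → ℕ) → (ℕ → Set ℕ) → ℕ) : Prop :=
  Ar (fun v V => v 0 = f (fun i => v (i + 1)) V)

/-- set-valued arithmetical terms -/
def AS (t : (ℕ → ℕ) → (ℕ → Set ℕ) → Set ℕ) : Prop :=
  Ar (fun v V => v 0 ∈ t (fun i => v (i + 1)) V)

/-- `U` is closed under arithmetical definability with finitely many parameters -/
def ArClosed (U : Set (Set ℕ)) : Prop :=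
  ∀ R, Ar R → ∀ (v : ℕ → ℕ) (V : ℕ → Set ℕ), (∀ i, V i ∈ U) → {n | R (nc n v) V} ∈ U

def Good (U C : Set (Set ℕ)) : Prop := C ⊆ U ∧ U.Nonempty ∧ ArClosed U

/-- uniformly definable relations -/
def UD (R : Set (Set ℕ) → Set (Set ℕ) → (ℕ → ℕ) → (ℕ → Set ℕ) → Prop) : Prop :=
  ∃ φ : F, ∀ U C, Good U C → ∀ v V, (∀ i, V i ∈ U) → (R U C v V ↔ eval U C φ v V)

/-! ### closure of `Ar` -/

theorem Ar.congr {R S : (ℕ → ℕ) → (ℕ → Set ℕ) → Prop} (h : Ar R) (e : ∀ v V, S v V ↔ R v V) :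
    Ar S := by
  obtain ⟨φ, ha, hφ⟩ := h
  exact ⟨φ, ha, fun v V => (e v V).trans (hφ v V)⟩

theorem Ar.not {R : (ℕ → ℕ) → (ℕ → Set ℕ) → Prop} (h : Ar R) : Ar (fun v V => ¬ R v V) := by
  obtain ⟨φ, ha, hφ⟩ := h
  exact ⟨.neg φ, ha, fun v V => not_congr (hφ v V)⟩

theorem Ar.and {R S : (ℕ → ℕ) → (ℕ → Set ℕ) → Prop} (h : Ar R) (k : Ar S) :
    Ar (fun v V => R v V ∧ S v V) := by
  obtain ⟨φ, ha, hφ⟩ := h
  obtain ⟨ψ, hb, hψ⟩ := k
  exact ⟨.and φ ψ, ⟨ha, hb⟩, fun v V => and_congr (hφ v V) (hψ v V)⟩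

theorem Ar.or {R S : (ℕ → ℕ) → (ℕ → Set ℕ) → Prop} (h : Ar R) (k : Ar S) :
    Ar (fun v V => R v V ∨ S v V) :=
  ((h.not.and k.not).not).congr fun v V => by tauto

theorem Ar.imp {R S : (ℕ → ℕ) → (ℕ → Set ℕ) → Prop} (h : Ar R) (k : Ar S) :
    Ar (fun v V => R v V → S v V) :=
  ((h.and k.not).not).congr fun v V => by tauto

theorem Ar.iff {R S : (ℕ → ℕ) → (ℕ → Set ℕ) → Prop} (h : Ar R) (k : Ar S) :
    Ar (fun v V => R v V ↔ S v V) :=
  ((h.imp k).and (k.imp h)).congr fun v V => by tauto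

theorem Ar.fls : Ar (fun _ _ => False) := ⟨.fls, trivial, fun _ _ => Iff.rfl⟩

theorem Ar.tru : Ar (fun _ _ => True) := Ar.fls.not.congr fun _ _ => by tauto

theorem Ar.const (p : Prop) : Ar (fun _ _ => p) := by
  by_cases hp : p
  · exact Ar.tru.congr fun _ _ => by tauto
  · exact Ar.fls.congr fun _ _ => by tauto

theorem Ar.allN {R : ℕ → (ℕ → ℕ) → (ℕ → Set ℕ) → Prop}
    (h : Ar (fun v V => R (v 0) (fun i => v (i + 1)) V)) : Ar (fun v V => ∀ n, R n v V) := by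
  obtain ⟨φ, ha, hφ⟩ := h
  exact ⟨.allN φ, ha, fun v V => forall_congr' fun n => hφ (nc n v) V⟩

theorem Ar.exN {R : ℕ → (ℕ → ℕ) → (ℕ → Set ℕ) → Prop}
    (h : Ar (fun v V => R (v 0) (fun i => v (i + 1)) V)) : Ar (fun v V => ∃ n, R n v V) :=
  ((Ar.allN (R := fun n v V => ¬ R n v V) h.not).not).congr fun v V => by
    simp only [not_forall, not_not]

/-! ### renaming -/

def up (ρ : ℕ → ℕ) : ℕ → ℕ
  | 0 => 0
  | i + 1 => ρ i + 1

def F.ren (ρ ρ' : ℕ → ℕ) : F → F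
  | .fls => .fls
  | .add i j k => .add (ρ i) (ρ j) (ρ k)
  | .mul i j k => .mul (ρ i) (ρ j) (ρ k)
  | .mem i j => .mem (ρ i) (ρ' j)
  | .cc j => .cc (ρ' j)
  | .neg φ => .neg (φ.ren ρ ρ')
  | .and φ ψ => .and (φ.ren ρ ρ') (ψ.ren ρ ρ')
  | .allN φ => .allN (φ.ren (up ρ) ρ')
  | .allS φ => .allS (φ.ren ρ (up ρ'))

theorem F.ren_arith {φ : F} (h : φ.arith) (ρ ρ' : ℕ → ℕ) : (φ.ren ρ ρ').arith := by
  induction φ generalizing ρ ρ' with
  | fls => trivial
  | add => trivial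
  | mul => trivial
  | mem => trivial
  | cc => exact h.elim
  | neg φ ih => exact ih h _ _
  | and φ ψ ih1 ih2 => exact ⟨ih1 h.1 _ _, ih2 h.2 _ _⟩
  | allN φ ih => exact ih h _ _
  | allS => exact h.elim

theorem eval_ren (U C : Set (Set ℕ)) (φ : F) (ρ ρ' : ℕ → ℕ) (v : ℕ → ℕ) (V : ℕ → Set ℕ) :
    eval U C (φ.ren ρ ρ') v V ↔ eval U C φ (fun i => v (ρ i)) (fun j => V (ρ' j)) := by
  induction φ generalizing ρ ρ' v V with
  | fls => exact Iff.rfl
  | add => exact Iff.rfl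
  | mul => exact Iff.rfl
  | mem => exact Iff.rfl
  | cc => exact Iff.rfl
  | neg φ ih => exact not_congr (ih _ _ _ _)
  | and φ ψ ih1 ih2 => exact and_congr (ih1 _ _ _ _) (ih2 _ _ _ _)
  | allN φ ih =>
      refine forall_congr' fun n => ?_
      rw [ih]
      have : (fun i => nc n v (up ρ i)) = nc n (fun i => v (ρ i)) := by
        funext i; cases i <;> rfl
      rw [this]
  | allS φ ih =>
      refine forall_congr' fun X => imp_congr_right fun _ => ?_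
      rw [ih]
      have : (fun i => sc X V (up ρ' i)) = sc X (fun i => V (ρ' i)) := by
        funext i; cases i <;> rfl
      rw [this]

theorem Ar.ren {R : (ℕ → ℕ) → (ℕ → Set ℕ) → Prop} (h : Ar R) (ρ ρ' : ℕ → ℕ) :
    Ar (fun v V => R (fun i => v (ρ i)) (fun j => V (ρ' j))) := by
  obtain ⟨φ, ha, hφ⟩ := h
  exact ⟨φ.ren ρ ρ', F.ren_arith ha _ _, fun v V => (hφ _ _).trans (eval_ren _ _ _ _ _ _ _).symm⟩

/-! ### atoms on variables -/

theorem Ar.addv (i j k : ℕ) : Ar (fun v _ => v i + v j = v k) :=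
  ⟨.add i j k, trivial, fun _ _ => Iff.rfl⟩

theorem Ar.mulv (i j k : ℕ) : Ar (fun v _ => v i * v j = v k) :=
  ⟨.mul i j k, trivial, fun _ _ => Iff.rfl⟩

theorem Ar.memv (i j : ℕ) : Ar (fun v V => v i ∈ V j) :=
  ⟨.mem i j, trivial, fun _ _ => Iff.rfl⟩

theorem Ar.eqv (i j : ℕ) : Ar (fun v _ => v i = v j) := by
  have h : Ar (fun v (_ : ℕ → Set ℕ) => ∃ z : ℕ, z + z = z ∧ v i + z = v j) :=
    Ar.exN (R := fun z v _ => z + z = z ∧ v i + z = v j) ((Ar.addv 0 0 0).and (Ar.addv (i + 1) 0 (j + 1)))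
  refine h.congr fun v V => ⟨fun e => ⟨0, rfl, by simpa using e⟩, ?_⟩
  rintro ⟨z, hz, e⟩
  have : z = 0 := by omega
  subst this; simpa using e

/-! ### variables, weakening of terms -/

theorem AN.var (i : ℕ) : AN (fun v _ => v i) := Ar.eqv 0 (i + 1)

theorem AS.var (j : ℕ) : AS (fun _ V => V j) := Ar.memv 0 j

theorem AN.ren {f : (ℕ → ℕ) → (ℕ → Set ℕ) → ℕ} (h : AN f) (ρ ρ' : ℕ → ℕ) :
    AN (fun v V => f (fun i => v (ρ i)) (fun j => V (ρ' j))) :=
  (Ar.ren h (up ρ) ρ').congr fun _ _ => Iff.rfl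

theorem AS.ren {t : (ℕ → ℕ) → (ℕ → Set ℕ) → Set ℕ} (h : AS t) (ρ ρ' : ℕ → ℕ) :
    AS (fun v V => t (fun i => v (ρ i)) (fun j => V (ρ' j))) :=
  (Ar.ren h (up ρ) ρ').congr fun _ _ => Iff.rfl

/-- one number quantified away: `R (f v V) v V` -/
theorem Ar.sub1 {R : ℕ → (ℕ → ℕ) → (ℕ → Set ℕ) → Prop} {f : (ℕ → ℕ) → (ℕ → Set ℕ) → ℕ}
    (h : Ar (fun v V => R (v 0) (fun i => v (i + 1)) V)) (hf : AN f) :
    Ar (fun v V => R (f v V) v V) := by
  have := Ar.exN (R := fun n v V => n = f v V ∧ R n v V) (Ar.and hf h)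
  exact this.congr fun v V => by simp

/-! ### closure of `UD` -/

theorem UD.congr {R S : Set (Set ℕ) → Set (Set ℕ) → (ℕ → ℕ) → (ℕ → Set ℕ) → Prop} (h : UD R)
    (e : ∀ U C, Good U C → ∀ v V, (∀ i, V i ∈ U) → (S U C v V ↔ R U C v V)) : UD S := by
  obtain ⟨φ, hφ⟩ := h
  exact ⟨φ, fun U C hg v V hV => (e U C hg v V hV).trans (hφ U C hg v V hV)⟩

theorem UD.not {R : Set (Set ℕ) → Set (Set ℕ) → (ℕ → ℕ) → (ℕ → Set ℕ) → Prop} (h : UD R) :
    UD (fun U C v V => ¬ R U C v V) := by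
  obtain ⟨φ, hφ⟩ := h
  exact ⟨.neg φ, fun U C hg v V hV => not_congr (hφ U C hg v V hV)⟩

theorem UD.and {R S : Set (Set ℕ) → Set (Set ℕ) → (ℕ → ℕ) → (ℕ → Set ℕ) → Prop} (h : UD R)
    (k : UD S) : UD (fun U C v V => R U C v V ∧ S U C v V) := by
  obtain ⟨φ, hφ⟩ := h
  obtain ⟨ψ, hψ⟩ := k
  exact ⟨.and φ ψ, fun U C hg v V hV => and_congr (hφ U C hg v V hV) (hψ U C hg v V hV)⟩

theorem UD.or {R S : Set (Set ℕ) → Set (Set ℕ) → (ℕ → ℕ) → (ℕ → Set ℕ) → Prop} (h : UD R)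
    (k : UD S) : UD (fun U C v V => R U C v V ∨ S U C v V) :=
  ((h.not.and k.not).not).congr fun U C _ v V _ => by tauto

theorem UD.imp {R S : Set (Set ℕ) → Set (Set ℕ) → (ℕ → ℕ) → (ℕ → Set ℕ) → Prop} (h : UD R)
    (k : UD S) : UD (fun U C v V => R U C v V → S U C v V) :=
  ((h.and k.not).not).congr fun U C _ v V _ => by tauto

theorem UD.iff {R S : Set (Set ℕ) → Set (Set ℕ) → (ℕ → ℕ) → (ℕ → Set ℕ) → Prop} (h : UD R)
    (k : UD S) : UD (fun U C v V => R U C v V ↔ S U C v V) :=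
  ((h.imp k).and (k.imp h)).congr fun U C _ v V _ => by tauto

theorem UD.allN {R : Set (Set ℕ) → Set (Set ℕ) → ℕ → (ℕ → ℕ) → (ℕ → Set ℕ) → Prop}
    (h : UD (fun U C v V => R U C (v 0) (fun i => v (i + 1)) V)) :
    UD (fun U C v V => ∀ n, R U C n v V) := by
  obtain ⟨φ, hφ⟩ := h
  exact ⟨.allN φ, fun U C hg v V hV => forall_congr' fun n => hφ U C hg (nc n v) V hV⟩

theorem UD.exN {R : Set (Set ℕ) → Set (Set ℕ) → ℕ → (ℕ → ℕ) → (ℕ → Set ℕ) → Prop}
    (h : UD (fun U C v V => R U C (v 0) (fun i => v (i + 1)) V)) :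
    UD (fun U C v V => ∃ n, R U C n v V) :=
  ((UD.allN (R := fun U C n v V => ¬ R U C n v V) h.not).not).congr fun U C _ v V _ => by
    simp only [not_forall, not_not]

theorem UD.allS {R : Set (Set ℕ) → Set (Set ℕ) → Set ℕ → (ℕ → ℕ) → (ℕ → Set ℕ) → Prop}
    (h : UD (fun U C v V => R U C (V 0) v (fun i => V (i + 1)))) :
    UD (fun U C v V => ∀ X ∈ U, R U C X v V) := by
  obtain ⟨φ, hφ⟩ := h
  refine ⟨.allS φ, fun U C hg v V hV => forall_congr' fun X => imp_congr_right fun hX => ?_⟩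
  refine hφ U C hg v (sc X V) ?_
  intro i; cases i
  · exact hX
  · exact hV _

theorem UD.exS {R : Set (Set ℕ) → Set (Set ℕ) → Set ℕ → (ℕ → ℕ) → (ℕ → Set ℕ) → Prop}
    (h : UD (fun U C v V => R U C (V 0) v (fun i => V (i + 1)))) :
    UD (fun U C v V => ∃ X ∈ U, R U C X v V) :=
  ((UD.allS (R := fun U C X v V => ¬ R U C X v V) h.not).not).congr fun U C _ v V _ => by
    simp only [not_forall, not_not, exists_prop]

theorem UD.cv (j : ℕ) : UD (fun _ C _ V => V j ∈ C) := ⟨.cc j, fun _ _ _ _ _ _ => Iff.rfl⟩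

theorem UD.allC {R : Set (Set ℕ) → Set (Set ℕ) → Set ℕ → (ℕ → ℕ) → (ℕ → Set ℕ) → Prop}
    (h : UD (fun U C v V => R U C (V 0) v (fun i => V (i + 1)))) :
    UD (fun U C v V => ∀ X ∈ C, R U C X v V) :=
  (UD.allS (R := fun U C X v V => X ∈ C → R U C X v V) ((UD.cv 0).imp h)).congr
    fun U C hg v V _ => ⟨fun H X _ hX => H X hX, fun H X hX => H X (hg.1 hX) hX⟩

theorem UD.exC {R : Set (Set ℕ) → Set (Set ℕ) → Set ℕ → (ℕ → ℕ) → (ℕ → Set ℕ) → Prop}
    (h : UD (fun U C v V => R U C (V 0) v (fun i => V (i + 1)))) :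
    UD (fun U C v V => ∃ X ∈ C, R U C X v V) :=
  (UD.exS (R := fun U C X v V => X ∈ C ∧ R U C X v V) ((UD.cv 0).and h)).congr
    fun U C hg v V _ => ⟨fun ⟨X, hX, H⟩ => ⟨X, hg.1 hX, hX, H⟩, fun ⟨X, _, hX, H⟩ => ⟨X, hX, H⟩⟩

theorem Ar.ud {R : (ℕ → ℕ) → (ℕ → Set ℕ) → Prop} (h : Ar R) : UD (fun _ _ v V => R v V) := by
  obtain ⟨φ, ha, hφ⟩ := h
  exact ⟨φ, fun U C _ v V _ => (hφ v V).trans (eval_arith ha _ _ _ _ v V)⟩

theorem UD.const (p : Prop) : UD (fun _ _ _ _ => p) := (Ar.const p).ud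

/-! ### simultaneous substitution -/

theorem AN.comp_nc {f : ℕ → (ℕ → ℕ) → (ℕ → Set ℕ) → ℕ} (h : ∀ i, AN (f i)) :
    ∀ i, AN (fun v V => nc (v 0) (fun i => f i (fun j => v (j + 1)) V) i) := by
  intro i; cases i with
  | zero => exact AN.var 0
  | succ i => exact (h i).ren (fun j => j + 1) (fun j => j)

theorem AS.comp_sc {t : ℕ → (ℕ → ℕ) → (ℕ → Set ℕ) → Set ℕ} (h : ∀ i, AS (t i)) :
    ∀ i, AS (fun v V => sc (V 0) (fun i => t i v (fun j => V (j + 1))) i) := by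
  intro i; cases i with
  | zero => exact AS.var 0
  | succ i => exact (h i).ren (fun j => j) (fun j => j + 1)

theorem Ar.addt {f g h : (ℕ → ℕ) → (ℕ → Set ℕ) → ℕ} (hf : AN f) (hg : AN g) (hh : AN h) :
    Ar (fun v V => f v V + g v V = h v V) := by
  have h1 : Ar (fun v V => v 0 + g (fun i => v (i + 1)) V = h (fun i => v (i + 1)) V) := by
    have h2 : Ar (fun v V => v 1 + v 0 = h (fun i => v (i + 2)) V) := by
      have h3 : Ar (fun v (_ : ℕ → Set ℕ) => v 2 + v 1 = v 0) := Ar.addv 2 1 0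
      exact Ar.sub1 (R := fun n v _ => v 1 + v 0 = n) h3 (hh.ren (fun i => i + 2) (fun j => j))
    exact Ar.sub1 (R := fun n v V => v 0 + n = h (fun i => v (i + 1)) V) h2
      (hg.ren (fun i => i + 1) (fun j => j))
  exact Ar.sub1 (R := fun n v V => n + g v V = h v V) h1 hf

theorem Ar.mult {f g h : (ℕ → ℕ) → (ℕ → Set ℕ) → ℕ} (hf : AN f) (hg : AN g) (hh : AN h) :
    Ar (fun v V => f v V * g v V = h v V) := by
  have h1 : Ar (fun v V => v 0 * g (fun i => v (i + 1)) V = h (fun i => v (i + 1)) V) := by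
    have h2 : Ar (fun v V => v 1 * v 0 = h (fun i => v (i + 2)) V) := by
      have h3 : Ar (fun v (_ : ℕ → Set ℕ) => v 2 * v 1 = v 0) := Ar.mulv 2 1 0
      exact Ar.sub1 (R := fun n v _ => v 1 * v 0 = n) h3 (hh.ren (fun i => i + 2) (fun j => j))
    exact Ar.sub1 (R := fun n v V => v 0 * n = h (fun i => v (i + 1)) V) h2
      (hg.ren (fun i => i + 1) (fun j => j))
  exact Ar.sub1 (R := fun n v V => n * g v V = h v V) h1 hf

theorem Ar.mem {f : (ℕ → ℕ) → (ℕ → Set ℕ) → ℕ} {t : (ℕ → ℕ) → (ℕ → Set ℕ) → Set ℕ} (hf : AN f)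
    (ht : AS t) : Ar (fun v V => f v V ∈ t v V) :=
  Ar.sub1 (R := fun n v V => n ∈ t v V) ht hf

theorem subst_aux (φ : F) : ∀ (f : ℕ → (ℕ → ℕ) → (ℕ → Set ℕ) → ℕ)
    (t : ℕ → (ℕ → ℕ) → (ℕ → Set ℕ) → Set ℕ), (∀ i, AN (f i)) → (∀ j, AS (t j)) →
    (φ.arith → Ar (fun v V => eval ∅ ∅ φ (fun i => f i v V) (fun j => t j v V))) ∧
    UD (fun U C v V => eval U C φ (fun i => f i v V) (fun j => t j v V)) := by
  induction φ with
  | fls => intro f t hf ht; exact ⟨fun _ => Ar.fls, Ar.fls.ud⟩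
  | add i j k =>
      intro f t hf ht
      exact ⟨fun _ => Ar.addt (hf i) (hf j) (hf k), (Ar.addt (hf i) (hf j) (hf k)).ud⟩
  | mul i j k =>
      intro f t hf ht
      exact ⟨fun _ => Ar.mult (hf i) (hf j) (hf k), (Ar.mult (hf i) (hf j) (hf k)).ud⟩
  | mem i j =>
      intro f t hf ht
      exact ⟨fun _ => Ar.mem (hf i) (ht j), (Ar.mem (hf i) (ht j)).ud⟩
  | cc j =>
      intro f t hf ht
      refine ⟨fun h => h.elim, ?_⟩
      have h1 : UD (fun U C v V => ∃ X ∈ U, X ∈ C ∧ ∀ n, n ∈ X ↔ n ∈ t j v V) := by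
        refine UD.exS (R := fun U C X v V => X ∈ C ∧ ∀ n, n ∈ X ↔ n ∈ t j v V) ?_
        refine (UD.cv 0).and ?_
        refine UD.allN (R := fun U C n v V => n ∈ V 0 ↔ n ∈ t j v (fun i => V (i + 1))) ?_
        refine ((Ar.memv 0 0).iff ?_).ud
        exact (Ar.ren (ht j) (fun i => i) (fun j => j + 1))
      refine h1.congr fun U C hg v V hV => ?_
      constructor
      · intro hX
        exact ⟨t j v V, hg.1 hX, hX, fun n => Iff.rfl⟩
      · rintro ⟨X, -, hX, e⟩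
        have : X = t j v V := Set.ext e
        subst this; exact hX
  | neg φ ih =>
      intro f t hf ht
      exact ⟨fun h => ((ih f t hf ht).1 h).not, (ih f t hf ht).2.not⟩
  | and φ ψ ih1 ih2 =>
      intro f t hf ht
      exact ⟨fun h => ((ih1 f t hf ht).1 h.1).and ((ih2 f t hf ht).1 h.2),
        (ih1 f t hf ht).2.and (ih2 f t hf ht).2⟩
  | allN φ ih =>
      intro f t hf ht
      have key := ih (fun i v V => nc (v 0) (fun i => f i (fun j => v (j + 1)) V) i)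
        (fun j v V => t j (fun k => v (k + 1)) V) (AN.comp_nc hf)
        (fun j => (ht j).ren (fun k => k + 1) (fun k => k))
      exact ⟨fun h => Ar.allN (R := fun n v V => eval ∅ ∅ φ (nc n fun i => f i v V) fun j => t j v V)
          (key.1 h),
        UD.allN (R := fun U C n v V => eval U C φ (nc n fun i => f i v V) fun j => t j v V) key.2⟩
  | allS φ ih =>
      intro f t hf ht
      have key := ih (fun i v V => f i v (fun k => V (k + 1)))
        (fun j v V => sc (V 0) (fun i => t i v (fun k => V (k + 1))) j)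
        (fun i => (hf i).ren (fun k => k) (fun k => k + 1)) (AS.comp_sc ht)
      exact ⟨fun h => h.elim,
        UD.allS (R := fun U C X v V => eval U C φ (fun i => f i v V) (sc X fun j => t j v V)) key.2⟩

/-- simultaneous substitution of arithmetical terms in an arithmetical relation -/
theorem Ar.subst {R : (ℕ → ℕ) → (ℕ → Set ℕ) → Prop} (h : Ar R)
    {f : ℕ → (ℕ → ℕ) → (ℕ → Set ℕ) → ℕ} {t : ℕ → (ℕ → ℕ) → (ℕ → Set ℕ) → Set ℕ}
    (hf : ∀ i, AN (f i)) (ht : ∀ j, AS (t j)) :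
    Ar (fun v V => R (fun i => f i v V) (fun j => t j v V)) := by
  obtain ⟨φ, ha, hφ⟩ := h
  exact ((subst_aux φ f t hf ht).1 ha).congr fun v V => hφ _ _

/-- values of arithmetical set terms stay in an arithmetically closed class -/
theorem AS.closed {t : (ℕ → ℕ) → (ℕ → Set ℕ) → Set ℕ} (ht : AS t) {U : Set (Set ℕ)}
    (hU : ArClosed U) (v : ℕ → ℕ) (V : ℕ → Set ℕ) (hV : ∀ i, V i ∈ U) : t v V ∈ U :=
  hU _ ht v V hV

/-- simultaneous substitution of arithmetical terms in a uniformly definable relation -/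
theorem UD.subst {R : Set (Set ℕ) → Set (Set ℕ) → (ℕ → ℕ) → (ℕ → Set ℕ) → Prop} (h : UD R)
    {f : ℕ → (ℕ → ℕ) → (ℕ → Set ℕ) → ℕ} {t : ℕ → (ℕ → ℕ) → (ℕ → Set ℕ) → Set ℕ}
    (hf : ∀ i, AN (f i)) (ht : ∀ j, AS (t j)) :
    UD (fun U C v V => R U C (fun i => f i v V) (fun j => t j v V)) := by
  obtain ⟨φ, hφ⟩ := h
  exact ((subst_aux φ f t hf ht).2).congr fun U C hg v V hV =>
    hφ U C hg _ _ (fun j => (ht j).closed hg.2.2 v V hV)

end B8d
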