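import Pool.Agent.Lib.MP_8dbd20_lc.Frame

/-!
# MP_8dbd20_lc: curried substitution rules

`X.sab` : substitution of `a` number terms and `b` set terms (`X` is `Ar`, `AN`, `AS`, `UD`).
-/

set_option linter.unusedVariables false

namespace B8d

/-- cons for families -/
def fc {α : Type} (x : α) (g : ℕ → α) : ℕ → α
  | 0 => x
  | i + 1 => g i

theorem fc_all {α : Type} {p : α → Prop} {x : α} {g : ℕ → α} (hx : p x) (hg : ∀ i, p (g i)) :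
    ∀ i, p (fc x g i) := by
  intro i; cases i
  · exact hx
  · exact hg _

theorem AN.subst {g : (ℕ → ℕ) → (ℕ → Set ℕ) → ℕ} (h : AN g)
    {f : ℕ → (ℕ → ℕ) → (ℕ → Set ℕ) → ℕ} {t : ℕ → (ℕ → ℕ) → (ℕ → Set ℕ) → Set ℕ}
    (hf : ∀ i, AN (f i)) (ht : ∀ j, AS (t j)) :
    AN (fun v V => g (fun i => f i v V) (fun j => t j v V)) :=
  Ar.subst h (AN.comp_nc hf) (fun j => (ht j).ren (fun k => k + 1) (fun k => k))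

theorem AS.subst {g : (ℕ → ℕ) → (ℕ → Set ℕ) → Set ℕ} (h : AS g)
    {f : ℕ → (ℕ → ℕ) → (ℕ → Set ℕ) → ℕ} {t : ℕ → (ℕ → ℕ) → (ℕ → Set ℕ) → Set ℕ}
    (hf : ∀ i, AN (f i)) (ht : ∀ j, AS (t j)) :
    AS (fun v V => g (fun i => f i v V) (fun j => t j v V)) :=
  Ar.subst h (AN.comp_nc hf) (fun j => (ht j).ren (fun k => k + 1) (fun k => k))

theorem Ar.s01 {R : Set ℕ → Prop}
    (h : Ar (fun v V => R (V 0)))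
    {t0 : (ℕ → ℕ) → (ℕ → Set ℕ) → Set ℕ} (k0 : AS t0) :
    Ar (fun v V => R (t0 v V)) :=
  Ar.subst h (f := (fun i v _ => v i))
    (t := (fc t0 (fun j _ V => V j)))
    (fun i => AN.var i) (fc_all (p := AS) k0 (fun j => AS.var j))

theorem Ar.s02 {R : Set ℕ → Set ℕ → Prop}
    (h : Ar (fun v V => R (V 0) (V 1)))
    {t0 : (ℕ → ℕ) → (ℕ → Set ℕ) → Set ℕ} (k0 : AS t0)
    {t1 : (ℕ → ℕ) → (ℕ → Set ℕ) → Set ℕ} (k1 : AS t1) :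
    Ar (fun v V => R (t0 v V) (t1 v V)) :=
  Ar.subst h (f := (fun i v _ => v i))
    (t := (fc t0 (fc t1 (fun j _ V => V j))))
    (fun i => AN.var i) (fc_all (p := AS) k0 (fc_all (p := AS) k1 (fun j => AS.var j)))

theorem Ar.s03 {R : Set ℕ → Set ℕ → Set ℕ → Prop}
    (h : Ar (fun v V => R (V 0) (V 1) (V 2)))
    {t0 : (ℕ → ℕ) → (ℕ → Set ℕ) → Set ℕ} (k0 : AS t0)
    {t1 : (ℕ → ℕ) → (ℕ → Set ℕ) → Set ℕ} (k1 : AS t1)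
    {t2 : (ℕ → ℕ) → (ℕ → Set ℕ) → Set ℕ} (k2 : AS t2) :
    Ar (fun v V => R (t0 v V) (t1 v V) (t2 v V)) :=
  Ar.subst h (f := (fun i v _ => v i))
    (t := (fc t0 (fc t1 (fc t2 (fun j _ V => V j)))))
    (fun i => AN.var i) (fc_all (p := AS) k0 (fc_all (p := AS) k1 (fc_all (p := AS) k2 (fun j => AS.var j))))

theorem Ar.s04 {R : Set ℕ → Set ℕ → Set ℕ → Set ℕ → Prop}
    (h : Ar (fun v V => R (V 0) (V 1) (V 2) (V 3)))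
    {t0 : (ℕ → ℕ) → (ℕ → Set ℕ) → Set ℕ} (k0 : AS t0)
    {t1 : (ℕ → ℕ) → (ℕ → Set ℕ) → Set ℕ} (k1 : AS t1)
    {t2 : (ℕ → ℕ) → (ℕ → Set ℕ) → Set ℕ} (k2 : AS t2)
    {t3 : (ℕ → ℕ) → (ℕ → Set ℕ) → Set ℕ} (k3 : AS t3) :
    Ar (fun v V => R (t0 v V) (t1 v V) (t2 v V) (t3 v V)) :=
  Ar.subst h (f := (fun i v _ => v i))
    (t := (fc t0 (fc t1 (fc t2 (fc t3 (fun j _ V => V j))))))
    (fun i => AN.var i) (fc_all (p := AS) k0 (fc_all (p := AS) k1 (fc_all (p := AS) k2 (fc_all (p := AS) k3 (fun j => AS.var j)))))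

theorem Ar.s10 {R : ℕ → Prop}
    (h : Ar (fun v V => R (v 0)))
    {f0 : (ℕ → ℕ) → (ℕ → Set ℕ) → ℕ} (h0 : AN f0) :
    Ar (fun v V => R (f0 v V)) :=
  Ar.subst h (f := (fc f0 (fun i v _ => v i)))
    (t := (fun j _ V => V j))
    (fc_all (p := AN) h0 (fun i => AN.var i)) (fun j => AS.var j)

theorem Ar.s11 {R : ℕ → Set ℕ → Prop}
    (h : Ar (fun v V => R (v 0) (V 0)))
    {f0 : (ℕ → ℕ) → (ℕ → Set ℕ) → ℕ} (h0 : AN f0)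
    {t0 : (ℕ → ℕ) → (ℕ → Set ℕ) → Set ℕ} (k0 : AS t0) :
    Ar (fun v V => R (f0 v V) (t0 v V)) :=
  Ar.subst h (f := (fc f0 (fun i v _ => v i)))
    (t := (fc t0 (fun j _ V => V j)))
    (fc_all (p := AN) h0 (fun i => AN.var i)) (fc_all (p := AS) k0 (fun j => AS.var j))

theorem Ar.s12 {R : ℕ → Set ℕ → Set ℕ → Prop}
    (h : Ar (fun v V => R (v 0) (V 0) (V 1)))
    {f0 : (ℕ → ℕ) → (ℕ → Set ℕ) → ℕ} (h0 : AN f0)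
    {t0 : (ℕ → ℕ) → (ℕ → Set ℕ) → Set ℕ} (k0 : AS t0)
    {t1 : (ℕ → ℕ) → (ℕ → Set ℕ) → Set ℕ} (k1 : AS t1) :
    Ar (fun v V => R (f0 v V) (t0 v V) (t1 v V)) :=
  Ar.subst h (f := (fc f0 (fun i v _ => v i)))
    (t := (fc t0 (fc t1 (fun j _ V => V j))))
    (fc_all (p := AN) h0 (fun i => AN.var i)) (fc_all (p := AS) k0 (fc_all (p := AS) k1 (fun j => AS.var j)))

theorem Ar.s13 {R : ℕ → Set ℕ → Set ℕ → Set ℕ → Prop}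
    (h : Ar (fun v V => R (v 0) (V 0) (V 1) (V 2)))
    {f0 : (ℕ → ℕ) → (ℕ → Set ℕ) → ℕ} (h0 : AN f0)
    {t0 : (ℕ → ℕ) → (ℕ → Set ℕ) → Set ℕ} (k0 : AS t0)
    {t1 : (ℕ → ℕ) → (ℕ → Set ℕ) → Set ℕ} (k1 : AS t1)
    {t2 : (ℕ → ℕ) → (ℕ → Set ℕ) → Set ℕ} (k2 : AS t2) :
    Ar (fun v V => R (f0 v V) (t0 v V) (t1 v V) (t2 v V)) :=
  Ar.subst h (f := (fc f0 (fun i v _ => v i)))
    (t := (fc t0 (fc t1 (fc t2 (fun j _ V => V j)))))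
    (fc_all (p := AN) h0 (fun i => AN.var i)) (fc_all (p := AS) k0 (fc_all (p := AS) k1 (fc_all (p := AS) k2 (fun j => AS.var j))))

theorem Ar.s14 {R : ℕ → Set ℕ → Set ℕ → Set ℕ → Set ℕ → Prop}
    (h : Ar (fun v V => R (v 0) (V 0) (V 1) (V 2) (V 3)))
    {f0 : (ℕ → ℕ) → (ℕ → Set ℕ) → ℕ} (h0 : AN f0)
    {t0 : (ℕ → ℕ) → (ℕ → Set ℕ) → Set ℕ} (k0 : AS t0)
    {t1 : (ℕ → ℕ) → (ℕ → Set ℕ) → Set ℕ} (k1 : AS t1)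
    {t2 : (ℕ → ℕ) → (ℕ → Set ℕ) → Set ℕ} (k2 : AS t2)
    {t3 : (ℕ → ℕ) → (ℕ → Set ℕ) → Set ℕ} (k3 : AS t3) :
    Ar (fun v V => R (f0 v V) (t0 v V) (t1 v V) (t2 v V) (t3 v V)) :=
  Ar.subst h (f := (fc f0 (fun i v _ => v i)))
    (t := (fc t0 (fc t1 (fc t2 (fc t3 (fun j _ V => V j))))))
    (fc_all (p := AN) h0 (fun i => AN.var i)) (fc_all (p := AS) k0 (fc_all (p := AS) k1 (fc_all (p := AS) k2 (fc_all (p := AS) k3 (fun j => AS.var j)))))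

theorem Ar.s20 {R : ℕ → ℕ → Prop}
    (h : Ar (fun v V => R (v 0) (v 1)))
    {f0 : (ℕ → ℕ) → (ℕ → Set ℕ) → ℕ} (h0 : AN f0)
    {f1 : (ℕ → ℕ) → (ℕ → Set ℕ) → ℕ} (h1 : AN f1) :
    Ar (fun v V => R (f0 v V) (f1 v V)) :=
  Ar.subst h (f := (fc f0 (fc f1 (fun i v _ => v i))))
    (t := (fun j _ V => V j))
    (fc_all (p := AN) h0 (fc_all (p := AN) h1 (fun i => AN.var i))) (fun j => AS.var j)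

theorem Ar.s21 {R : ℕ → ℕ → Set ℕ → Prop}
    (h : Ar (fun v V => R (v 0) (v 1) (V 0)))
    {f0 : (ℕ → ℕ) → (ℕ → Set ℕ) → ℕ} (h0 : AN f0)
    {f1 : (ℕ → ℕ) → (ℕ → Set ℕ) → ℕ} (h1 : AN f1)
    {t0 : (ℕ → ℕ) → (ℕ → Set ℕ) → Set ℕ} (k0 : AS t0) :
    Ar (fun v V => R (f0 v V) (f1 v V) (t0 v V)) :=
  Ar.subst h (f := (fc f0 (fc f1 (fun i v _ => v i))))
    (t := (fc t0 (fun j _ V => V j)))
    (fc_all (p := AN) h0 (fc_all (p := AN) h1 (fun i => AN.var i))) (fc_all (p := AS) k0 (fun j => AS.var j))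

theorem Ar.s22 {R : ℕ → ℕ → Set ℕ → Set ℕ → Prop}
    (h : Ar (fun v V => R (v 0) (v 1) (V 0) (V 1)))
    {f0 : (ℕ → ℕ) → (ℕ → Set ℕ) → ℕ} (h0 : AN f0)
    {f1 : (ℕ → ℕ) → (ℕ → Set ℕ) → ℕ} (h1 : AN f1)
    {t0 : (ℕ → ℕ) → (ℕ → Set ℕ) → Set ℕ} (k0 : AS t0)
    {t1 : (ℕ → ℕ) → (ℕ → Set ℕ) → Set ℕ} (k1 : AS t1) :
    Ar (fun v V => R (f0 v V) (f1 v V) (t0 v V) (t1 v V)) :=
  Ar.subst h (f := (fc f0 (fc f1 (fun i v _ => v i))))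
    (t := (fc t0 (fc t1 (fun j _ V => V j))))
    (fc_all (p := AN) h0 (fc_all (p := AN) h1 (fun i => AN.var i))) (fc_all (p := AS) k0 (fc_all (p := AS) k1 (fun j => AS.var j)))

theorem Ar.s23 {R : ℕ → ℕ → Set ℕ → Set ℕ → Set ℕ → Prop}
    (h : Ar (fun v V => R (v 0) (v 1) (V 0) (V 1) (V 2)))
    {f0 : (ℕ → ℕ) → (ℕ → Set ℕ) → ℕ} (h0 : AN f0)
    {f1 : (ℕ → ℕ) → (ℕ → Set ℕ) → ℕ} (h1 : AN f1)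
    {t0 : (ℕ → ℕ) → (ℕ → Set ℕ) → Set ℕ} (k0 : AS t0)
    {t1 : (ℕ → ℕ) → (ℕ → Set ℕ) → Set ℕ} (k1 : AS t1)
    {t2 : (ℕ → ℕ) → (ℕ → Set ℕ) → Set ℕ} (k2 : AS t2) :
    Ar (fun v V => R (f0 v V) (f1 v V) (t0 v V) (t1 v V) (t2 v V)) :=
  Ar.subst h (f := (fc f0 (fc f1 (fun i v _ => v i))))
    (t := (fc t0 (fc t1 (fc t2 (fun j _ V => V j)))))
    (fc_all (p := AN) h0 (fc_all (p := AN) h1 (fun i => AN.var i))) (fc_all (p := AS) k0 (fc_all (p := AS) k1 (fc_all (p := AS) k2 (fun j => AS.var j))))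

theorem Ar.s24 {R : ℕ → ℕ → Set ℕ → Set ℕ → Set ℕ → Set ℕ → Prop}
    (h : Ar (fun v V => R (v 0) (v 1) (V 0) (V 1) (V 2) (V 3)))
    {f0 : (ℕ → ℕ) → (ℕ → Set ℕ) → ℕ} (h0 : AN f0)
    {f1 : (ℕ → ℕ) → (ℕ → Set ℕ) → ℕ} (h1 : AN f1)
    {t0 : (ℕ → ℕ) → (ℕ → Set ℕ) → Set ℕ} (k0 : AS t0)
    {t1 : (ℕ → ℕ) → (ℕ → Set ℕ) → Set ℕ} (k1 : AS t1)
    {t2 : (ℕ → ℕ) → (ℕ → Set ℕ) → Set ℕ} (k2 : AS t2)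
    {t3 : (ℕ → ℕ) → (ℕ → Set ℕ) → Set ℕ} (k3 : AS t3) :
    Ar (fun v V => R (f0 v V) (f1 v V) (t0 v V) (t1 v V) (t2 v V) (t3 v V)) :=
  Ar.subst h (f := (fc f0 (fc f1 (fun i v _ => v i))))
    (t := (fc t0 (fc t1 (fc t2 (fc t3 (fun j _ V => V j))))))
    (fc_all (p := AN) h0 (fc_all (p := AN) h1 (fun i => AN.var i))) (fc_all (p := AS) k0 (fc_all (p := AS) k1 (fc_all (p := AS) k2 (fc_all (p := AS) k3 (fun j => AS.var j)))))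

theorem Ar.s30 {R : ℕ → ℕ → ℕ → Prop}
    (h : Ar (fun v V => R (v 0) (v 1) (v 2)))
    {f0 : (ℕ → ℕ) → (ℕ → Set ℕ) → ℕ} (h0 : AN f0)
    {f1 : (ℕ → ℕ) → (ℕ → Set ℕ) → ℕ} (h1 : AN f1)
    {f2 : (ℕ → ℕ) → (ℕ → Set ℕ) → ℕ} (h2 : AN f2) :
    Ar (fun v V => R (f0 v V) (f1 v V) (f2 v V)) :=
  Ar.subst h (f := (fc f0 (fc f1 (fc f2 (fun i v _ => v i)))))
    (t := (fun j _ V => V j))
    (fc_all (p := AN) h0 (fc_all (p := AN) h1 (fc_all (p := AN) h2 (fun i => AN.var i)))) (fun j => AS.var j)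

theorem Ar.s31 {R : ℕ → ℕ → ℕ → Set ℕ → Prop}
    (h : Ar (fun v V => R (v 0) (v 1) (v 2) (V 0)))
    {f0 : (ℕ → ℕ) → (ℕ → Set ℕ) → ℕ} (h0 : AN f0)
    {f1 : (ℕ → ℕ) → (ℕ → Set ℕ) → ℕ} (h1 : AN f1)
    {f2 : (ℕ → ℕ) → (ℕ → Set ℕ) → ℕ} (h2 : AN f2)
    {t0 : (ℕ → ℕ) → (ℕ → Set ℕ) → Set ℕ} (k0 : AS t0) :
    Ar (fun v V => R (f0 v V) (f1 v V) (f2 v V) (t0 v V)) :=
  Ar.subst h (f := (fc f0 (fc f1 (fc f2 (fun i v _ => v i)))))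
    (t := (fc t0 (fun j _ V => V j)))
    (fc_all (p := AN) h0 (fc_all (p := AN) h1 (fc_all (p := AN) h2 (fun i => AN.var i)))) (fc_all (p := AS) k0 (fun j => AS.var j))

theorem Ar.s32 {R : ℕ → ℕ → ℕ → Set ℕ → Set ℕ → Prop}
    (h : Ar (fun v V => R (v 0) (v 1) (v 2) (V 0) (V 1)))
    {f0 : (ℕ → ℕ) → (ℕ → Set ℕ) → ℕ} (h0 : AN f0)
    {f1 : (ℕ → ℕ) → (ℕ → Set ℕ) → ℕ} (h1 : AN f1)
    {f2 : (ℕ → ℕ) → (ℕ → Set ℕ) → ℕ} (h2 : AN f2)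
    {t0 : (ℕ → ℕ) → (ℕ → Set ℕ) → Set ℕ} (k0 : AS t0)
    {t1 : (ℕ → ℕ) → (ℕ → Set ℕ) → Set ℕ} (k1 : AS t1) :
    Ar (fun v V => R (f0 v V) (f1 v V) (f2 v V) (t0 v V) (t1 v V)) :=
  Ar.subst h (f := (fc f0 (fc f1 (fc f2 (fun i v _ => v i)))))
    (t := (fc t0 (fc t1 (fun j _ V => V j))))
    (fc_all (p := AN) h0 (fc_all (p := AN) h1 (fc_all (p := AN) h2 (fun i => AN.var i)))) (fc_all (p := AS) k0 (fc_all (p := AS) k1 (fun j => AS.var j)))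

theorem Ar.s33 {R : ℕ → ℕ → ℕ → Set ℕ → Set ℕ → Set ℕ → Prop}
    (h : Ar (fun v V => R (v 0) (v 1) (v 2) (V 0) (V 1) (V 2)))
    {f0 : (ℕ → ℕ) → (ℕ → Set ℕ) → ℕ} (h0 : AN f0)
    {f1 : (ℕ → ℕ) → (ℕ → Set ℕ) → ℕ} (h1 : AN f1)
    {f2 : (ℕ → ℕ) → (ℕ → Set ℕ) → ℕ} (h2 : AN f2)
    {t0 : (ℕ → ℕ) → (ℕ → Set ℕ) → Set ℕ} (k0 : AS t0)
    {t1 : (ℕ → ℕ) → (ℕ → Set ℕ) → Set ℕ} (k1 : AS t1)
    {t2 : (ℕ → ℕ) → (ℕ → Set ℕ) → Set ℕ} (k2 : AS t2) :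
    Ar (fun v V => R (f0 v V) (f1 v V) (f2 v V) (t0 v V) (t1 v V) (t2 v V)) :=
  Ar.subst h (f := (fc f0 (fc f1 (fc f2 (fun i v _ => v i)))))
    (t := (fc t0 (fc t1 (fc t2 (fun j _ V => V j)))))
    (fc_all (p := AN) h0 (fc_all (p := AN) h1 (fc_all (p := AN) h2 (fun i => AN.var i)))) (fc_all (p := AS) k0 (fc_all (p := AS) k1 (fc_all (p := AS) k2 (fun j => AS.var j))))

theorem Ar.s34 {R : ℕ → ℕ → ℕ → Set ℕ → Set ℕ → Set ℕ → Set ℕ → Prop}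
    (h : Ar (fun v V => R (v 0) (v 1) (v 2) (V 0) (V 1) (V 2) (V 3)))
    {f0 : (ℕ → ℕ) → (ℕ → Set ℕ) → ℕ} (h0 : AN f0)
    {f1 : (ℕ → ℕ) → (ℕ → Set ℕ) → ℕ} (h1 : AN f1)
    {f2 : (ℕ → ℕ) → (ℕ → Set ℕ) → ℕ} (h2 : AN f2)
    {t0 : (ℕ → ℕ) → (ℕ → Set ℕ) → Set ℕ} (k0 : AS t0)
    {t1 : (ℕ → ℕ) → (ℕ → Set ℕ) → Set ℕ} (k1 : AS t1)
    {t2 : (ℕ → ℕ) → (ℕ → Set ℕ) → Set ℕ} (k2 : AS t2)
    {t3 : (ℕ → ℕ) → (ℕ → Set ℕ) → Set ℕ} (k3 : AS t3) :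
    Ar (fun v V => R (f0 v V) (f1 v V) (f2 v V) (t0 v V) (t1 v V) (t2 v V) (t3 v V)) :=
  Ar.subst h (f := (fc f0 (fc f1 (fc f2 (fun i v _ => v i)))))
    (t := (fc t0 (fc t1 (fc t2 (fc t3 (fun j _ V => V j))))))
    (fc_all (p := AN) h0 (fc_all (p := AN) h1 (fc_all (p := AN) h2 (fun i => AN.var i)))) (fc_all (p := AS) k0 (fc_all (p := AS) k1 (fc_all (p := AS) k2 (fc_all (p := AS) k3 (fun j => AS.var j)))))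

theorem Ar.s40 {R : ℕ → ℕ → ℕ → ℕ → Prop}
    (h : Ar (fun v V => R (v 0) (v 1) (v 2) (v 3)))
    {f0 : (ℕ → ℕ) → (ℕ → Set ℕ) → ℕ} (h0 : AN f0)
    {f1 : (ℕ → ℕ) → (ℕ → Set ℕ) → ℕ} (h1 : AN f1)
    {f2 : (ℕ → ℕ) → (ℕ → Set ℕ) → ℕ} (h2 : AN f2)
    {f3 : (ℕ → ℕ) → (ℕ → Set ℕ) → ℕ} (h3 : AN f3) :
    Ar (fun v V => R (f0 v V) (f1 v V) (f2 v V) (f3 v V)) :=
  Ar.subst h (f := (fc f0 (fc f1 (fc f2 (fc f3 (fun i v _ => v i))))))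
    (t := (fun j _ V => V j))
    (fc_all (p := AN) h0 (fc_all (p := AN) h1 (fc_all (p := AN) h2 (fc_all (p := AN) h3 (fun i => AN.var i))))) (fun j => AS.var j)

theorem Ar.s41 {R : ℕ → ℕ → ℕ → ℕ → Set ℕ → Prop}
    (h : Ar (fun v V => R (v 0) (v 1) (v 2) (v 3) (V 0)))
    {f0 : (ℕ → ℕ) → (ℕ → Set ℕ) → ℕ} (h0 : AN f0)
    {f1 : (ℕ → ℕ) → (ℕ → Set ℕ) → ℕ} (h1 : AN f1)
    {f2 : (ℕ → ℕ) → (ℕ → Set ℕ) → ℕ} (h2 : AN f2)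
    {f3 : (ℕ → ℕ) → (ℕ → Set ℕ) → ℕ} (h3 : AN f3)
    {t0 : (ℕ → ℕ) → (ℕ → Set ℕ) → Set ℕ} (k0 : AS t0) :
    Ar (fun v V => R (f0 v V) (f1 v V) (f2 v V) (f3 v V) (t0 v V)) :=
  Ar.subst h (f := (fc f0 (fc f1 (fc f2 (fc f3 (fun i v _ => v i))))))
    (t := (fc t0 (fun j _ V => V j)))
    (fc_all (p := AN) h0 (fc_all (p := AN) h1 (fc_all (p := AN) h2 (fc_all (p := AN) h3 (fun i => AN.var i))))) (fc_all (p := AS) k0 (fun j => AS.var j))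

theorem Ar.s42 {R : ℕ → ℕ → ℕ → ℕ → Set ℕ → Set ℕ → Prop}
    (h : Ar (fun v V => R (v 0) (v 1) (v 2) (v 3) (V 0) (V 1)))
    {f0 : (ℕ → ℕ) → (ℕ → Set ℕ) → ℕ} (h0 : AN f0)
    {f1 : (ℕ → ℕ) → (ℕ → Set ℕ) → ℕ} (h1 : AN f1)
    {f2 : (ℕ → ℕ) → (ℕ → Set ℕ) → ℕ} (h2 : AN f2)
    {f3 : (ℕ → ℕ) → (ℕ → Set ℕ) → ℕ} (h3 : AN f3)
    {t0 : (ℕ → ℕ) → (ℕ → Set ℕ) → Set ℕ} (k0 : AS t0)
    {t1 : (ℕ → ℕ) → (ℕ → Set ℕ) → Set ℕ} (k1 : AS t1) :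
    Ar (fun v V => R (f0 v V) (f1 v V) (f2 v V) (f3 v V) (t0 v V) (t1 v V)) :=
  Ar.subst h (f := (fc f0 (fc f1 (fc f2 (fc f3 (fun i v _ => v i))))))
    (t := (fc t0 (fc t1 (fun j _ V => V j))))
    (fc_all (p := AN) h0 (fc_all (p := AN) h1 (fc_all (p := AN) h2 (fc_all (p := AN) h3 (fun i => AN.var i))))) (fc_all (p := AS) k0 (fc_all (p := AS) k1 (fun j => AS.var j)))

theorem Ar.s43 {R : ℕ → ℕ → ℕ → ℕ → Set ℕ → Set ℕ → Set ℕ → Prop}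
    (h : Ar (fun v V => R (v 0) (v 1) (v 2) (v 3) (V 0) (V 1) (V 2)))
    {f0 : (ℕ → ℕ) → (ℕ → Set ℕ) → ℕ} (h0 : AN f0)
    {f1 : (ℕ → ℕ) → (ℕ → Set ℕ) → ℕ} (h1 : AN f1)
    {f2 : (ℕ → ℕ) → (ℕ → Set ℕ) → ℕ} (h2 : AN f2)
    {f3 : (ℕ → ℕ) → (ℕ → Set ℕ) → ℕ} (h3 : AN f3)
    {t0 : (ℕ → ℕ) → (ℕ → Set ℕ) → Set ℕ} (k0 : AS t0)
    {t1 : (ℕ → ℕ) → (ℕ → Set ℕ) → Set ℕ} (k1 : AS t1)
    {t2 : (ℕ → ℕ) → (ℕ → Set ℕ) → Set ℕ} (k2 : AS t2) :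
    Ar (fun v V => R (f0 v V) (f1 v V) (f2 v V) (f3 v V) (t0 v V) (t1 v V) (t2 v V)) :=
  Ar.subst h (f := (fc f0 (fc f1 (fc f2 (fc f3 (fun i v _ => v i))))))
    (t := (fc t0 (fc t1 (fc t2 (fun j _ V => V j)))))
    (fc_all (p := AN) h0 (fc_all (p := AN) h1 (fc_all (p := AN) h2 (fc_all (p := AN) h3 (fun i => AN.var i))))) (fc_all (p := AS) k0 (fc_all (p := AS) k1 (fc_all (p := AS) k2 (fun j => AS.var j))))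

theorem Ar.s50 {R : ℕ → ℕ → ℕ → ℕ → ℕ → Prop}
    (h : Ar (fun v V => R (v 0) (v 1) (v 2) (v 3) (v 4)))
    {f0 : (ℕ → ℕ) → (ℕ → Set ℕ) → ℕ} (h0 : AN f0)
    {f1 : (ℕ → ℕ) → (ℕ → Set ℕ) → ℕ} (h1 : AN f1)
    {f2 : (ℕ → ℕ) → (ℕ → Set ℕ) → ℕ} (h2 : AN f2)
    {f3 : (ℕ → ℕ) → (ℕ → Set ℕ) → ℕ} (h3 : AN f3)
    {f4 : (ℕ → ℕ) → (ℕ → Set ℕ) → ℕ} (h4 : AN f4) :
    Ar (fun v V => R (f0 v V) (f1 v V) (f2 v V) (f3 v V) (f4 v V)) :=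
  Ar.subst h (f := (fc f0 (fc f1 (fc f2 (fc f3 (fc f4 (fun i v _ => v i)))))))
    (t := (fun j _ V => V j))
    (fc_all (p := AN) h0 (fc_all (p := AN) h1 (fc_all (p := AN) h2 (fc_all (p := AN) h3 (fc_all (p := AN) h4 (fun i => AN.var i)))))) (fun j => AS.var j)

theorem Ar.s51 {R : ℕ → ℕ → ℕ → ℕ → ℕ → Set ℕ → Prop}
    (h : Ar (fun v V => R (v 0) (v 1) (v 2) (v 3) (v 4) (V 0)))
    {f0 : (ℕ → ℕ) → (ℕ → Set ℕ) → ℕ} (h0 : AN f0)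
    {f1 : (ℕ → ℕ) → (ℕ → Set ℕ) → ℕ} (h1 : AN f1)
    {f2 : (ℕ → ℕ) → (ℕ → Set ℕ) → ℕ} (h2 : AN f2)
    {f3 : (ℕ → ℕ) → (ℕ → Set ℕ) → ℕ} (h3 : AN f3)
    {f4 : (ℕ → ℕ) → (ℕ → Set ℕ) → ℕ} (h4 : AN f4)
    {t0 : (ℕ → ℕ) → (ℕ → Set ℕ) → Set ℕ} (k0 : AS t0) :
    Ar (fun v V => R (f0 v V) (f1 v V) (f2 v V) (f3 v V) (f4 v V) (t0 v V)) :=
  Ar.subst h (f := (fc f0 (fc f1 (fc f2 (fc f3 (fc f4 (fun i v _ => v i)))))))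
    (t := (fc t0 (fun j _ V => V j)))
    (fc_all (p := AN) h0 (fc_all (p := AN) h1 (fc_all (p := AN) h2 (fc_all (p := AN) h3 (fc_all (p := AN) h4 (fun i => AN.var i)))))) (fc_all (p := AS) k0 (fun j => AS.var j))

theorem Ar.s52 {R : ℕ → ℕ → ℕ → ℕ → ℕ → Set ℕ → Set ℕ → Prop}
    (h : Ar (fun v V => R (v 0) (v 1) (v 2) (v 3) (v 4) (V 0) (V 1)))
    {f0 : (ℕ → ℕ) → (ℕ → Set ℕ) → ℕ} (h0 : AN f0)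
    {f1 : (ℕ → ℕ) → (ℕ → Set ℕ) → ℕ} (h1 : AN f1)
    {f2 : (ℕ → ℕ) → (ℕ → Set ℕ) → ℕ} (h2 : AN f2)
    {f3 : (ℕ → ℕ) → (ℕ → Set ℕ) → ℕ} (h3 : AN f3)
    {f4 : (ℕ → ℕ) → (ℕ → Set ℕ) → ℕ} (h4 : AN f4)
    {t0 : (ℕ → ℕ) → (ℕ → Set ℕ) → Set ℕ} (k0 : AS t0)
    {t1 : (ℕ → ℕ) → (ℕ → Set ℕ) → Set ℕ} (k1 : AS t1) :
    Ar (fun v V => R (f0 v V) (f1 v V) (f2 v V) (f3 v V) (f4 v V) (t0 v V) (t1 v V)) :=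
  Ar.subst h (f := (fc f0 (fc f1 (fc f2 (fc f3 (fc f4 (fun i v _ => v i)))))))
    (t := (fc t0 (fc t1 (fun j _ V => V j))))
    (fc_all (p := AN) h0 (fc_all (p := AN) h1 (fc_all (p := AN) h2 (fc_all (p := AN) h3 (fc_all (p := AN) h4 (fun i => AN.var i)))))) (fc_all (p := AS) k0 (fc_all (p := AS) k1 (fun j => AS.var j)))

theorem AN.s01 {R : Set ℕ → ℕ}
    (h : AN (fun v V => R (V 0)))
    {t0 : (ℕ → ℕ) → (ℕ → Set ℕ) → Set ℕ} (k0 : AS t0) :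
    AN (fun v V => R (t0 v V)) :=
  AN.subst h (f := (fun i v _ => v i))
    (t := (fc t0 (fun j _ V => V j)))
    (fun i => AN.var i) (fc_all (p := AS) k0 (fun j => AS.var j))

theorem AN.s02 {R : Set ℕ → Set ℕ → ℕ}
    (h : AN (fun v V => R (V 0) (V 1)))
    {t0 : (ℕ → ℕ) → (ℕ → Set ℕ) → Set ℕ} (k0 : AS t0)
    {t1 : (ℕ → ℕ) → (ℕ → Set ℕ) → Set ℕ} (k1 : AS t1) :
    AN (fun v V => R (t0 v V) (t1 v V)) :=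
  AN.subst h (f := (fun i v _ => v i))
    (t := (fc t0 (fc t1 (fun j _ V => V j))))
    (fun i => AN.var i) (fc_all (p := AS) k0 (fc_all (p := AS) k1 (fun j => AS.var j)))

theorem AN.s03 {R : Set ℕ → Set ℕ → Set ℕ → ℕ}
    (h : AN (fun v V => R (V 0) (V 1) (V 2)))
    {t0 : (ℕ → ℕ) → (ℕ → Set ℕ) → Set ℕ} (k0 : AS t0)
    {t1 : (ℕ → ℕ) → (ℕ → Set ℕ) → Set ℕ} (k1 : AS t1)
    {t2 : (ℕ → ℕ) → (ℕ → Set ℕ) → Set ℕ} (k2 : AS t2) :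
    AN (fun v V => R (t0 v V) (t1 v V) (t2 v V)) :=
  AN.subst h (f := (fun i v _ => v i))
    (t := (fc t0 (fc t1 (fc t2 (fun j _ V => V j)))))
    (fun i => AN.var i) (fc_all (p := AS) k0 (fc_all (p := AS) k1 (fc_all (p := AS) k2 (fun j => AS.var j))))

theorem AN.s04 {R : Set ℕ → Set ℕ → Set ℕ → Set ℕ → ℕ}
    (h : AN (fun v V => R (V 0) (V 1) (V 2) (V 3)))
    {t0 : (ℕ → ℕ) → (ℕ → Set ℕ) → Set ℕ} (k0 : AS t0)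
    {t1 : (ℕ → ℕ) → (ℕ → Set ℕ) → Set ℕ} (k1 : AS t1)
    {t2 : (ℕ → ℕ) → (ℕ → Set ℕ) → Set ℕ} (k2 : AS t2)
    {t3 : (ℕ → ℕ) → (ℕ → Set ℕ) → Set ℕ} (k3 : AS t3) :
    AN (fun v V => R (t0 v V) (t1 v V) (t2 v V) (t3 v V)) :=
  AN.subst h (f := (fun i v _ => v i))
    (t := (fc t0 (fc t1 (fc t2 (fc t3 (fun j _ V => V j))))))
    (fun i => AN.var i) (fc_all (p := AS) k0 (fc_all (p := AS) k1 (fc_all (p := AS) k2 (fc_all (p := AS) k3 (fun j => AS.var j)))))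

theorem AN.s10 {R : ℕ → ℕ}
    (h : AN (fun v V => R (v 0)))
    {f0 : (ℕ → ℕ) → (ℕ → Set ℕ) → ℕ} (h0 : AN f0) :
    AN (fun v V => R (f0 v V)) :=
  AN.subst h (f := (fc f0 (fun i v _ => v i)))
    (t := (fun j _ V => V j))
    (fc_all (p := AN) h0 (fun i => AN.var i)) (fun j => AS.var j)

theorem AN.s11 {R : ℕ → Set ℕ → ℕ}
    (h : AN (fun v V => R (v 0) (V 0)))
    {f0 : (ℕ → ℕ) → (ℕ → Set ℕ) → ℕ} (h0 : AN f0)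
    {t0 : (ℕ → ℕ) → (ℕ → Set ℕ) → Set ℕ} (k0 : AS t0) :
    AN (fun v V => R (f0 v V) (t0 v V)) :=
  AN.subst h (f := (fc f0 (fun i v _ => v i)))
    (t := (fc t0 (fun j _ V => V j)))
    (fc_all (p := AN) h0 (fun i => AN.var i)) (fc_all (p := AS) k0 (fun j => AS.var j))

theorem AN.s12 {R : ℕ → Set ℕ → Set ℕ → ℕ}
    (h : AN (fun v V => R (v 0) (V 0) (V 1)))
    {f0 : (ℕ → ℕ) → (ℕ → Set ℕ) → ℕ} (h0 : AN f0)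
    {t0 : (ℕ → ℕ) → (ℕ → Set ℕ) → Set ℕ} (k0 : AS t0)
    {t1 : (ℕ → ℕ) → (ℕ → Set ℕ) → Set ℕ} (k1 : AS t1) :
    AN (fun v V => R (f0 v V) (t0 v V) (t1 v V)) :=
  AN.subst h (f := (fc f0 (fun i v _ => v i)))
    (t := (fc t0 (fc t1 (fun j _ V => V j))))
    (fc_all (p := AN) h0 (fun i => AN.var i)) (fc_all (p := AS) k0 (fc_all (p := AS) k1 (fun j => AS.var j)))

theorem AN.s13 {R : ℕ → Set ℕ → Set ℕ → Set ℕ → ℕ}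
    (h : AN (fun v V => R (v 0) (V 0) (V 1) (V 2)))
    {f0 : (ℕ → ℕ) → (ℕ → Set ℕ) → ℕ} (h0 : AN f0)
    {t0 : (ℕ → ℕ) → (ℕ → Set ℕ) → Set ℕ} (k0 : AS t0)
    {t1 : (ℕ → ℕ) → (ℕ → Set ℕ) → Set ℕ} (k1 : AS t1)
    {t2 : (ℕ → ℕ) → (ℕ → Set ℕ) → Set ℕ} (k2 : AS t2) :
    AN (fun v V => R (f0 v V) (t0 v V) (t1 v V) (t2 v V)) :=
  AN.subst h (f := (fc f0 (fun i v _ => v i)))
    (t := (fc t0 (fc t1 (fc t2 (fun j _ V => V j)))))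
    (fc_all (p := AN) h0 (fun i => AN.var i)) (fc_all (p := AS) k0 (fc_all (p := AS) k1 (fc_all (p := AS) k2 (fun j => AS.var j))))

theorem AN.s14 {R : ℕ → Set ℕ → Set ℕ → Set ℕ → Set ℕ → ℕ}
    (h : AN (fun v V => R (v 0) (V 0) (V 1) (V 2) (V 3)))
    {f0 : (ℕ → ℕ) → (ℕ → Set ℕ) → ℕ} (h0 : AN f0)
    {t0 : (ℕ → ℕ) → (ℕ → Set ℕ) → Set ℕ} (k0 : AS t0)
    {t1 : (ℕ → ℕ) → (ℕ → Set ℕ) → Set ℕ} (k1 : AS t1)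
    {t2 : (ℕ → ℕ) → (ℕ → Set ℕ) → Set ℕ} (k2 : AS t2)
    {t3 : (ℕ → ℕ) → (ℕ → Set ℕ) → Set ℕ} (k3 : AS t3) :
    AN (fun v V => R (f0 v V) (t0 v V) (t1 v V) (t2 v V) (t3 v V)) :=
  AN.subst h (f := (fc f0 (fun i v _ => v i)))
    (t := (fc t0 (fc t1 (fc t2 (fc t3 (fun j _ V => V j))))))
    (fc_all (p := AN) h0 (fun i => AN.var i)) (fc_all (p := AS) k0 (fc_all (p := AS) k1 (fc_all (p := AS) k2 (fc_all (p := AS) k3 (fun j => AS.var j)))))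

theorem AN.s20 {R : ℕ → ℕ → ℕ}
    (h : AN (fun v V => R (v 0) (v 1)))
    {f0 : (ℕ → ℕ) → (ℕ → Set ℕ) → ℕ} (h0 : AN f0)
    {f1 : (ℕ → ℕ) → (ℕ → Set ℕ) → ℕ} (h1 : AN f1) :
    AN (fun v V => R (f0 v V) (f1 v V)) :=
  AN.subst h (f := (fc f0 (fc f1 (fun i v _ => v i))))
    (t := (fun j _ V => V j))
    (fc_all (p := AN) h0 (fc_all (p := AN) h1 (fun i => AN.var i))) (fun j => AS.var j)

theorem AN.s21 {R : ℕ → ℕ → Set ℕ → ℕ}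
    (h : AN (fun v V => R (v 0) (v 1) (V 0)))
    {f0 : (ℕ → ℕ) → (ℕ → Set ℕ) → ℕ} (h0 : AN f0)
    {f1 : (ℕ → ℕ) → (ℕ → Set ℕ) → ℕ} (h1 : AN f1)
    {t0 : (ℕ → ℕ) → (ℕ → Set ℕ) → Set ℕ} (k0 : AS t0) :
    AN (fun v V => R (f0 v V) (f1 v V) (t0 v V)) :=
  AN.subst h (f := (fc f0 (fc f1 (fun i v _ => v i))))
    (t := (fc t0 (fun j _ V => V j)))
    (fc_all (p := AN) h0 (fc_all (p := AN) h1 (fun i => AN.var i))) (fc_all (p := AS) k0 (fun j => AS.var j))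

theorem AN.s22 {R : ℕ → ℕ → Set ℕ → Set ℕ → ℕ}
    (h : AN (fun v V => R (v 0) (v 1) (V 0) (V 1)))
    {f0 : (ℕ → ℕ) → (ℕ → Set ℕ) → ℕ} (h0 : AN f0)
    {f1 : (ℕ → ℕ) → (ℕ → Set ℕ) → ℕ} (h1 : AN f1)
    {t0 : (ℕ → ℕ) → (ℕ → Set ℕ) → Set ℕ} (k0 : AS t0)
    {t1 : (ℕ → ℕ) → (ℕ → Set ℕ) → Set ℕ} (k1 : AS t1) :
    AN (fun v V => R (f0 v V) (f1 v V) (t0 v V) (t1 v V)) :=
  AN.subst h (f := (fc f0 (fc f1 (fun i v _ => v i))))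
    (t := (fc t0 (fc t1 (fun j _ V => V j))))
    (fc_all (p := AN) h0 (fc_all (p := AN) h1 (fun i => AN.var i))) (fc_all (p := AS) k0 (fc_all (p := AS) k1 (fun j => AS.var j)))

theorem AN.s23 {R : ℕ → ℕ → Set ℕ → Set ℕ → Set ℕ → ℕ}
    (h : AN (fun v V => R (v 0) (v 1) (V 0) (V 1) (V 2)))
    {f0 : (ℕ → ℕ) → (ℕ → Set ℕ) → ℕ} (h0 : AN f0)
    {f1 : (ℕ → ℕ) → (ℕ → Set ℕ) → ℕ} (h1 : AN f1)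
    {t0 : (ℕ → ℕ) → (ℕ → Set ℕ) → Set ℕ} (k0 : AS t0)
    {t1 : (ℕ → ℕ) → (ℕ → Set ℕ) → Set ℕ} (k1 : AS t1)
    {t2 : (ℕ → ℕ) → (ℕ → Set ℕ) → Set ℕ} (k2 : AS t2) :
    AN (fun v V => R (f0 v V) (f1 v V) (t0 v V) (t1 v V) (t2 v V)) :=
  AN.subst h (f := (fc f0 (fc f1 (fun i v _ => v i))))
    (t := (fc t0 (fc t1 (fc t2 (fun j _ V => V j)))))
    (fc_all (p := AN) h0 (fc_all (p := AN) h1 (fun i => AN.var i))) (fc_all (p := AS) k0 (fc_all (p := AS) k1 (fc_all (p := AS) k2 (fun j => AS.var j))))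

theorem AN.s24 {R : ℕ → ℕ → Set ℕ → Set ℕ → Set ℕ → Set ℕ → ℕ}
    (h : AN (fun v V => R (v 0) (v 1) (V 0) (V 1) (V 2) (V 3)))
    {f0 : (ℕ → ℕ) → (ℕ → Set ℕ) → ℕ} (h0 : AN f0)
    {f1 : (ℕ → ℕ) → (ℕ → Set ℕ) → ℕ} (h1 : AN f1)
    {t0 : (ℕ → ℕ) → (ℕ → Set ℕ) → Set ℕ} (k0 : AS t0)
    {t1 : (ℕ → ℕ) → (ℕ → Set ℕ) → Set ℕ} (k1 : AS t1)
    {t2 : (ℕ → ℕ) → (ℕ → Set ℕ) → Set ℕ} (k2 : AS t2)
    {t3 : (ℕ → ℕ) → (ℕ → Set ℕ) → Set ℕ} (k3 : AS t3) :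
    AN (fun v V => R (f0 v V) (f1 v V) (t0 v V) (t1 v V) (t2 v V) (t3 v V)) :=
  AN.subst h (f := (fc f0 (fc f1 (fun i v _ => v i))))
    (t := (fc t0 (fc t1 (fc t2 (fc t3 (fun j _ V => V j))))))
    (fc_all (p := AN) h0 (fc_all (p := AN) h1 (fun i => AN.var i))) (fc_all (p := AS) k0 (fc_all (p := AS) k1 (fc_all (p := AS) k2 (fc_all (p := AS) k3 (fun j => AS.var j)))))

theorem AN.s30 {R : ℕ → ℕ → ℕ → ℕ}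
    (h : AN (fun v V => R (v 0) (v 1) (v 2)))
    {f0 : (ℕ → ℕ) → (ℕ → Set ℕ) → ℕ} (h0 : AN f0)
    {f1 : (ℕ → ℕ) → (ℕ → Set ℕ) → ℕ} (h1 : AN f1)
    {f2 : (ℕ → ℕ) → (ℕ → Set ℕ) → ℕ} (h2 : AN f2) :
    AN (fun v V => R (f0 v V) (f1 v V) (f2 v V)) :=
  AN.subst h (f := (fc f0 (fc f1 (fc f2 (fun i v _ => v i)))))
    (t := (fun j _ V => V j))
    (fc_all (p := AN) h0 (fc_all (p := AN) h1 (fc_all (p := AN) h2 (fun i => AN.var i)))) (fun j => AS.var j)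

theorem AN.s31 {R : ℕ → ℕ → ℕ → Set ℕ → ℕ}
    (h : AN (fun v V => R (v 0) (v 1) (v 2) (V 0)))
    {f0 : (ℕ → ℕ) → (ℕ → Set ℕ) → ℕ} (h0 : AN f0)
    {f1 : (ℕ → ℕ) → (ℕ → Set ℕ) → ℕ} (h1 : AN f1)
    {f2 : (ℕ → ℕ) → (ℕ → Set ℕ) → ℕ} (h2 : AN f2)
    {t0 : (ℕ → ℕ) → (ℕ → Set ℕ) → Set ℕ} (k0 : AS t0) :
    AN (fun v V => R (f0 v V) (f1 v V) (f2 v V) (t0 v V)) :=
  AN.subst h (f := (fc f0 (fc f1 (fc f2 (fun i v _ => v i)))))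
    (t := (fc t0 (fun j _ V => V j)))
    (fc_all (p := AN) h0 (fc_all (p := AN) h1 (fc_all (p := AN) h2 (fun i => AN.var i)))) (fc_all (p := AS) k0 (fun j => AS.var j))

theorem AN.s32 {R : ℕ → ℕ → ℕ → Set ℕ → Set ℕ → ℕ}
    (h : AN (fun v V => R (v 0) (v 1) (v 2) (V 0) (V 1)))
    {f0 : (ℕ → ℕ) → (ℕ → Set ℕ) → ℕ} (h0 : AN f0)
    {f1 : (ℕ → ℕ) → (ℕ → Set ℕ) → ℕ} (h1 : AN f1)
    {f2 : (ℕ → ℕ) → (ℕ → Set ℕ) → ℕ} (h2 : AN f2)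
    {t0 : (ℕ → ℕ) → (ℕ → Set ℕ) → Set ℕ} (k0 : AS t0)
    {t1 : (ℕ → ℕ) → (ℕ → Set ℕ) → Set ℕ} (k1 : AS t1) :
    AN (fun v V => R (f0 v V) (f1 v V) (f2 v V) (t0 v V) (t1 v V)) :=
  AN.subst h (f := (fc f0 (fc f1 (fc f2 (fun i v _ => v i)))))
    (t := (fc t0 (fc t1 (fun j _ V => V j))))
    (fc_all (p := AN) h0 (fc_all (p := AN) h1 (fc_all (p := AN) h2 (fun i => AN.var i)))) (fc_all (p := AS) k0 (fc_all (p := AS) k1 (fun j => AS.var j)))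

theorem AN.s33 {R : ℕ → ℕ → ℕ → Set ℕ → Set ℕ → Set ℕ → ℕ}
    (h : AN (fun v V => R (v 0) (v 1) (v 2) (V 0) (V 1) (V 2)))
    {f0 : (ℕ → ℕ) → (ℕ → Set ℕ) → ℕ} (h0 : AN f0)
    {f1 : (ℕ → ℕ) → (ℕ → Set ℕ) → ℕ} (h1 : AN f1)
    {f2 : (ℕ → ℕ) → (ℕ → Set ℕ) → ℕ} (h2 : AN f2)
    {t0 : (ℕ → ℕ) → (ℕ → Set ℕ) → Set ℕ} (k0 : AS t0)
    {t1 : (ℕ → ℕ) → (ℕ → Set ℕ) → Set ℕ} (k1 : AS t1)
    {t2 : (ℕ → ℕ) → (ℕ → Set ℕ) → Set ℕ} (k2 : AS t2) :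
    AN (fun v V => R (f0 v V) (f1 v V) (f2 v V) (t0 v V) (t1 v V) (t2 v V)) :=
  AN.subst h (f := (fc f0 (fc f1 (fc f2 (fun i v _ => v i)))))
    (t := (fc t0 (fc t1 (fc t2 (fun j _ V => V j)))))
    (fc_all (p := AN) h0 (fc_all (p := AN) h1 (fc_all (p := AN) h2 (fun i => AN.var i)))) (fc_all (p := AS) k0 (fc_all (p := AS) k1 (fc_all (p := AS) k2 (fun j => AS.var j))))

theorem AN.s34 {R : ℕ → ℕ → ℕ → Set ℕ → Set ℕ → Set ℕ → Set ℕ → ℕ}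
    (h : AN (fun v V => R (v 0) (v 1) (v 2) (V 0) (V 1) (V 2) (V 3)))
    {f0 : (ℕ → ℕ) → (ℕ → Set ℕ) → ℕ} (h0 : AN f0)
    {f1 : (ℕ → ℕ) → (ℕ → Set ℕ) → ℕ} (h1 : AN f1)
    {f2 : (ℕ → ℕ) → (ℕ → Set ℕ) → ℕ} (h2 : AN f2)
    {t0 : (ℕ → ℕ) → (ℕ → Set ℕ) → Set ℕ} (k0 : AS t0)
    {t1 : (ℕ → ℕ) → (ℕ → Set ℕ) → Set ℕ} (k1 : AS t1)
    {t2 : (ℕ → ℕ) → (ℕ → Set ℕ) → Set ℕ} (k2 : AS t2)
    {t3 : (ℕ → ℕ) → (ℕ → Set ℕ) → Set ℕ} (k3 : AS t3) :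
    AN (fun v V => R (f0 v V) (f1 v V) (f2 v V) (t0 v V) (t1 v V) (t2 v V) (t3 v V)) :=
  AN.subst h (f := (fc f0 (fc f1 (fc f2 (fun i v _ => v i)))))
    (t := (fc t0 (fc t1 (fc t2 (fc t3 (fun j _ V => V j))))))
    (fc_all (p := AN) h0 (fc_all (p := AN) h1 (fc_all (p := AN) h2 (fun i => AN.var i)))) (fc_all (p := AS) k0 (fc_all (p := AS) k1 (fc_all (p := AS) k2 (fc_all (p := AS) k3 (fun j => AS.var j)))))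

theorem AN.s40 {R : ℕ → ℕ → ℕ → ℕ → ℕ}
    (h : AN (fun v V => R (v 0) (v 1) (v 2) (v 3)))
    {f0 : (ℕ → ℕ) → (ℕ → Set ℕ) → ℕ} (h0 : AN f0)
    {f1 : (ℕ → ℕ) → (ℕ → Set ℕ) → ℕ} (h1 : AN f1)
    {f2 : (ℕ → ℕ) → (ℕ → Set ℕ) → ℕ} (h2 : AN f2)
    {f3 : (ℕ → ℕ) → (ℕ → Set ℕ) → ℕ} (h3 : AN f3) :
    AN (fun v V => R (f0 v V) (f1 v V) (f2 v V) (f3 v V)) :=
  AN.subst h (f := (fc f0 (fc f1 (fc f2 (fc f3 (fun i v _ => v i))))))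
    (t := (fun j _ V => V j))
    (fc_all (p := AN) h0 (fc_all (p := AN) h1 (fc_all (p := AN) h2 (fc_all (p := AN) h3 (fun i => AN.var i))))) (fun j => AS.var j)

theorem AN.s41 {R : ℕ → ℕ → ℕ → ℕ → Set ℕ → ℕ}
    (h : AN (fun v V => R (v 0) (v 1) (v 2) (v 3) (V 0)))
    {f0 : (ℕ → ℕ) → (ℕ → Set ℕ) → ℕ} (h0 : AN f0)
    {f1 : (ℕ → ℕ) → (ℕ → Set ℕ) → ℕ} (h1 : AN f1)
    {f2 : (ℕ → ℕ) → (ℕ → Set ℕ) → ℕ} (h2 : AN f2)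
    {f3 : (ℕ → ℕ) → (ℕ → Set ℕ) → ℕ} (h3 : AN f3)
    {t0 : (ℕ → ℕ) → (ℕ → Set ℕ) → Set ℕ} (k0 : AS t0) :
    AN (fun v V => R (f0 v V) (f1 v V) (f2 v V) (f3 v V) (t0 v V)) :=
  AN.subst h (f := (fc f0 (fc f1 (fc f2 (fc f3 (fun i v _ => v i))))))
    (t := (fc t0 (fun j _ V => V j)))
    (fc_all (p := AN) h0 (fc_all (p := AN) h1 (fc_all (p := AN) h2 (fc_all (p := AN) h3 (fun i => AN.var i))))) (fc_all (p := AS) k0 (fun j => AS.var j))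

theorem AN.s42 {R : ℕ → ℕ → ℕ → ℕ → Set ℕ → Set ℕ → ℕ}
    (h : AN (fun v V => R (v 0) (v 1) (v 2) (v 3) (V 0) (V 1)))
    {f0 : (ℕ → ℕ) → (ℕ → Set ℕ) → ℕ} (h0 : AN f0)
    {f1 : (ℕ → ℕ) → (ℕ → Set ℕ) → ℕ} (h1 : AN f1)
    {f2 : (ℕ → ℕ) → (ℕ → Set ℕ) → ℕ} (h2 : AN f2)
    {f3 : (ℕ → ℕ) → (ℕ → Set ℕ) → ℕ} (h3 : AN f3)
    {t0 : (ℕ → ℕ) → (ℕ → Set ℕ) → Set ℕ} (k0 : AS t0)
    {t1 : (ℕ → ℕ) → (ℕ → Set ℕ) → Set ℕ} (k1 : AS t1) :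
    AN (fun v V => R (f0 v V) (f1 v V) (f2 v V) (f3 v V) (t0 v V) (t1 v V)) :=
  AN.subst h (f := (fc f0 (fc f1 (fc f2 (fc f3 (fun i v _ => v i))))))
    (t := (fc t0 (fc t1 (fun j _ V => V j))))
    (fc_all (p := AN) h0 (fc_all (p := AN) h1 (fc_all (p := AN) h2 (fc_all (p := AN) h3 (fun i => AN.var i))))) (fc_all (p := AS) k0 (fc_all (p := AS) k1 (fun j => AS.var j)))

theorem AN.s43 {R : ℕ → ℕ → ℕ → ℕ → Set ℕ → Set ℕ → Set ℕ → ℕ}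
    (h : AN (fun v V => R (v 0) (v 1) (v 2) (v 3) (V 0) (V 1) (V 2)))
    {f0 : (ℕ → ℕ) → (ℕ → Set ℕ) → ℕ} (h0 : AN f0)
    {f1 : (ℕ → ℕ) → (ℕ → Set ℕ) → ℕ} (h1 : AN f1)
    {f2 : (ℕ → ℕ) → (ℕ → Set ℕ) → ℕ} (h2 : AN f2)
    {f3 : (ℕ → ℕ) → (ℕ → Set ℕ) → ℕ} (h3 : AN f3)
    {t0 : (ℕ → ℕ) → (ℕ → Set ℕ) → Set ℕ} (k0 : AS t0)
    {t1 : (ℕ → ℕ) → (ℕ → Set ℕ) → Set ℕ} (k1 : AS t1)
    {t2 : (ℕ → ℕ) → (ℕ → Set ℕ) → Set ℕ} (k2 : AS t2) :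
    AN (fun v V => R (f0 v V) (f1 v V) (f2 v V) (f3 v V) (t0 v V) (t1 v V) (t2 v V)) :=
  AN.subst h (f := (fc f0 (fc f1 (fc f2 (fc f3 (fun i v _ => v i))))))
    (t := (fc t0 (fc t1 (fc t2 (fun j _ V => V j)))))
    (fc_all (p := AN) h0 (fc_all (p := AN) h1 (fc_all (p := AN) h2 (fc_all (p := AN) h3 (fun i => AN.var i))))) (fc_all (p := AS) k0 (fc_all (p := AS) k1 (fc_all (p := AS) k2 (fun j => AS.var j))))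

theorem AN.s50 {R : ℕ → ℕ → ℕ → ℕ → ℕ → ℕ}
    (h : AN (fun v V => R (v 0) (v 1) (v 2) (v 3) (v 4)))
    {f0 : (ℕ → ℕ) → (ℕ → Set ℕ) → ℕ} (h0 : AN f0)
    {f1 : (ℕ → ℕ) → (ℕ → Set ℕ) → ℕ} (h1 : AN f1)
    {f2 : (ℕ → ℕ) → (ℕ → Set ℕ) → ℕ} (h2 : AN f2)
    {f3 : (ℕ → ℕ) → (ℕ → Set ℕ) → ℕ} (h3 : AN f3)
    {f4 : (ℕ → ℕ) → (ℕ → Set ℕ) → ℕ} (h4 : AN f4) :
    AN (fun v V => R (f0 v V) (f1 v V) (f2 v V) (f3 v V) (f4 v V)) :=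
  AN.subst h (f := (fc f0 (fc f1 (fc f2 (fc f3 (fc f4 (fun i v _ => v i)))))))
    (t := (fun j _ V => V j))
    (fc_all (p := AN) h0 (fc_all (p := AN) h1 (fc_all (p := AN) h2 (fc_all (p := AN) h3 (fc_all (p := AN) h4 (fun i => AN.var i)))))) (fun j => AS.var j)

theorem AN.s51 {R : ℕ → ℕ → ℕ → ℕ → ℕ → Set ℕ → ℕ}
    (h : AN (fun v V => R (v 0) (v 1) (v 2) (v 3) (v 4) (V 0)))
    {f0 : (ℕ → ℕ) → (ℕ → Set ℕ) → ℕ} (h0 : AN f0)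
    {f1 : (ℕ → ℕ) → (ℕ → Set ℕ) → ℕ} (h1 : AN f1)
    {f2 : (ℕ → ℕ) → (ℕ → Set ℕ) → ℕ} (h2 : AN f2)
    {f3 : (ℕ → ℕ) → (ℕ → Set ℕ) → ℕ} (h3 : AN f3)
    {f4 : (ℕ → ℕ) → (ℕ → Set ℕ) → ℕ} (h4 : AN f4)
    {t0 : (ℕ → ℕ) → (ℕ → Set ℕ) → Set ℕ} (k0 : AS t0) :
    AN (fun v V => R (f0 v V) (f1 v V) (f2 v V) (f3 v V) (f4 v V) (t0 v V)) :=
  AN.subst h (f := (fc f0 (fc f1 (fc f2 (fc f3 (fc f4 (fun i v _ => v i)))))))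
    (t := (fc t0 (fun j _ V => V j)))
    (fc_all (p := AN) h0 (fc_all (p := AN) h1 (fc_all (p := AN) h2 (fc_all (p := AN) h3 (fc_all (p := AN) h4 (fun i => AN.var i)))))) (fc_all (p := AS) k0 (fun j => AS.var j))

theorem AN.s52 {R : ℕ → ℕ → ℕ → ℕ → ℕ → Set ℕ → Set ℕ → ℕ}
    (h : AN (fun v V => R (v 0) (v 1) (v 2) (v 3) (v 4) (V 0) (V 1)))
    {f0 : (ℕ → ℕ) → (ℕ → Set ℕ) → ℕ} (h0 : AN f0)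
    {f1 : (ℕ → ℕ) → (ℕ → Set ℕ) → ℕ} (h1 : AN f1)
    {f2 : (ℕ → ℕ) → (ℕ → Set ℕ) → ℕ} (h2 : AN f2)
    {f3 : (ℕ → ℕ) → (ℕ → Set ℕ) → ℕ} (h3 : AN f3)
    {f4 : (ℕ → ℕ) → (ℕ → Set ℕ) → ℕ} (h4 : AN f4)
    {t0 : (ℕ → ℕ) → (ℕ → Set ℕ) → Set ℕ} (k0 : AS t0)
    {t1 : (ℕ → ℕ) → (ℕ → Set ℕ) → Set ℕ} (k1 : AS t1) :
    AN (fun v V => R (f0 v V) (f1 v V) (f2 v V) (f3 v V) (f4 v V) (t0 v V) (t1 v V)) :=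
  AN.subst h (f := (fc f0 (fc f1 (fc f2 (fc f3 (fc f4 (fun i v _ => v i)))))))
    (t := (fc t0 (fc t1 (fun j _ V => V j))))
    (fc_all (p := AN) h0 (fc_all (p := AN) h1 (fc_all (p := AN) h2 (fc_all (p := AN) h3 (fc_all (p := AN) h4 (fun i => AN.var i)))))) (fc_all (p := AS) k0 (fc_all (p := AS) k1 (fun j => AS.var j)))

theorem AS.s01 {R : Set ℕ → Set ℕ}
    (h : AS (fun v V => R (V 0)))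
    {t0 : (ℕ → ℕ) → (ℕ → Set ℕ) → Set ℕ} (k0 : AS t0) :
    AS (fun v V => R (t0 v V)) :=
  AS.subst h (f := (fun i v _ => v i))
    (t := (fc t0 (fun j _ V => V j)))
    (fun i => AN.var i) (fc_all (p := AS) k0 (fun j => AS.var j))

theorem AS.s02 {R : Set ℕ → Set ℕ → Set ℕ}
    (h : AS (fun v V => R (V 0) (V 1)))
    {t0 : (ℕ → ℕ) → (ℕ → Set ℕ) → Set ℕ} (k0 : AS t0)
    {t1 : (ℕ → ℕ) → (ℕ → Set ℕ) → Set ℕ} (k1 : AS t1) :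
    AS (fun v V => R (t0 v V) (t1 v V)) :=
  AS.subst h (f := (fun i v _ => v i))
    (t := (fc t0 (fc t1 (fun j _ V => V j))))
    (fun i => AN.var i) (fc_all (p := AS) k0 (fc_all (p := AS) k1 (fun j => AS.var j)))

theorem AS.s03 {R : Set ℕ → Set ℕ → Set ℕ → Set ℕ}
    (h : AS (fun v V => R (V 0) (V 1) (V 2)))
    {t0 : (ℕ → ℕ) → (ℕ → Set ℕ) → Set ℕ} (k0 : AS t0)
    {t1 : (ℕ → ℕ) → (ℕ → Set ℕ) → Set ℕ} (k1 : AS t1)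
    {t2 : (ℕ → ℕ) → (ℕ → Set ℕ) → Set ℕ} (k2 : AS t2) :
    AS (fun v V => R (t0 v V) (t1 v V) (t2 v V)) :=
  AS.subst h (f := (fun i v _ => v i))
    (t := (fc t0 (fc t1 (fc t2 (fun j _ V => V j)))))
    (fun i => AN.var i) (fc_all (p := AS) k0 (fc_all (p := AS) k1 (fc_all (p := AS) k2 (fun j => AS.var j))))

theorem AS.s04 {R : Set ℕ → Set ℕ → Set ℕ → Set ℕ → Set ℕ}
    (h : AS (fun v V => R (V 0) (V 1) (V 2) (V 3)))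
    {t0 : (ℕ → ℕ) → (ℕ → Set ℕ) → Set ℕ} (k0 : AS t0)
    {t1 : (ℕ → ℕ) → (ℕ → Set ℕ) → Set ℕ} (k1 : AS t1)
    {t2 : (ℕ → ℕ) → (ℕ → Set ℕ) → Set ℕ} (k2 : AS t2)
    {t3 : (ℕ → ℕ) → (ℕ → Set ℕ) → Set ℕ} (k3 : AS t3) :
    AS (fun v V => R (t0 v V) (t1 v V) (t2 v V) (t3 v V)) :=
  AS.subst h (f := (fun i v _ => v i))
    (t := (fc t0 (fc t1 (fc t2 (fc t3 (fun j _ V => V j))))))
    (fun i => AN.var i) (fc_all (p := AS) k0 (fc_all (p := AS) k1 (fc_all (p := AS) k2 (fc_all (p := AS) k3 (fun j => AS.var j)))))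

theorem AS.s10 {R : ℕ → Set ℕ}
    (h : AS (fun v V => R (v 0)))
    {f0 : (ℕ → ℕ) → (ℕ → Set ℕ) → ℕ} (h0 : AN f0) :
    AS (fun v V => R (f0 v V)) :=
  AS.subst h (f := (fc f0 (fun i v _ => v i)))
    (t := (fun j _ V => V j))
    (fc_all (p := AN) h0 (fun i => AN.var i)) (fun j => AS.var j)

theorem AS.s11 {R : ℕ → Set ℕ → Set ℕ}
    (h : AS (fun v V => R (v 0) (V 0)))
    {f0 : (ℕ → ℕ) → (ℕ → Set ℕ) → ℕ} (h0 : AN f0)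
    {t0 : (ℕ → ℕ) → (ℕ → Set ℕ) → Set ℕ} (k0 : AS t0) :
    AS (fun v V => R (f0 v V) (t0 v V)) :=
  AS.subst h (f := (fc f0 (fun i v _ => v i)))
    (t := (fc t0 (fun j _ V => V j)))
    (fc_all (p := AN) h0 (fun i => AN.var i)) (fc_all (p := AS) k0 (fun j => AS.var j))

theorem AS.s12 {R : ℕ → Set ℕ → Set ℕ → Set ℕ}
    (h : AS (fun v V => R (v 0) (V 0) (V 1)))
    {f0 : (ℕ → ℕ) → (ℕ → Set ℕ) → ℕ} (h0 : AN f0)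
    {t0 : (ℕ → ℕ) → (ℕ → Set ℕ) → Set ℕ} (k0 : AS t0)
    {t1 : (ℕ → ℕ) → (ℕ → Set ℕ) → Set ℕ} (k1 : AS t1) :
    AS (fun v V => R (f0 v V) (t0 v V) (t1 v V)) :=
  AS.subst h (f := (fc f0 (fun i v _ => v i)))
    (t := (fc t0 (fc t1 (fun j _ V => V j))))
    (fc_all (p := AN) h0 (fun i => AN.var i)) (fc_all (p := AS) k0 (fc_all (p := AS) k1 (fun j => AS.var j)))

theorem AS.s13 {R : ℕ → Set ℕ → Set ℕ → Set ℕ → Set ℕ}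
    (h : AS (fun v V => R (v 0) (V 0) (V 1) (V 2)))
    {f0 : (ℕ → ℕ) → (ℕ → Set ℕ) → ℕ} (h0 : AN f0)
    {t0 : (ℕ → ℕ) → (ℕ → Set ℕ) → Set ℕ} (k0 : AS t0)
    {t1 : (ℕ → ℕ) → (ℕ → Set ℕ) → Set ℕ} (k1 : AS t1)
    {t2 : (ℕ → ℕ) → (ℕ → Set ℕ) → Set ℕ} (k2 : AS t2) :
    AS (fun v V => R (f0 v V) (t0 v V) (t1 v V) (t2 v V)) :=
  AS.subst h (f := (fc f0 (fun i v _ => v i)))
    (t := (fc t0 (fc t1 (fc t2 (fun j _ V => V j)))))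
    (fc_all (p := AN) h0 (fun i => AN.var i)) (fc_all (p := AS) k0 (fc_all (p := AS) k1 (fc_all (p := AS) k2 (fun j => AS.var j))))

theorem AS.s14 {R : ℕ → Set ℕ → Set ℕ → Set ℕ → Set ℕ → Set ℕ}
    (h : AS (fun v V => R (v 0) (V 0) (V 1) (V 2) (V 3)))
    {f0 : (ℕ → ℕ) → (ℕ → Set ℕ) → ℕ} (h0 : AN f0)
    {t0 : (ℕ → ℕ) → (ℕ → Set ℕ) → Set ℕ} (k0 : AS t0)
    {t1 : (ℕ → ℕ) → (ℕ → Set ℕ) → Set ℕ} (k1 : AS t1)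
    {t2 : (ℕ → ℕ) → (ℕ → Set ℕ) → Set ℕ} (k2 : AS t2)
    {t3 : (ℕ → ℕ) → (ℕ → Set ℕ) → Set ℕ} (k3 : AS t3) :
    AS (fun v V => R (f0 v V) (t0 v V) (t1 v V) (t2 v V) (t3 v V)) :=
  AS.subst h (f := (fc f0 (fun i v _ => v i)))
    (t := (fc t0 (fc t1 (fc t2 (fc t3 (fun j _ V => V j))))))
    (fc_all (p := AN) h0 (fun i => AN.var i)) (fc_all (p := AS) k0 (fc_all (p := AS) k1 (fc_all (p := AS) k2 (fc_all (p := AS) k3 (fun j => AS.var j)))))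

theorem AS.s20 {R : ℕ → ℕ → Set ℕ}
    (h : AS (fun v V => R (v 0) (v 1)))
    {f0 : (ℕ → ℕ) → (ℕ → Set ℕ) → ℕ} (h0 : AN f0)
    {f1 : (ℕ → ℕ) → (ℕ → Set ℕ) → ℕ} (h1 : AN f1) :
    AS (fun v V => R (f0 v V) (f1 v V)) :=
  AS.subst h (f := (fc f0 (fc f1 (fun i v _ => v i))))
    (t := (fun j _ V => V j))
    (fc_all (p := AN) h0 (fc_all (p := AN) h1 (fun i => AN.var i))) (fun j => AS.var j)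

theorem AS.s21 {R : ℕ → ℕ → Set ℕ → Set ℕ}
    (h : AS (fun v V => R (v 0) (v 1) (V 0)))
    {f0 : (ℕ → ℕ) → (ℕ → Set ℕ) → ℕ} (h0 : AN f0)
    {f1 : (ℕ → ℕ) → (ℕ → Set ℕ) → ℕ} (h1 : AN f1)
    {t0 : (ℕ → ℕ) → (ℕ → Set ℕ) → Set ℕ} (k0 : AS t0) :
    AS (fun v V => R (f0 v V) (f1 v V) (t0 v V)) :=
  AS.subst h (f := (fc f0 (fc f1 (fun i v _ => v i))))
    (t := (fc t0 (fun j _ V => V j)))
    (fc_all (p := AN) h0 (fc_all (p := AN) h1 (fun i => AN.var i))) (fc_all (p := AS) k0 (fun j => AS.var j))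

theorem AS.s22 {R : ℕ → ℕ → Set ℕ → Set ℕ → Set ℕ}
    (h : AS (fun v V => R (v 0) (v 1) (V 0) (V 1)))
    {f0 : (ℕ → ℕ) → (ℕ → Set ℕ) → ℕ} (h0 : AN f0)
    {f1 : (ℕ → ℕ) → (ℕ → Set ℕ) → ℕ} (h1 : AN f1)
    {t0 : (ℕ → ℕ) → (ℕ → Set ℕ) → Set ℕ} (k0 : AS t0)
    {t1 : (ℕ → ℕ) → (ℕ → Set ℕ) → Set ℕ} (k1 : AS t1) :
    AS (fun v V => R (f0 v V) (f1 v V) (t0 v V) (t1 v V)) :=
  AS.subst h (f := (fc f0 (fc f1 (fun i v _ => v i))))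
    (t := (fc t0 (fc t1 (fun j _ V => V j))))
    (fc_all (p := AN) h0 (fc_all (p := AN) h1 (fun i => AN.var i))) (fc_all (p := AS) k0 (fc_all (p := AS) k1 (fun j => AS.var j)))

theorem AS.s23 {R : ℕ → ℕ → Set ℕ → Set ℕ → Set ℕ → Set ℕ}
    (h : AS (fun v V => R (v 0) (v 1) (V 0) (V 1) (V 2)))
    {f0 : (ℕ → ℕ) → (ℕ → Set ℕ) → ℕ} (h0 : AN f0)
    {f1 : (ℕ → ℕ) → (ℕ → Set ℕ) → ℕ} (h1 : AN f1)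
    {t0 : (ℕ → ℕ) → (ℕ → Set ℕ) → Set ℕ} (k0 : AS t0)
    {t1 : (ℕ → ℕ) → (ℕ → Set ℕ) → Set ℕ} (k1 : AS t1)
    {t2 : (ℕ → ℕ) → (ℕ → Set ℕ) → Set ℕ} (k2 : AS t2) :
    AS (fun v V => R (f0 v V) (f1 v V) (t0 v V) (t1 v V) (t2 v V)) :=
  AS.subst h (f := (fc f0 (fc f1 (fun i v _ => v i))))
    (t := (fc t0 (fc t1 (fc t2 (fun j _ V => V j)))))
    (fc_all (p := AN) h0 (fc_all (p := AN) h1 (fun i => AN.var i))) (fc_all (p := AS) k0 (fc_all (p := AS) k1 (fc_all (p := AS) k2 (fun j => AS.var j))))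

theorem AS.s24 {R : ℕ → ℕ → Set ℕ → Set ℕ → Set ℕ → Set ℕ → Set ℕ}
    (h : AS (fun v V => R (v 0) (v 1) (V 0) (V 1) (V 2) (V 3)))
    {f0 : (ℕ → ℕ) → (ℕ → Set ℕ) → ℕ} (h0 : AN f0)
    {f1 : (ℕ → ℕ) → (ℕ → Set ℕ) → ℕ} (h1 : AN f1)
    {t0 : (ℕ → ℕ) → (ℕ → Set ℕ) → Set ℕ} (k0 : AS t0)
    {t1 : (ℕ → ℕ) → (ℕ → Set ℕ) → Set ℕ} (k1 : AS t1)
    {t2 : (ℕ → ℕ) → (ℕ → Set ℕ) → Set ℕ} (k2 : AS t2)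
    {t3 : (ℕ → ℕ) → (ℕ → Set ℕ) → Set ℕ} (k3 : AS t3) :
    AS (fun v V => R (f0 v V) (f1 v V) (t0 v V) (t1 v V) (t2 v V) (t3 v V)) :=
  AS.subst h (f := (fc f0 (fc f1 (fun i v _ => v i))))
    (t := (fc t0 (fc t1 (fc t2 (fc t3 (fun j _ V => V j))))))
    (fc_all (p := AN) h0 (fc_all (p := AN) h1 (fun i => AN.var i))) (fc_all (p := AS) k0 (fc_all (p := AS) k1 (fc_all (p := AS) k2 (fc_all (p := AS) k3 (fun j => AS.var j)))))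

theorem AS.s30 {R : ℕ → ℕ → ℕ → Set ℕ}
    (h : AS (fun v V => R (v 0) (v 1) (v 2)))
    {f0 : (ℕ → ℕ) → (ℕ → Set ℕ) → ℕ} (h0 : AN f0)
    {f1 : (ℕ → ℕ) → (ℕ → Set ℕ) → ℕ} (h1 : AN f1)
    {f2 : (ℕ → ℕ) → (ℕ → Set ℕ) → ℕ} (h2 : AN f2) :
    AS (fun v V => R (f0 v V) (f1 v V) (f2 v V)) :=
  AS.subst h (f := (fc f0 (fc f1 (fc f2 (fun i v _ => v i)))))
    (t := (fun j _ V => V j))
    (fc_all (p := AN) h0 (fc_all (p := AN) h1 (fc_all (p := AN) h2 (fun i => AN.var i)))) (fun j => AS.var j)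

theorem AS.s31 {R : ℕ → ℕ → ℕ → Set ℕ → Set ℕ}
    (h : AS (fun v V => R (v 0) (v 1) (v 2) (V 0)))
    {f0 : (ℕ → ℕ) → (ℕ → Set ℕ) → ℕ} (h0 : AN f0)
    {f1 : (ℕ → ℕ) → (ℕ → Set ℕ) → ℕ} (h1 : AN f1)
    {f2 : (ℕ → ℕ) → (ℕ → Set ℕ) → ℕ} (h2 : AN f2)
    {t0 : (ℕ → ℕ) → (ℕ → Set ℕ) → Set ℕ} (k0 : AS t0) :
    AS (fun v V => R (f0 v V) (f1 v V) (f2 v V) (t0 v V)) :=
  AS.subst h (f := (fc f0 (fc f1 (fc f2 (fun i v _ => v i)))))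
    (t := (fc t0 (fun j _ V => V j)))
    (fc_all (p := AN) h0 (fc_all (p := AN) h1 (fc_all (p := AN) h2 (fun i => AN.var i)))) (fc_all (p := AS) k0 (fun j => AS.var j))

theorem AS.s32 {R : ℕ → ℕ → ℕ → Set ℕ → Set ℕ → Set ℕ}
    (h : AS (fun v V => R (v 0) (v 1) (v 2) (V 0) (V 1)))
    {f0 : (ℕ → ℕ) → (ℕ → Set ℕ) → ℕ} (h0 : AN f0)
    {f1 : (ℕ → ℕ) → (ℕ → Set ℕ) → ℕ} (h1 : AN f1)
    {f2 : (ℕ → ℕ) → (ℕ → Set ℕ) → ℕ} (h2 : AN f2)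
    {t0 : (ℕ → ℕ) → (ℕ → Set ℕ) → Set ℕ} (k0 : AS t0)
    {t1 : (ℕ → ℕ) → (ℕ → Set ℕ) → Set ℕ} (k1 : AS t1) :
    AS (fun v V => R (f0 v V) (f1 v V) (f2 v V) (t0 v V) (t1 v V)) :=
  AS.subst h (f := (fc f0 (fc f1 (fc f2 (fun i v _ => v i)))))
    (t := (fc t0 (fc t1 (fun j _ V => V j))))
    (fc_all (p := AN) h0 (fc_all (p := AN) h1 (fc_all (p := AN) h2 (fun i => AN.var i)))) (fc_all (p := AS) k0 (fc_all (p := AS) k1 (fun j => AS.var j)))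

theorem AS.s33 {R : ℕ → ℕ → ℕ → Set ℕ → Set ℕ → Set ℕ → Set ℕ}
    (h : AS (fun v V => R (v 0) (v 1) (v 2) (V 0) (V 1) (V 2)))
    {f0 : (ℕ → ℕ) → (ℕ → Set ℕ) → ℕ} (h0 : AN f0)
    {f1 : (ℕ → ℕ) → (ℕ → Set ℕ) → ℕ} (h1 : AN f1)
    {f2 : (ℕ → ℕ) → (ℕ → Set ℕ) → ℕ} (h2 : AN f2)
    {t0 : (ℕ → ℕ) → (ℕ → Set ℕ) → Set ℕ} (k0 : AS t0)
    {t1 : (ℕ → ℕ) → (ℕ → Set ℕ) → Set ℕ} (k1 : AS t1)
    {t2 : (ℕ → ℕ) → (ℕ → Set ℕ) → Set ℕ} (k2 : AS t2) :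
    AS (fun v V => R (f0 v V) (f1 v V) (f2 v V) (t0 v V) (t1 v V) (t2 v V)) :=
  AS.subst h (f := (fc f0 (fc f1 (fc f2 (fun i v _ => v i)))))
    (t := (fc t0 (fc t1 (fc t2 (fun j _ V => V j)))))
    (fc_all (p := AN) h0 (fc_all (p := AN) h1 (fc_all (p := AN) h2 (fun i => AN.var i)))) (fc_all (p := AS) k0 (fc_all (p := AS) k1 (fc_all (p := AS) k2 (fun j => AS.var j))))

theorem AS.s34 {R : ℕ → ℕ → ℕ → Set ℕ → Set ℕ → Set ℕ → Set ℕ → Set ℕ}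
    (h : AS (fun v V => R (v 0) (v 1) (v 2) (V 0) (V 1) (V 2) (V 3)))
    {f0 : (ℕ → ℕ) → (ℕ → Set ℕ) → ℕ} (h0 : AN f0)
    {f1 : (ℕ → ℕ) → (ℕ → Set ℕ) → ℕ} (h1 : AN f1)
    {f2 : (ℕ → ℕ) → (ℕ → Set ℕ) → ℕ} (h2 : AN f2)
    {t0 : (ℕ → ℕ) → (ℕ → Set ℕ) → Set ℕ} (k0 : AS t0)
    {t1 : (ℕ → ℕ) → (ℕ → Set ℕ) → Set ℕ} (k1 : AS t1)
    {t2 : (ℕ → ℕ) → (ℕ → Set ℕ) → Set ℕ} (k2 : AS t2)
    {t3 : (ℕ → ℕ) → (ℕ → Set ℕ) → Set ℕ} (k3 : AS t3) :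
    AS (fun v V => R (f0 v V) (f1 v V) (f2 v V) (t0 v V) (t1 v V) (t2 v V) (t3 v V)) :=
  AS.subst h (f := (fc f0 (fc f1 (fc f2 (fun i v _ => v i)))))
    (t := (fc t0 (fc t1 (fc t2 (fc t3 (fun j _ V => V j))))))
    (fc_all (p := AN) h0 (fc_all (p := AN) h1 (fc_all (p := AN) h2 (fun i => AN.var i)))) (fc_all (p := AS) k0 (fc_all (p := AS) k1 (fc_all (p := AS) k2 (fc_all (p := AS) k3 (fun j => AS.var j)))))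

theorem AS.s40 {R : ℕ → ℕ → ℕ → ℕ → Set ℕ}
    (h : AS (fun v V => R (v 0) (v 1) (v 2) (v 3)))
    {f0 : (ℕ → ℕ) → (ℕ → Set ℕ) → ℕ} (h0 : AN f0)
    {f1 : (ℕ → ℕ) → (ℕ → Set ℕ) → ℕ} (h1 : AN f1)
    {f2 : (ℕ → ℕ) → (ℕ → Set ℕ) → ℕ} (h2 : AN f2)
    {f3 : (ℕ → ℕ) → (ℕ → Set ℕ) → ℕ} (h3 : AN f3) :
    AS (fun v V => R (f0 v V) (f1 v V) (f2 v V) (f3 v V)) :=
  AS.subst h (f := (fc f0 (fc f1 (fc f2 (fc f3 (fun i v _ => v i))))))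
    (t := (fun j _ V => V j))
    (fc_all (p := AN) h0 (fc_all (p := AN) h1 (fc_all (p := AN) h2 (fc_all (p := AN) h3 (fun i => AN.var i))))) (fun j => AS.var j)

theorem AS.s41 {R : ℕ → ℕ → ℕ → ℕ → Set ℕ → Set ℕ}
    (h : AS (fun v V => R (v 0) (v 1) (v 2) (v 3) (V 0)))
    {f0 : (ℕ → ℕ) → (ℕ → Set ℕ) → ℕ} (h0 : AN f0)
    {f1 : (ℕ → ℕ) → (ℕ → Set ℕ) → ℕ} (h1 : AN f1)
    {f2 : (ℕ → ℕ) → (ℕ → Set ℕ) → ℕ} (h2 : AN f2)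
    {f3 : (ℕ → ℕ) → (ℕ → Set ℕ) → ℕ} (h3 : AN f3)
    {t0 : (ℕ → ℕ) → (ℕ → Set ℕ) → Set ℕ} (k0 : AS t0) :
    AS (fun v V => R (f0 v V) (f1 v V) (f2 v V) (f3 v V) (t0 v V)) :=
  AS.subst h (f := (fc f0 (fc f1 (fc f2 (fc f3 (fun i v _ => v i))))))
    (t := (fc t0 (fun j _ V => V j)))
    (fc_all (p := AN) h0 (fc_all (p := AN) h1 (fc_all (p := AN) h2 (fc_all (p := AN) h3 (fun i => AN.var i))))) (fc_all (p := AS) k0 (fun j => AS.var j))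

theorem AS.s42 {R : ℕ → ℕ → ℕ → ℕ → Set ℕ → Set ℕ → Set ℕ}
    (h : AS (fun v V => R (v 0) (v 1) (v 2) (v 3) (V 0) (V 1)))
    {f0 : (ℕ → ℕ) → (ℕ → Set ℕ) → ℕ} (h0 : AN f0)
    {f1 : (ℕ → ℕ) → (ℕ → Set ℕ) → ℕ} (h1 : AN f1)
    {f2 : (ℕ → ℕ) → (ℕ → Set ℕ) → ℕ} (h2 : AN f2)
    {f3 : (ℕ → ℕ) → (ℕ → Set ℕ) → ℕ} (h3 : AN f3)
    {t0 : (ℕ → ℕ) → (ℕ → Set ℕ) → Set ℕ} (k0 : AS t0)
    {t1 : (ℕ → ℕ) → (ℕ → Set ℕ) → Set ℕ} (k1 : AS t1) :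
    AS (fun v V => R (f0 v V) (f1 v V) (f2 v V) (f3 v V) (t0 v V) (t1 v V)) :=
  AS.subst h (f := (fc f0 (fc f1 (fc f2 (fc f3 (fun i v _ => v i))))))
    (t := (fc t0 (fc t1 (fun j _ V => V j))))
    (fc_all (p := AN) h0 (fc_all (p := AN) h1 (fc_all (p := AN) h2 (fc_all (p := AN) h3 (fun i => AN.var i))))) (fc_all (p := AS) k0 (fc_all (p := AS) k1 (fun j => AS.var j)))

theorem AS.s43 {R : ℕ → ℕ → ℕ → ℕ → Set ℕ → Set ℕ → Set ℕ → Set ℕ}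
    (h : AS (fun v V => R (v 0) (v 1) (v 2) (v 3) (V 0) (V 1) (V 2)))
    {f0 : (ℕ → ℕ) → (ℕ → Set ℕ) → ℕ} (h0 : AN f0)
    {f1 : (ℕ → ℕ) → (ℕ → Set ℕ) → ℕ} (h1 : AN f1)
    {f2 : (ℕ → ℕ) → (ℕ → Set ℕ) → ℕ} (h2 : AN f2)
    {f3 : (ℕ → ℕ) → (ℕ → Set ℕ) → ℕ} (h3 : AN f3)
    {t0 : (ℕ → ℕ) → (ℕ → Set ℕ) → Set ℕ} (k0 : AS t0)
    {t1 : (ℕ → ℕ) → (ℕ → Set ℕ) → Set ℕ} (k1 : AS t1)
    {t2 : (ℕ → ℕ) → (ℕ → Set ℕ) → Set ℕ} (k2 : AS t2) :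
    AS (fun v V => R (f0 v V) (f1 v V) (f2 v V) (f3 v V) (t0 v V) (t1 v V) (t2 v V)) :=
  AS.subst h (f := (fc f0 (fc f1 (fc f2 (fc f3 (fun i v _ => v i))))))
    (t := (fc t0 (fc t1 (fc t2 (fun j _ V => V j)))))
    (fc_all (p := AN) h0 (fc_all (p := AN) h1 (fc_all (p := AN) h2 (fc_all (p := AN) h3 (fun i => AN.var i))))) (fc_all (p := AS) k0 (fc_all (p := AS) k1 (fc_all (p := AS) k2 (fun j => AS.var j))))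

theorem AS.s50 {R : ℕ → ℕ → ℕ → ℕ → ℕ → Set ℕ}
    (h : AS (fun v V => R (v 0) (v 1) (v 2) (v 3) (v 4)))
    {f0 : (ℕ → ℕ) → (ℕ → Set ℕ) → ℕ} (h0 : AN f0)
    {f1 : (ℕ → ℕ) → (ℕ → Set ℕ) → ℕ} (h1 : AN f1)
    {f2 : (ℕ → ℕ) → (ℕ → Set ℕ) → ℕ} (h2 : AN f2)
    {f3 : (ℕ → ℕ) → (ℕ → Set ℕ) → ℕ} (h3 : AN f3)
    {f4 : (ℕ → ℕ) → (ℕ → Set ℕ) → ℕ} (h4 : AN f4) :
    AS (fun v V => R (f0 v V) (f1 v V) (f2 v V) (f3 v V) (f4 v V)) :=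
  AS.subst h (f := (fc f0 (fc f1 (fc f2 (fc f3 (fc f4 (fun i v _ => v i)))))))
    (t := (fun j _ V => V j))
    (fc_all (p := AN) h0 (fc_all (p := AN) h1 (fc_all (p := AN) h2 (fc_all (p := AN) h3 (fc_all (p := AN) h4 (fun i => AN.var i)))))) (fun j => AS.var j)

theorem AS.s51 {R : ℕ → ℕ → ℕ → ℕ → ℕ → Set ℕ → Set ℕ}
    (h : AS (fun v V => R (v 0) (v 1) (v 2) (v 3) (v 4) (V 0)))
    {f0 : (ℕ → ℕ) → (ℕ → Set ℕ) → ℕ} (h0 : AN f0)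
    {f1 : (ℕ → ℕ) → (ℕ → Set ℕ) → ℕ} (h1 : AN f1)
    {f2 : (ℕ → ℕ) → (ℕ → Set ℕ) → ℕ} (h2 : AN f2)
    {f3 : (ℕ → ℕ) → (ℕ → Set ℕ) → ℕ} (h3 : AN f3)
    {f4 : (ℕ → ℕ) → (ℕ → Set ℕ) → ℕ} (h4 : AN f4)
    {t0 : (ℕ → ℕ) → (ℕ → Set ℕ) → Set ℕ} (k0 : AS t0) :
    AS (fun v V => R (f0 v V) (f1 v V) (f2 v V) (f3 v V) (f4 v V) (t0 v V)) :=
  AS.subst h (f := (fc f0 (fc f1 (fc f2 (fc f3 (fc f4 (fun i v _ => v i)))))))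
    (t := (fc t0 (fun j _ V => V j)))
    (fc_all (p := AN) h0 (fc_all (p := AN) h1 (fc_all (p := AN) h2 (fc_all (p := AN) h3 (fc_all (p := AN) h4 (fun i => AN.var i)))))) (fc_all (p := AS) k0 (fun j => AS.var j))

theorem AS.s52 {R : ℕ → ℕ → ℕ → ℕ → ℕ → Set ℕ → Set ℕ → Set ℕ}
    (h : AS (fun v V => R (v 0) (v 1) (v 2) (v 3) (v 4) (V 0) (V 1)))
    {f0 : (ℕ → ℕ) → (ℕ → Set ℕ) → ℕ} (h0 : AN f0)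
    {f1 : (ℕ → ℕ) → (ℕ → Set ℕ) → ℕ} (h1 : AN f1)
    {f2 : (ℕ → ℕ) → (ℕ → Set ℕ) → ℕ} (h2 : AN f2)
    {f3 : (ℕ → ℕ) → (ℕ → Set ℕ) → ℕ} (h3 : AN f3)
    {f4 : (ℕ → ℕ) → (ℕ → Set ℕ) → ℕ} (h4 : AN f4)
    {t0 : (ℕ → ℕ) → (ℕ → Set ℕ) → Set ℕ} (k0 : AS t0)
    {t1 : (ℕ → ℕ) → (ℕ → Set ℕ) → Set ℕ} (k1 : AS t1) :
    AS (fun v V => R (f0 v V) (f1 v V) (f2 v V) (f3 v V) (f4 v V) (t0 v V) (t1 v V)) :=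
  AS.subst h (f := (fc f0 (fc f1 (fc f2 (fc f3 (fc f4 (fun i v _ => v i)))))))
    (t := (fc t0 (fc t1 (fun j _ V => V j))))
    (fc_all (p := AN) h0 (fc_all (p := AN) h1 (fc_all (p := AN) h2 (fc_all (p := AN) h3 (fc_all (p := AN) h4 (fun i => AN.var i)))))) (fc_all (p := AS) k0 (fc_all (p := AS) k1 (fun j => AS.var j)))

theorem UD.s01 {R : Set (Set ℕ) → Set (Set ℕ) → Set ℕ → Prop}
    (h : UD (fun U C v V => R U C (V 0)))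
    {t0 : (ℕ → ℕ) → (ℕ → Set ℕ) → Set ℕ} (k0 : AS t0) :
    UD (fun U C v V => R U C (t0 v V)) :=
  UD.subst h (f := (fun i v _ => v i))
    (t := (fc t0 (fun j _ V => V j)))
    (fun i => AN.var i) (fc_all (p := AS) k0 (fun j => AS.var j))

theorem UD.s02 {R : Set (Set ℕ) → Set (Set ℕ) → Set ℕ → Set ℕ → Prop}
    (h : UD (fun U C v V => R U C (V 0) (V 1)))
    {t0 : (ℕ → ℕ) → (ℕ → Set ℕ) → Set ℕ} (k0 : AS t0)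
    {t1 : (ℕ → ℕ) → (ℕ → Set ℕ) → Set ℕ} (k1 : AS t1) :
    UD (fun U C v V => R U C (t0 v V) (t1 v V)) :=
  UD.subst h (f := (fun i v _ => v i))
    (t := (fc t0 (fc t1 (fun j _ V => V j))))
    (fun i => AN.var i) (fc_all (p := AS) k0 (fc_all (p := AS) k1 (fun j => AS.var j)))

theorem UD.s03 {R : Set (Set ℕ) → Set (Set ℕ) → Set ℕ → Set ℕ → Set ℕ → Prop}
    (h : UD (fun U C v V => R U C (V 0) (V 1) (V 2)))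
    {t0 : (ℕ → ℕ) → (ℕ → Set ℕ) → Set ℕ} (k0 : AS t0)
    {t1 : (ℕ → ℕ) → (ℕ → Set ℕ) → Set ℕ} (k1 : AS t1)
    {t2 : (ℕ → ℕ) → (ℕ → Set ℕ) → Set ℕ} (k2 : AS t2) :
    UD (fun U C v V => R U C (t0 v V) (t1 v V) (t2 v V)) :=
  UD.subst h (f := (fun i v _ => v i))
    (t := (fc t0 (fc t1 (fc t2 (fun j _ V => V j)))))
    (fun i => AN.var i) (fc_all (p := AS) k0 (fc_all (p := AS) k1 (fc_all (p := AS) k2 (fun j => AS.var j))))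

theorem UD.s04 {R : Set (Set ℕ) → Set (Set ℕ) → Set ℕ → Set ℕ → Set ℕ → Set ℕ → Prop}
    (h : UD (fun U C v V => R U C (V 0) (V 1) (V 2) (V 3)))
    {t0 : (ℕ → ℕ) → (ℕ → Set ℕ) → Set ℕ} (k0 : AS t0)
    {t1 : (ℕ → ℕ) → (ℕ → Set ℕ) → Set ℕ} (k1 : AS t1)
    {t2 : (ℕ → ℕ) → (ℕ → Set ℕ) → Set ℕ} (k2 : AS t2)
    {t3 : (ℕ → ℕ) → (ℕ → Set ℕ) → Set ℕ} (k3 : AS t3) :
    UD (fun U C v V => R U C (t0 v V) (t1 v V) (t2 v V) (t3 v V)) :=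
  UD.subst h (f := (fun i v _ => v i))
    (t := (fc t0 (fc t1 (fc t2 (fc t3 (fun j _ V => V j))))))
    (fun i => AN.var i) (fc_all (p := AS) k0 (fc_all (p := AS) k1 (fc_all (p := AS) k2 (fc_all (p := AS) k3 (fun j => AS.var j)))))

theorem UD.s10 {R : Set (Set ℕ) → Set (Set ℕ) → ℕ → Prop}
    (h : UD (fun U C v V => R U C (v 0)))
    {f0 : (ℕ → ℕ) → (ℕ → Set ℕ) → ℕ} (h0 : AN f0) :
    UD (fun U C v V => R U C (f0 v V)) :=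
  UD.subst h (f := (fc f0 (fun i v _ => v i)))
    (t := (fun j _ V => V j))
    (fc_all (p := AN) h0 (fun i => AN.var i)) (fun j => AS.var j)

theorem UD.s11 {R : Set (Set ℕ) → Set (Set ℕ) → ℕ → Set ℕ → Prop}
    (h : UD (fun U C v V => R U C (v 0) (V 0)))
    {f0 : (ℕ → ℕ) → (ℕ → Set ℕ) → ℕ} (h0 : AN f0)
    {t0 : (ℕ → ℕ) → (ℕ → Set ℕ) → Set ℕ} (k0 : AS t0) :
    UD (fun U C v V => R U C (f0 v V) (t0 v V)) :=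
  UD.subst h (f := (fc f0 (fun i v _ => v i)))
    (t := (fc t0 (fun j _ V => V j)))
    (fc_all (p := AN) h0 (fun i => AN.var i)) (fc_all (p := AS) k0 (fun j => AS.var j))

theorem UD.s12 {R : Set (Set ℕ) → Set (Set ℕ) → ℕ → Set ℕ → Set ℕ → Prop}
    (h : UD (fun U C v V => R U C (v 0) (V 0) (V 1)))
    {f0 : (ℕ → ℕ) → (ℕ → Set ℕ) → ℕ} (h0 : AN f0)
    {t0 : (ℕ → ℕ) → (ℕ → Set ℕ) → Set ℕ} (k0 : AS t0)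
    {t1 : (ℕ → ℕ) → (ℕ → Set ℕ) → Set ℕ} (k1 : AS t1) :
    UD (fun U C v V => R U C (f0 v V) (t0 v V) (t1 v V)) :=
  UD.subst h (f := (fc f0 (fun i v _ => v i)))
    (t := (fc t0 (fc t1 (fun j _ V => V j))))
    (fc_all (p := AN) h0 (fun i => AN.var i)) (fc_all (p := AS) k0 (fc_all (p := AS) k1 (fun j => AS.var j)))

theorem UD.s13 {R : Set (Set ℕ) → Set (Set ℕ) → ℕ → Set ℕ → Set ℕ → Set ℕ → Prop}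
    (h : UD (fun U C v V => R U C (v 0) (V 0) (V 1) (V 2)))
    {f0 : (ℕ → ℕ) → (ℕ → Set ℕ) → ℕ} (h0 : AN f0)
    {t0 : (ℕ → ℕ) → (ℕ → Set ℕ) → Set ℕ} (k0 : AS t0)
    {t1 : (ℕ → ℕ) → (ℕ → Set ℕ) → Set ℕ} (k1 : AS t1)
    {t2 : (ℕ → ℕ) → (ℕ → Set ℕ) → Set ℕ} (k2 : AS t2) :
    UD (fun U C v V => R U C (f0 v V) (t0 v V) (t1 v V) (t2 v V)) :=
  UD.subst h (f := (fc f0 (fun i v _ => v i)))
    (t := (fc t0 (fc t1 (fc t2 (fun j _ V => V j)))))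
    (fc_all (p := AN) h0 (fun i => AN.var i)) (fc_all (p := AS) k0 (fc_all (p := AS) k1 (fc_all (p := AS) k2 (fun j => AS.var j))))

theorem UD.s14 {R : Set (Set ℕ) → Set (Set ℕ) → ℕ → Set ℕ → Set ℕ → Set ℕ → Set ℕ → Prop}
    (h : UD (fun U C v V => R U C (v 0) (V 0) (V 1) (V 2) (V 3)))
    {f0 : (ℕ → ℕ) → (ℕ → Set ℕ) → ℕ} (h0 : AN f0)
    {t0 : (ℕ → ℕ) → (ℕ → Set ℕ) → Set ℕ} (k0 : AS t0)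
    {t1 : (ℕ → ℕ) → (ℕ → Set ℕ) → Set ℕ} (k1 : AS t1)
    {t2 : (ℕ → ℕ) → (ℕ → Set ℕ) → Set ℕ} (k2 : AS t2)
    {t3 : (ℕ → ℕ) → (ℕ → Set ℕ) → Set ℕ} (k3 : AS t3) :
    UD (fun U C v V => R U C (f0 v V) (t0 v V) (t1 v V) (t2 v V) (t3 v V)) :=
  UD.subst h (f := (fc f0 (fun i v _ => v i)))
    (t := (fc t0 (fc t1 (fc t2 (fc t3 (fun j _ V => V j))))))
    (fc_all (p := AN) h0 (fun i => AN.var i)) (fc_all (p := AS) k0 (fc_all (p := AS) k1 (fc_all (p := AS) k2 (fc_all (p := AS) k3 (fun j => AS.var j)))))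

theorem UD.s20 {R : Set (Set ℕ) → Set (Set ℕ) → ℕ → ℕ → Prop}
    (h : UD (fun U C v V => R U C (v 0) (v 1)))
    {f0 : (ℕ → ℕ) → (ℕ → Set ℕ) → ℕ} (h0 : AN f0)
    {f1 : (ℕ → ℕ) → (ℕ → Set ℕ) → ℕ} (h1 : AN f1) :
    UD (fun U C v V => R U C (f0 v V) (f1 v V)) :=
  UD.subst h (f := (fc f0 (fc f1 (fun i v _ => v i))))
    (t := (fun j _ V => V j))
    (fc_all (p := AN) h0 (fc_all (p := AN) h1 (fun i => AN.var i))) (fun j => AS.var j)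

theorem UD.s21 {R : Set (Set ℕ) → Set (Set ℕ) → ℕ → ℕ → Set ℕ → Prop}
    (h : UD (fun U C v V => R U C (v 0) (v 1) (V 0)))
    {f0 : (ℕ → ℕ) → (ℕ → Set ℕ) → ℕ} (h0 : AN f0)
    {f1 : (ℕ → ℕ) → (ℕ → Set ℕ) → ℕ} (h1 : AN f1)
    {t0 : (ℕ → ℕ) → (ℕ → Set ℕ) → Set ℕ} (k0 : AS t0) :
    UD (fun U C v V => R U C (f0 v V) (f1 v V) (t0 v V)) :=
  UD.subst h (f := (fc f0 (fc f1 (fun i v _ => v i))))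
    (t := (fc t0 (fun j _ V => V j)))
    (fc_all (p := AN) h0 (fc_all (p := AN) h1 (fun i => AN.var i))) (fc_all (p := AS) k0 (fun j => AS.var j))

theorem UD.s22 {R : Set (Set ℕ) → Set (Set ℕ) → ℕ → ℕ → Set ℕ → Set ℕ → Prop}
    (h : UD (fun U C v V => R U C (v 0) (v 1) (V 0) (V 1)))
    {f0 : (ℕ → ℕ) → (ℕ → Set ℕ) → ℕ} (h0 : AN f0)
    {f1 : (ℕ → ℕ) → (ℕ → Set ℕ) → ℕ} (h1 : AN f1)
    {t0 : (ℕ → ℕ) → (ℕ → Set ℕ) → Set ℕ} (k0 : AS t0)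
    {t1 : (ℕ → ℕ) → (ℕ → Set ℕ) → Set ℕ} (k1 : AS t1) :
    UD (fun U C v V => R U C (f0 v V) (f1 v V) (t0 v V) (t1 v V)) :=
  UD.subst h (f := (fc f0 (fc f1 (fun i v _ => v i))))
    (t := (fc t0 (fc t1 (fun j _ V => V j))))
    (fc_all (p := AN) h0 (fc_all (p := AN) h1 (fun i => AN.var i))) (fc_all (p := AS) k0 (fc_all (p := AS) k1 (fun j => AS.var j)))

theorem UD.s23 {R : Set (Set ℕ) → Set (Set ℕ) → ℕ → ℕ → Set ℕ → Set ℕ → Set ℕ → Prop}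
    (h : UD (fun U C v V => R U C (v 0) (v 1) (V 0) (V 1) (V 2)))
    {f0 : (ℕ → ℕ) → (ℕ → Set ℕ) → ℕ} (h0 : AN f0)
    {f1 : (ℕ → ℕ) → (ℕ → Set ℕ) → ℕ} (h1 : AN f1)
    {t0 : (ℕ → ℕ) → (ℕ → Set ℕ) → Set ℕ} (k0 : AS t0)
    {t1 : (ℕ → ℕ) → (ℕ → Set ℕ) → Set ℕ} (k1 : AS t1)
    {t2 : (ℕ → ℕ) → (ℕ → Set ℕ) → Set ℕ} (k2 : AS t2) :
    UD (fun U C v V => R U C (f0 v V) (f1 v V) (t0 v V) (t1 v V) (t2 v V)) :=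
  UD.subst h (f := (fc f0 (fc f1 (fun i v _ => v i))))
    (t := (fc t0 (fc t1 (fc t2 (fun j _ V => V j)))))
    (fc_all (p := AN) h0 (fc_all (p := AN) h1 (fun i => AN.var i))) (fc_all (p := AS) k0 (fc_all (p := AS) k1 (fc_all (p := AS) k2 (fun j => AS.var j))))

theorem UD.s24 {R : Set (Set ℕ) → Set (Set ℕ) → ℕ → ℕ → Set ℕ → Set ℕ → Set ℕ → Set ℕ → Prop}
    (h : UD (fun U C v V => R U C (v 0) (v 1) (V 0) (V 1) (V 2) (V 3)))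
    {f0 : (ℕ → ℕ) → (ℕ → Set ℕ) → ℕ} (h0 : AN f0)
    {f1 : (ℕ → ℕ) → (ℕ → Set ℕ) → ℕ} (h1 : AN f1)
    {t0 : (ℕ → ℕ) → (ℕ → Set ℕ) → Set ℕ} (k0 : AS t0)
    {t1 : (ℕ → ℕ) → (ℕ → Set ℕ) → Set ℕ} (k1 : AS t1)
    {t2 : (ℕ → ℕ) → (ℕ → Set ℕ) → Set ℕ} (k2 : AS t2)
    {t3 : (ℕ → ℕ) → (ℕ → Set ℕ) → Set ℕ} (k3 : AS t3) :
    UD (fun U C v V => R U C (f0 v V) (f1 v V) (t0 v V) (t1 v V) (t2 v V) (t3 v V)) :=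
  UD.subst h (f := (fc f0 (fc f1 (fun i v _ => v i))))
    (t := (fc t0 (fc t1 (fc t2 (fc t3 (fun j _ V => V j))))))
    (fc_all (p := AN) h0 (fc_all (p := AN) h1 (fun i => AN.var i))) (fc_all (p := AS) k0 (fc_all (p := AS) k1 (fc_all (p := AS) k2 (fc_all (p := AS) k3 (fun j => AS.var j)))))

theorem UD.s30 {R : Set (Set ℕ) → Set (Set ℕ) → ℕ → ℕ → ℕ → Prop}
    (h : UD (fun U C v V => R U C (v 0) (v 1) (v 2)))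
    {f0 : (ℕ → ℕ) → (ℕ → Set ℕ) → ℕ} (h0 : AN f0)
    {f1 : (ℕ → ℕ) → (ℕ → Set ℕ) → ℕ} (h1 : AN f1)
    {f2 : (ℕ → ℕ) → (ℕ → Set ℕ) → ℕ} (h2 : AN f2) :
    UD (fun U C v V => R U C (f0 v V) (f1 v V) (f2 v V)) :=
  UD.subst h (f := (fc f0 (fc f1 (fc f2 (fun i v _ => v i)))))
    (t := (fun j _ V => V j))
    (fc_all (p := AN) h0 (fc_all (p := AN) h1 (fc_all (p := AN) h2 (fun i => AN.var i)))) (fun j => AS.var j)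

theorem UD.s31 {R : Set (Set ℕ) → Set (Set ℕ) → ℕ → ℕ → ℕ → Set ℕ → Prop}
    (h : UD (fun U C v V => R U C (v 0) (v 1) (v 2) (V 0)))
    {f0 : (ℕ → ℕ) → (ℕ → Set ℕ) → ℕ} (h0 : AN f0)
    {f1 : (ℕ → ℕ) → (ℕ → Set ℕ) → ℕ} (h1 : AN f1)
    {f2 : (ℕ → ℕ) → (ℕ → Set ℕ) → ℕ} (h2 : AN f2)
    {t0 : (ℕ → ℕ) → (ℕ → Set ℕ) → Set ℕ} (k0 : AS t0) :
    UD (fun U C v V => R U C (f0 v V) (f1 v V) (f2 v V) (t0 v V)) :=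
  UD.subst h (f := (fc f0 (fc f1 (fc f2 (fun i v _ => v i)))))
    (t := (fc t0 (fun j _ V => V j)))
    (fc_all (p := AN) h0 (fc_all (p := AN) h1 (fc_all (p := AN) h2 (fun i => AN.var i)))) (fc_all (p := AS) k0 (fun j => AS.var j))

theorem UD.s32 {R : Set (Set ℕ) → Set (Set ℕ) → ℕ → ℕ → ℕ → Set ℕ → Set ℕ → Prop}
    (h : UD (fun U C v V => R U C (v 0) (v 1) (v 2) (V 0) (V 1)))
    {f0 : (ℕ → ℕ) → (ℕ → Set ℕ) → ℕ} (h0 : AN f0)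
    {f1 : (ℕ → ℕ) → (ℕ → Set ℕ) → ℕ} (h1 : AN f1)
    {f2 : (ℕ → ℕ) → (ℕ → Set ℕ) → ℕ} (h2 : AN f2)
    {t0 : (ℕ → ℕ) → (ℕ → Set ℕ) → Set ℕ} (k0 : AS t0)
    {t1 : (ℕ → ℕ) → (ℕ → Set ℕ) → Set ℕ} (k1 : AS t1) :
    UD (fun U C v V => R U C (f0 v V) (f1 v V) (f2 v V) (t0 v V) (t1 v V)) :=
  UD.subst h (f := (fc f0 (fc f1 (fc f2 (fun i v _ => v i)))))
    (t := (fc t0 (fc t1 (fun j _ V => V j))))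
    (fc_all (p := AN) h0 (fc_all (p := AN) h1 (fc_all (p := AN) h2 (fun i => AN.var i)))) (fc_all (p := AS) k0 (fc_all (p := AS) k1 (fun j => AS.var j)))

theorem UD.s33 {R : Set (Set ℕ) → Set (Set ℕ) → ℕ → ℕ → ℕ → Set ℕ → Set ℕ → Set ℕ → Prop}
    (h : UD (fun U C v V => R U C (v 0) (v 1) (v 2) (V 0) (V 1) (V 2)))
    {f0 : (ℕ → ℕ) → (ℕ → Set ℕ) → ℕ} (h0 : AN f0)
    {f1 : (ℕ → ℕ) → (ℕ → Set ℕ) → ℕ} (h1 : AN f1)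
    {f2 : (ℕ → ℕ) → (ℕ → Set ℕ) → ℕ} (h2 : AN f2)
    {t0 : (ℕ → ℕ) → (ℕ → Set ℕ) → Set ℕ} (k0 : AS t0)
    {t1 : (ℕ → ℕ) → (ℕ → Set ℕ) → Set ℕ} (k1 : AS t1)
    {t2 : (ℕ → ℕ) → (ℕ → Set ℕ) → Set ℕ} (k2 : AS t2) :
    UD (fun U C v V => R U C (f0 v V) (f1 v V) (f2 v V) (t0 v V) (t1 v V) (t2 v V)) :=
  UD.subst h (f := (fc f0 (fc f1 (fc f2 (fun i v _ => v i)))))
    (t := (fc t0 (fc t1 (fc t2 (fun j _ V => V j)))))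
    (fc_all (p := AN) h0 (fc_all (p := AN) h1 (fc_all (p := AN) h2 (fun i => AN.var i)))) (fc_all (p := AS) k0 (fc_all (p := AS) k1 (fc_all (p := AS) k2 (fun j => AS.var j))))

theorem UD.s34 {R : Set (Set ℕ) → Set (Set ℕ) → ℕ → ℕ → ℕ → Set ℕ → Set ℕ → Set ℕ → Set ℕ → Prop}
    (h : UD (fun U C v V => R U C (v 0) (v 1) (v 2) (V 0) (V 1) (V 2) (V 3)))
    {f0 : (ℕ → ℕ) → (ℕ → Set ℕ) → ℕ} (h0 : AN f0)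
    {f1 : (ℕ → ℕ) → (ℕ → Set ℕ) → ℕ} (h1 : AN f1)
    {f2 : (ℕ → ℕ) → (ℕ → Set ℕ) → ℕ} (h2 : AN f2)
    {t0 : (ℕ → ℕ) → (ℕ → Set ℕ) → Set ℕ} (k0 : AS t0)
    {t1 : (ℕ → ℕ) → (ℕ → Set ℕ) → Set ℕ} (k1 : AS t1)
    {t2 : (ℕ → ℕ) → (ℕ → Set ℕ) → Set ℕ} (k2 : AS t2)
    {t3 : (ℕ → ℕ) → (ℕ → Set ℕ) → Set ℕ} (k3 : AS t3) :
    UD (fun U C v V => R U C (f0 v V) (f1 v V) (f2 v V) (t0 v V) (t1 v V) (t2 v V) (t3 v V)) :=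
  UD.subst h (f := (fc f0 (fc f1 (fc f2 (fun i v _ => v i)))))
    (t := (fc t0 (fc t1 (fc t2 (fc t3 (fun j _ V => V j))))))
    (fc_all (p := AN) h0 (fc_all (p := AN) h1 (fc_all (p := AN) h2 (fun i => AN.var i)))) (fc_all (p := AS) k0 (fc_all (p := AS) k1 (fc_all (p := AS) k2 (fc_all (p := AS) k3 (fun j => AS.var j)))))

theorem UD.s40 {R : Set (Set ℕ) → Set (Set ℕ) → ℕ → ℕ → ℕ → ℕ → Prop}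
    (h : UD (fun U C v V => R U C (v 0) (v 1) (v 2) (v 3)))
    {f0 : (ℕ → ℕ) → (ℕ → Set ℕ) → ℕ} (h0 : AN f0)
    {f1 : (ℕ → ℕ) → (ℕ → Set ℕ) → ℕ} (h1 : AN f1)
    {f2 : (ℕ → ℕ) → (ℕ → Set ℕ) → ℕ} (h2 : AN f2)
    {f3 : (ℕ → ℕ) → (ℕ → Set ℕ) → ℕ} (h3 : AN f3) :
    UD (fun U C v V => R U C (f0 v V) (f1 v V) (f2 v V) (f3 v V)) :=
  UD.subst h (f := (fc f0 (fc f1 (fc f2 (fc f3 (fun i v _ => v i))))))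
    (t := (fun j _ V => V j))
    (fc_all (p := AN) h0 (fc_all (p := AN) h1 (fc_all (p := AN) h2 (fc_all (p := AN) h3 (fun i => AN.var i))))) (fun j => AS.var j)

theorem UD.s41 {R : Set (Set ℕ) → Set (Set ℕ) → ℕ → ℕ → ℕ → ℕ → Set ℕ → Prop}
    (h : UD (fun U C v V => R U C (v 0) (v 1) (v 2) (v 3) (V 0)))
    {f0 : (ℕ → ℕ) → (ℕ → Set ℕ) → ℕ} (h0 : AN f0)
    {f1 : (ℕ → ℕ) → (ℕ → Set ℕ) → ℕ} (h1 : AN f1)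
    {f2 : (ℕ → ℕ) → (ℕ → Set ℕ) → ℕ} (h2 : AN f2)
    {f3 : (ℕ → ℕ) → (ℕ → Set ℕ) → ℕ} (h3 : AN f3)
    {t0 : (ℕ → ℕ) → (ℕ → Set ℕ) → Set ℕ} (k0 : AS t0) :
    UD (fun U C v V => R U C (f0 v V) (f1 v V) (f2 v V) (f3 v V) (t0 v V)) :=
  UD.subst h (f := (fc f0 (fc f1 (fc f2 (fc f3 (fun i v _ => v i))))))
    (t := (fc t0 (fun j _ V => V j)))
    (fc_all (p := AN) h0 (fc_all (p := AN) h1 (fc_all (p := AN) h2 (fc_all (p := AN) h3 (fun i => AN.var i))))) (fc_all (p := AS) k0 (fun j => AS.var j))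

theorem UD.s42 {R : Set (Set ℕ) → Set (Set ℕ) → ℕ → ℕ → ℕ → ℕ → Set ℕ → Set ℕ → Prop}
    (h : UD (fun U C v V => R U C (v 0) (v 1) (v 2) (v 3) (V 0) (V 1)))
    {f0 : (ℕ → ℕ) → (ℕ → Set ℕ) → ℕ} (h0 : AN f0)
    {f1 : (ℕ → ℕ) → (ℕ → Set ℕ) → ℕ} (h1 : AN f1)
    {f2 : (ℕ → ℕ) → (ℕ → Set ℕ) → ℕ} (h2 : AN f2)
    {f3 : (ℕ → ℕ) → (ℕ → Set ℕ) → ℕ} (h3 : AN f3)
    {t0 : (ℕ → ℕ) → (ℕ → Set ℕ) → Set ℕ} (k0 : AS t0)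
    {t1 : (ℕ → ℕ) → (ℕ → Set ℕ) → Set ℕ} (k1 : AS t1) :
    UD (fun U C v V => R U C (f0 v V) (f1 v V) (f2 v V) (f3 v V) (t0 v V) (t1 v V)) :=
  UD.subst h (f := (fc f0 (fc f1 (fc f2 (fc f3 (fun i v _ => v i))))))
    (t := (fc t0 (fc t1 (fun j _ V => V j))))
    (fc_all (p := AN) h0 (fc_all (p := AN) h1 (fc_all (p := AN) h2 (fc_all (p := AN) h3 (fun i => AN.var i))))) (fc_all (p := AS) k0 (fc_all (p := AS) k1 (fun j => AS.var j)))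

theorem UD.s43 {R : Set (Set ℕ) → Set (Set ℕ) → ℕ → ℕ → ℕ → ℕ → Set ℕ → Set ℕ → Set ℕ → Prop}
    (h : UD (fun U C v V => R U C (v 0) (v 1) (v 2) (v 3) (V 0) (V 1) (V 2)))
    {f0 : (ℕ → ℕ) → (ℕ → Set ℕ) → ℕ} (h0 : AN f0)
    {f1 : (ℕ → ℕ) → (ℕ → Set ℕ) → ℕ} (h1 : AN f1)
    {f2 : (ℕ → ℕ) → (ℕ → Set ℕ) → ℕ} (h2 : AN f2)
    {f3 : (ℕ → ℕ) → (ℕ → Set ℕ) → ℕ} (h3 : AN f3)
    {t0 : (ℕ → ℕ) → (ℕ → Set ℕ) → Set ℕ} (k0 : AS t0)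
    {t1 : (ℕ → ℕ) → (ℕ → Set ℕ) → Set ℕ} (k1 : AS t1)
    {t2 : (ℕ → ℕ) → (ℕ → Set ℕ) → Set ℕ} (k2 : AS t2) :
    UD (fun U C v V => R U C (f0 v V) (f1 v V) (f2 v V) (f3 v V) (t0 v V) (t1 v V) (t2 v V)) :=
  UD.subst h (f := (fc f0 (fc f1 (fc f2 (fc f3 (fun i v _ => v i))))))
    (t := (fc t0 (fc t1 (fc t2 (fun j _ V => V j)))))
    (fc_all (p := AN) h0 (fc_all (p := AN) h1 (fc_all (p := AN) h2 (fc_all (p := AN) h3 (fun i => AN.var i))))) (fc_all (p := AS) k0 (fc_all (p := AS) k1 (fc_all (p := AS) k2 (fun j => AS.var j))))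

theorem UD.s50 {R : Set (Set ℕ) → Set (Set ℕ) → ℕ → ℕ → ℕ → ℕ → ℕ → Prop}
    (h : UD (fun U C v V => R U C (v 0) (v 1) (v 2) (v 3) (v 4)))
    {f0 : (ℕ → ℕ) → (ℕ → Set ℕ) → ℕ} (h0 : AN f0)
    {f1 : (ℕ → ℕ) → (ℕ → Set ℕ) → ℕ} (h1 : AN f1)
    {f2 : (ℕ → ℕ) → (ℕ → Set ℕ) → ℕ} (h2 : AN f2)
    {f3 : (ℕ → ℕ) → (ℕ → Set ℕ) → ℕ} (h3 : AN f3)
    {f4 : (ℕ → ℕ) → (ℕ → Set ℕ) → ℕ} (h4 : AN f4) :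
    UD (fun U C v V => R U C (f0 v V) (f1 v V) (f2 v V) (f3 v V) (f4 v V)) :=
  UD.subst h (f := (fc f0 (fc f1 (fc f2 (fc f3 (fc f4 (fun i v _ => v i)))))))
    (t := (fun j _ V => V j))
    (fc_all (p := AN) h0 (fc_all (p := AN) h1 (fc_all (p := AN) h2 (fc_all (p := AN) h3 (fc_all (p := AN) h4 (fun i => AN.var i)))))) (fun j => AS.var j)

theorem UD.s51 {R : Set (Set ℕ) → Set (Set ℕ) → ℕ → ℕ → ℕ → ℕ → ℕ → Set ℕ → Prop}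
    (h : UD (fun U C v V => R U C (v 0) (v 1) (v 2) (v 3) (v 4) (V 0)))
    {f0 : (ℕ → ℕ) → (ℕ → Set ℕ) → ℕ} (h0 : AN f0)
    {f1 : (ℕ → ℕ) → (ℕ → Set ℕ) → ℕ} (h1 : AN f1)
    {f2 : (ℕ → ℕ) → (ℕ → Set ℕ) → ℕ} (h2 : AN f2)
    {f3 : (ℕ → ℕ) → (ℕ → Set ℕ) → ℕ} (h3 : AN f3)
    {f4 : (ℕ → ℕ) → (ℕ → Set ℕ) → ℕ} (h4 : AN f4)
    {t0 : (ℕ → ℕ) → (ℕ → Set ℕ) → Set ℕ} (k0 : AS t0) :
    UD (fun U C v V => R U C (f0 v V) (f1 v V) (f2 v V) (f3 v V) (f4 v V) (t0 v V)) :=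
  UD.subst h (f := (fc f0 (fc f1 (fc f2 (fc f3 (fc f4 (fun i v _ => v i)))))))
    (t := (fc t0 (fun j _ V => V j)))
    (fc_all (p := AN) h0 (fc_all (p := AN) h1 (fc_all (p := AN) h2 (fc_all (p := AN) h3 (fc_all (p := AN) h4 (fun i => AN.var i)))))) (fc_all (p := AS) k0 (fun j => AS.var j))

theorem UD.s52 {R : Set (Set ℕ) → Set (Set ℕ) → ℕ → ℕ → ℕ → ℕ → ℕ → Set ℕ → Set ℕ → Prop}
    (h : UD (fun U C v V => R U C (v 0) (v 1) (v 2) (v 3) (v 4) (V 0) (V 1)))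
    {f0 : (ℕ → ℕ) → (ℕ → Set ℕ) → ℕ} (h0 : AN f0)
    {f1 : (ℕ → ℕ) → (ℕ → Set ℕ) → ℕ} (h1 : AN f1)
    {f2 : (ℕ → ℕ) → (ℕ → Set ℕ) → ℕ} (h2 : AN f2)
    {f3 : (ℕ → ℕ) → (ℕ → Set ℕ) → ℕ} (h3 : AN f3)
    {f4 : (ℕ → ℕ) → (ℕ → Set ℕ) → ℕ} (h4 : AN f4)
    {t0 : (ℕ → ℕ) → (ℕ → Set ℕ) → Set ℕ} (k0 : AS t0)
    {t1 : (ℕ → ℕ) → (ℕ → Set ℕ) → Set ℕ} (k1 : AS t1) :
    UD (fun U C v V => R U C (f0 v V) (f1 v V) (f2 v V) (f3 v V) (f4 v V) (t0 v V) (t1 v V)) :=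
  UD.subst h (f := (fc f0 (fc f1 (fc f2 (fc f3 (fc f4 (fun i v _ => v i)))))))
    (t := (fc t0 (fc t1 (fun j _ V => V j))))
    (fc_all (p := AN) h0 (fc_all (p := AN) h1 (fc_all (p := AN) h2 (fc_all (p := AN) h3 (fc_all (p := AN) h4 (fun i => AN.var i)))))) (fc_all (p := AS) k0 (fc_all (p := AS) k1 (fun j => AS.var j)))

end B8d
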