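import Pool.Agent.Lib.MP_8dbd20_lc.Frame2
import Pool.Agent.Lib.Z2.Base

/-!
# MP_8dbd20_lc: arithmetical terms and relations (rules, fully proved)
-/

set_option linter.unusedVariables false

namespace B8d

theorem Ar.ofAN {f : (ℕ → ℕ) → (ℕ → Set ℕ) → ℕ} (hf : AN f) :
    Ar (fun v V => v 0 = f (fun i => v (i + 1)) V) := hf

theorem Ar.eqN {f g : (ℕ → ℕ) → (ℕ → Set ℕ) → ℕ} (hf : AN f) (hg : AN g) :
    Ar (fun v V => f v V = g v V) :=
  Ar.sub1 (R := fun n v V => n = g v V) hg hf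

theorem Ar.neN {f g : (ℕ → ℕ) → (ℕ → Set ℕ) → ℕ} (hf : AN f) (hg : AN g) :
    Ar (fun v V => f v V ≠ g v V) := (Ar.eqN hf hg).not

theorem AN.zero : AN (fun _ _ => 0) :=
  (Ar.addv 0 0 0).congr fun v V => by
    show v 0 = 0 ↔ v 0 + v 0 = v 0
    constructor <;> intro h <;> omega

theorem AN.one : AN (fun _ _ => 1) := by
  have h : Ar (fun v (_ : ℕ → Set ℕ) => v 0 * v 0 = v 0 ∧ ¬ v 0 = 0) :=
    (Ar.mulv 0 0 0).and (Ar.eqN (AN.var 0) AN.zero).not
  refine h.congr fun v V => ?_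
  constructor
  · intro h; simp [h]
  · rintro ⟨h1, h2⟩
    exact Nat.eq_of_mul_eq_mul_left (Nat.pos_of_ne_zero h2) (by simpa using h1)

theorem AN.add {f g : (ℕ → ℕ) → (ℕ → Set ℕ) → ℕ} (hf : AN f) (hg : AN g) :
    AN (fun v V => f v V + g v V) :=
  (Ar.addt (hf.ren (fun i => i + 1) (fun j => j)) (hg.ren (fun i => i + 1) (fun j => j))
    (AN.var 0)).congr fun v V => eq_comm

theorem AN.mul {f g : (ℕ → ℕ) → (ℕ → Set ℕ) → ℕ} (hf : AN f) (hg : AN g) :
    AN (fun v V => f v V * g v V) :=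
  (Ar.mult (hf.ren (fun i => i + 1) (fun j => j)) (hg.ren (fun i => i + 1) (fun j => j))
    (AN.var 0)).congr fun v V => eq_comm

theorem AN.const (n : ℕ) : AN (fun _ _ => n) := by
  induction n with
  | zero => exact AN.zero
  | succ n ih => exact AN.add ih AN.one

theorem Ar.le {f g : (ℕ → ℕ) → (ℕ → Set ℕ) → ℕ} (hf : AN f) (hg : AN g) :
    Ar (fun v V => f v V ≤ g v V) := by
  have h : Ar (fun v V => ∃ z, f v V + z = g v V) :=
    Ar.exN (R := fun z v V => f v V + z = g v V)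
      (Ar.addt (hf.ren (fun i => i + 1) (fun j => j)) (AN.var 0)
        (hg.ren (fun i => i + 1) (fun j => j)))
  refine h.congr fun v V => ⟨fun h => ⟨g v V - f v V, by omega⟩, ?_⟩
  rintro ⟨z, hz⟩; omega

theorem Ar.lt {f g : (ℕ → ℕ) → (ℕ → Set ℕ) → ℕ} (hf : AN f) (hg : AN g) :
    Ar (fun v V => f v V < g v V) := (Ar.le hg hf).not.congr fun v V => not_le.symm

theorem Ar.ballN {k : (ℕ → ℕ) → (ℕ → Set ℕ) → ℕ} {R : ℕ → (ℕ → ℕ) → (ℕ → Set ℕ) → Prop}
    (hk : AN k) (h : Ar (fun v V => R (v 0) (fun i => v (i + 1)) V)) :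
    Ar (fun v V => ∀ n < k v V, R n v V) :=
  Ar.allN (R := fun n v V => n < k v V → R n v V)
    ((Ar.lt (AN.var 0) (hk.ren (fun i => i + 1) (fun j => j))).imp h)

theorem Ar.bexN {k : (ℕ → ℕ) → (ℕ → Set ℕ) → ℕ} {R : ℕ → (ℕ → ℕ) → (ℕ → Set ℕ) → Prop}
    (hk : AN k) (h : Ar (fun v V => R (v 0) (fun i => v (i + 1)) V)) :
    Ar (fun v V => ∃ n < k v V, R n v V) :=
  Ar.exN (R := fun n v V => n < k v V ∧ R n v V)
    ((Ar.lt (AN.var 0) (hk.ren (fun i => i + 1) (fun j => j))).and h)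

theorem AN.congr {f g : (ℕ → ℕ) → (ℕ → Set ℕ) → ℕ} (hf : AN f) (e : ∀ v V, g v V = f v V) :
    AN g := Ar.congr hf fun v V => by simp only [e]

theorem AN.ofR {f : (ℕ → ℕ) → (ℕ → Set ℕ) → ℕ} {R : ℕ → (ℕ → ℕ) → (ℕ → Set ℕ) → Prop}
    (h : Ar (fun v V => R (v 0) (fun i => v (i + 1)) V)) (e : ∀ n v V, n = f v V ↔ R n v V) :
    AN f := Ar.congr h fun v V => e _ _ _

theorem AN.ite {c : (ℕ → ℕ) → (ℕ → Set ℕ) → Prop} [∀ v V, Decidable (c v V)]
    {f g : (ℕ → ℕ) → (ℕ → Set ℕ) → ℕ} (hc : Ar c) (hf : AN f) (hg : AN g) :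
    AN (fun v V => if c v V then f v V else g v V) := by
  refine AN.ofR (R := fun n v V => (c v V ∧ n = f v V) ∨ (¬ c v V ∧ n = g v V)) ?_ ?_
  · exact ((hc.ren (fun i => i + 1) (fun j => j)).and hf).or
      (((hc.ren (fun i => i + 1) (fun j => j)).not).and hg)
  · intro n v V
    by_cases h : c v V <;> simp [h]

theorem AN.sInf {R : ℕ → (ℕ → ℕ) → (ℕ → Set ℕ) → Prop}
    (h : Ar (fun v V => R (v 0) (fun i => v (i + 1)) V)) :
    AN (fun v V => sInf {n | R n v V}) := by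
  refine AN.ofR (R := fun n v V => (R n v V ∧ ∀ m < n, ¬ R m v V) ∨ ((∀ m, ¬ R m v V) ∧ n = 0))
    ?_ ?_
  · refine (h.and ?_).or (Ar.and ?_ (Ar.eqN (AN.var 0) AN.zero))
    · exact Ar.ballN (R := fun m v V => ¬ R m (fun i => v (i + 1)) V) (AN.var 0)
        (h.ren (up fun i => i + 1) (fun j => j)).not
    · exact Ar.allN (R := fun m v V => ¬ R m (fun i => v (i + 1)) V)
        (h.ren (up fun i => i + 1) (fun j => j)).not
  · intro n v V
    constructor
    · rintro rfl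
      by_cases hne : ({n | R n v V} : Set ℕ).Nonempty
      · exact Or.inl ⟨Nat.sInf_mem hne, fun m hm hR => Nat.notMem_of_lt_sInf hm hR⟩
      · right
        rw [Set.not_nonempty_iff_eq_empty] at hne
        refine ⟨fun m hm => ?_, by rw [hne]; exact Nat.sInf_empty⟩
        have : m ∈ ({n | R n v V} : Set ℕ) := hm
        rw [hne] at this; exact this
    · rintro (⟨h1, h2⟩ | ⟨h1, rfl⟩)
      · apply le_antisymm
        · by_contra hlt
          push Not at hlt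
          exact h2 _ hlt (Nat.sInf_mem (s := {n | R n v V}) ⟨n, h1⟩)
        · exact Nat.sInf_le h1
      · have : ({n | R n v V} : Set ℕ) = ∅ := by
          ext m; simpa using h1 m
        rw [this]; exact Nat.sInf_empty.symm

theorem AN.sub {f g : (ℕ → ℕ) → (ℕ → Set ℕ) → ℕ} (hf : AN f) (hg : AN g) :
    AN (fun v V => f v V - g v V) := by
  refine AN.ofR (R := fun n v V => (g v V ≤ f v V ∧ n + g v V = f v V) ∨ (f v V < g v V ∧ n = 0))
    ?_ ?_
  · have hf' := hf.ren (fun i => i + 1) (fun j => j)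
    have hg' := hg.ren (fun i => i + 1) (fun j => j)
    exact ((Ar.le hg' hf').and (Ar.addt (AN.var 0) hg' hf')).or
      ((Ar.lt hf' hg').and (Ar.eqN (AN.var 0) AN.zero))
  · intro n v V; constructor
    · rintro rfl
      by_cases h : g v V ≤ f v V
      · left; omega
      · right; omega
    · rintro (⟨h1, h2⟩ | ⟨h1, h2⟩) <;> omega

theorem AN.div {f g : (ℕ → ℕ) → (ℕ → Set ℕ) → ℕ} (hf : AN f) (hg : AN g) :
    AN (fun v V => f v V / g v V) := by
  refine AN.ofR (R := fun n v V => (g v V = 0 ∧ n = 0) ∨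
    (0 < g v V ∧ n * g v V ≤ f v V ∧ f v V < (n + 1) * g v V)) ?_ ?_
  · have hf' := hf.ren (fun i => i + 1) (fun j => j)
    have hg' := hg.ren (fun i => i + 1) (fun j => j)
    exact ((Ar.eqN hg' AN.zero).and (Ar.eqN (AN.var 0) AN.zero)).or
      ((Ar.lt AN.zero hg').and ((Ar.le (AN.mul (AN.var 0) hg') hf').and
        (Ar.lt hf' (AN.mul (AN.add (AN.var 0) AN.one) hg'))))
  · intro n v V; constructor
    · rintro rfl
      rcases Nat.eq_zero_or_pos (g v V) with h | h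
      · left; simp [h]
      · right
        exact ⟨h, Nat.div_mul_le_self _ _, by
          have := Nat.lt_succ_iff.2 (le_refl (f v V / g v V))
          exact (Nat.div_lt_iff_lt_mul h).1 this⟩
    · rintro (⟨h1, h2⟩ | ⟨h1, h2, h3⟩)
      · simp [h1, h2]
      · exact (Nat.div_eq_of_lt_le h2 h3).symm

theorem AN.mod {f g : (ℕ → ℕ) → (ℕ → Set ℕ) → ℕ} (hf : AN f) (hg : AN g) :
    AN (fun v V => f v V % g v V) :=
  (AN.sub hf (AN.mul hg (AN.div hf hg))).congr fun v V => Nat.mod_eq_sub_mul_div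

theorem AN.pair {f g : (ℕ → ℕ) → (ℕ → Set ℕ) → ℕ} (hf : AN f) (hg : AN g) :
    AN (fun v V => Nat.pair (f v V) (g v V)) :=
  (AN.ite (c := fun v V => f v V < g v V) (Ar.lt hf hg) (AN.add (AN.mul hg hg) hf)
    (AN.add (AN.add (AN.mul hf hf) hf) hg)).congr fun v V => rfl

theorem AN.fst {f : (ℕ → ℕ) → (ℕ → Set ℕ) → ℕ} (hf : AN f) :
    AN (fun v V => (f v V).unpair.1) := by
  refine AN.ofR (R := fun n v V => ∃ b, Nat.pair n b = f v V) ?_ ?_
  · exact Ar.exN (R := fun b v V => Nat.pair (v 0) b = f (fun i => v (i + 1)) V)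
      (Ar.eqN (AN.pair (AN.var 1) (AN.var 0)) (hf.ren (fun i => i + 2) (fun j => j)))
  · intro n v V; constructor
    · rintro rfl; exact ⟨_, Nat.pair_unpair _⟩
    · rintro ⟨b, hb⟩; rw [← hb]; simp

theorem AN.snd {f : (ℕ → ℕ) → (ℕ → Set ℕ) → ℕ} (hf : AN f) :
    AN (fun v V => (f v V).unpair.2) := by
  refine AN.ofR (R := fun n v V => ∃ b, Nat.pair b n = f v V) ?_ ?_
  · exact Ar.exN (R := fun b v V => Nat.pair b (v 0) = f (fun i => v (i + 1)) V)
      (Ar.eqN (AN.pair (AN.var 0) (AN.var 1)) (hf.ren (fun i => i + 2) (fun j => j)))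
  · intro n v V; constructor
    · rintro rfl; exact ⟨_, Nat.pair_unpair _⟩
    · rintro ⟨b, hb⟩; rw [← hb]; simp

theorem AN.beta {f g : (ℕ → ℕ) → (ℕ → Set ℕ) → ℕ} (hf : AN f) (hg : AN g) :
    AN (fun v V => Nat.beta (f v V) (g v V)) :=
  (AN.mod (AN.fst hf) (AN.add (AN.mul (AN.add hg AN.one) (AN.snd hf)) AN.one)).congr
    fun v V => rfl

theorem exists_beta (f : ℕ → ℕ) (n : ℕ) : ∃ w, ∀ i ≤ n, Nat.beta w i = f i := by
  refine ⟨Nat.unbeta ((List.range (n + 1)).map f), fun i hi => ?_⟩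
  have := Nat.beta_unbeta_coe ((List.range (n + 1)).map f) ⟨i, by simpa using Nat.lt_succ_of_le hi⟩
  simpa using this

/-- definition by recursion: the value at `k` of the function with `F 0 = a`,
`F (n+1) = h n (F n)` (with parameters `v V`) -/
theorem AN.natRec {a k : (ℕ → ℕ) → (ℕ → Set ℕ) → ℕ} {h : ℕ → ℕ → (ℕ → ℕ) → (ℕ → Set ℕ) → ℕ}
    (ha : AN a) (hh : AN (fun v V => h (v 0) (v 1) (fun i => v (i + 2)) V)) (hk : AN k) :
    AN (fun v V => Nat.rec (motive := fun _ => ℕ) (a v V) (fun n x => h n x v V) (k v V)) := by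
  have key : ∀ (v : ℕ → ℕ) (V : ℕ → Set ℕ) (m x : ℕ),
      (x = Nat.rec (motive := fun _ => ℕ) (a v V) (fun n x => h n x v V) m) ↔
      ∃ w, Nat.beta w 0 = a v V ∧ (∀ i < m, Nat.beta w (i + 1) = h i (Nat.beta w i) v V) ∧
        Nat.beta w m = x := by
    intro v V m x
    constructor
    · rintro rfl
      obtain ⟨w, hw⟩ := exists_beta
        (fun m => Nat.rec (motive := fun _ => ℕ) (a v V) (fun n x => h n x v V) m) m
      refine ⟨w, hw 0 (Nat.zero_le _), fun i hi => ?_, hw m le_rfl⟩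
      rw [hw (i + 1) hi, hw i hi.le]
    · rintro ⟨w, h0, h1, rfl⟩
      have : ∀ j, j ≤ m → Nat.beta w j =
          Nat.rec (motive := fun _ => ℕ) (a v V) (fun n x => h n x v V) j := by
        intro j
        induction j with
        | zero => intro _; exact h0
        | succ j ih => intro hj; rw [h1 j hj, ih (Nat.le_of_succ_le hj)]
      exact this m le_rfl
  refine AN.ofR (R := fun x v V => ∃ w, Nat.beta w 0 = a v V ∧
      (∀ i < k v V, Nat.beta w (i + 1) = h i (Nat.beta w i) v V) ∧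
        Nat.beta w (k v V) = x) ?_ (fun x v V => key v V (k v V) x)
  refine Ar.exN (R := fun w v V => Nat.beta w 0 = a (fun i => v (i + 1)) V ∧
      (∀ i < k (fun i => v (i + 1)) V, Nat.beta w (i + 1) =
        h i (Nat.beta w i) (fun i => v (i + 1)) V) ∧
        Nat.beta w (k (fun i => v (i + 1)) V) = v 0) ?_
  refine (Ar.eqN (AN.beta (AN.var 0) AN.zero) (ha.ren (fun i => i + 2) (fun j => j))).and
    (Ar.and ?_ (Ar.eqN (AN.beta (AN.var 0) (hk.ren (fun i => i + 2) (fun j => j))) (AN.var 1)))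
  refine Ar.ballN (R := fun i v V => Nat.beta (v 0) (i + 1) =
        h i (Nat.beta (v 0) i) (fun i => v (i + 2)) V) (hk.ren (fun i => i + 2) (fun j => j)) ?_
  refine Ar.eqN (AN.beta (AN.var 1) (AN.add (AN.var 0) AN.one)) ?_
  have := AN.subst hh (f := fc (fun v _ => v 0) (fc (fun v _ => Nat.beta (v 1) (v 0))
    (fun i v _ => v (i + 3)))) (t := fun j _ V => V j)
    (fc_all (p := AN) (AN.var 0) (fc_all (p := AN) (AN.beta (AN.var 1) (AN.var 0))
      (fun i => AN.var (i + 3)))) (fun j => AS.var j)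
  exact this

theorem AN.pow2 {f : (ℕ → ℕ) → (ℕ → Set ℕ) → ℕ} (hf : AN f) : AN (fun v V => 2 ^ f v V) := by
  refine (AN.natRec (a := fun _ _ => 1) (h := fun _ x _ _ => x * 2) AN.one
    (AN.mul (AN.var 1) (AN.const 2)) hf).congr fun v V => ?_
  induction f v V with
  | zero => rfl
  | succ n ih => rw [pow_succ, ih]

theorem Ar.testBit {f g : (ℕ → ℕ) → (ℕ → Set ℕ) → ℕ} (hf : AN f) (hg : AN g) :
    Ar (fun v V => (f v V).testBit (g v V) = true) :=
  (Ar.eqN (AN.mod (AN.div hf (AN.pow2 hg)) (AN.const 2)) AN.one).congr fun v V => by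
    rw [Nat.testBit_eq_decide_div_mod_eq]; simp

/-! ### sets -/

theorem AS.congr {f g : (ℕ → ℕ) → (ℕ → Set ℕ) → Set ℕ} (hf : AS f) (e : ∀ v V, g v V = f v V) :
    AS g := Ar.congr hf fun v V => by simp only [e]

theorem AS.setOf {R : ℕ → (ℕ → ℕ) → (ℕ → Set ℕ) → Prop}
    (h : Ar (fun v V => R (v 0) (fun i => v (i + 1)) V)) : AS (fun v V => {n | R n v V}) := h

theorem AS.empty : AS (fun _ _ => ∅) := Ar.fls.congr fun v V => by simp

theorem Ar.eqS {s t : (ℕ → ℕ) → (ℕ → Set ℕ) → Set ℕ} (hs : AS s) (ht : AS t) :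
    Ar (fun v V => s v V = t v V) :=
  (Ar.allN (R := fun n v V => n ∈ s v V ↔ n ∈ t v V) (Ar.iff hs ht)).congr
    fun v V => Set.ext_iff

theorem Ar.neS {s t : (ℕ → ℕ) → (ℕ → Set ℕ) → Set ℕ} (hs : AS s) (ht : AS t) :
    Ar (fun v V => s v V ≠ t v V) := (Ar.eqS hs ht).not

theorem Ar.subset {s t : (ℕ → ℕ) → (ℕ → Set ℕ) → Set ℕ} (hs : AS s) (ht : AS t) :
    Ar (fun v V => s v V ⊆ t v V) :=
  Ar.allN (R := fun n v V => n ∈ s v V → n ∈ t v V) (Ar.imp hs ht)

/- the `n`-th section of a real: `Pool.Agent.Lib.Z2.sec X n = {m | Nat.pair n m ∈ X}` -/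
export Pool.Agent.Lib.Z2 (sec)

@[simp] theorem mem_sec' {X : Set ℕ} {n m : ℕ} : m ∈ sec X n ↔ Nat.pair n m ∈ X := Iff.rfl

theorem AS.sec {t : (ℕ → ℕ) → (ℕ → Set ℕ) → Set ℕ} {f : (ℕ → ℕ) → (ℕ → Set ℕ) → ℕ} (ht : AS t)
    (hf : AN f) : AS (fun v V => sec (t v V) (f v V)) :=
  AS.setOf (R := fun m v V => Nat.pair (f v V) m ∈ t v V)
    (Ar.mem (AN.pair (hf.ren (fun i => i + 1) (fun j => j)) (AN.var 0))
      (ht.ren (fun i => i + 1) (fun j => j)))

theorem AS.singleton {f : (ℕ → ℕ) → (ℕ → Set ℕ) → ℕ} (hf : AN f) :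
    AS (fun v V => ({f v V} : Set ℕ)) := Ar.congr hf fun v V => Set.mem_singleton_iff

theorem AS.union {s t : (ℕ → ℕ) → (ℕ → Set ℕ) → Set ℕ} (hs : AS s) (ht : AS t) :
    AS (fun v V => s v V ∪ t v V) := Ar.congr (Ar.or hs ht) fun v V => Iff.rfl

theorem AS.inter {s t : (ℕ → ℕ) → (ℕ → Set ℕ) → Set ℕ} (hs : AS s) (ht : AS t) :
    AS (fun v V => s v V ∩ t v V) := Ar.congr (Ar.and hs ht) fun v V => Iff.rfl

theorem AS.ite {c : (ℕ → ℕ) → (ℕ → Set ℕ) → Prop} [∀ v V, Decidable (c v V)]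
    {s t : (ℕ → ℕ) → (ℕ → Set ℕ) → Set ℕ} (hc : Ar c) (hs : AS s) (ht : AS t) :
    AS (fun v V => if c v V then s v V else t v V) := by
  have hc' := hc.ren (fun i => i + 1) (fun j => j)
  refine Ar.congr ((hc'.and hs).or (hc'.not.and ht)) fun v V => ?_
  by_cases h : c (fun i => v (i + 1)) V <;> simp [h]

/-! ### stacks of numbers -/

/-- `i`-fold tail of the stack `m` -/
def tl (i m : ℕ) : ℕ := Nat.rec m (fun _ x => x.unpair.2) i

/-- `i`-th entry of the stack `m` -/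
def get (i m : ℕ) : ℕ := (tl i m).unpair.1

@[simp] theorem tl_zero (m : ℕ) : tl 0 m = m := rfl
theorem tl_succ (i m : ℕ) : tl (i + 1) m = (tl i m).unpair.2 := rfl
@[simp] theorem tl_pair (i a m : ℕ) : tl (i + 1) (Nat.pair a m) = tl i m := by
  induction i with
  | zero => simp [tl]
  | succ i ih => rw [tl_succ, ih, tl_succ]
@[simp] theorem get_zero_pair (a m : ℕ) : get 0 (Nat.pair a m) = a := by simp [get]
@[simp] theorem get_succ_pair (i a m : ℕ) : get (i + 1) (Nat.pair a m) = get i m := by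
  simp [get]
theorem get_zero (m : ℕ) : get 0 m = m.unpair.1 := rfl

theorem tl_of_zero (i : ℕ) : tl i 0 = 0 := by
  induction i with
  | zero => rfl
  | succ i ih => rw [tl_succ, ih]; simp

@[simp] theorem get_of_zero (i : ℕ) : get i 0 = 0 := by simp [get, tl_of_zero]

theorem AN.tl {f g : (ℕ → ℕ) → (ℕ → Set ℕ) → ℕ} (hf : AN f) (hg : AN g) :
    AN (fun v V => tl (f v V) (g v V)) :=
  (AN.natRec (h := fun _ x _ _ => x.unpair.2) hg (AN.snd (AN.var 1)) hf).congr fun _ _ => rfl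

theorem AN.get {f g : (ℕ → ℕ) → (ℕ → Set ℕ) → ℕ} (hf : AN f) (hg : AN g) :
    AN (fun v V => get (f v V) (g v V)) :=
  (AN.fst (AN.tl hf hg)).congr fun _ _ => rfl

theorem nc_get (n m : ℕ) : (nc n fun i => get i m) = fun i => get i (Nat.pair n m) := by
  funext i; cases i <;> simp

end B8d
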