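import Pool.Agent.Lib.MP_8dbd20_lc.Frame3

/-!
# MP_8dbd20_lc: automation for arithmetical definability

`aesop (config := { enableSimp := false })` closes goals `Ar (fun v V => …)`, `AN (fun v V => …)`,
`AS (fun v V => …)`, `UD (fun U C v V => …)`.  New rules are registered with
`attribute [aesop safe apply (transparency := reducible)] foo_as`, where e.g.
`foo_as : AS s → AS (fun v V => foo (s v V))`.
-/

namespace B8d

theorem UD.eqN {f g : (ℕ → ℕ) → (ℕ → Set ℕ) → ℕ} (hf : AN f) (hg : AN g) :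
    UD (fun _ _ v V => f v V = g v V) := (Ar.eqN hf hg).ud
theorem UD.neN {f g : (ℕ → ℕ) → (ℕ → Set ℕ) → ℕ} (hf : AN f) (hg : AN g) :
    UD (fun _ _ v V => f v V ≠ g v V) := (Ar.neN hf hg).ud
theorem UD.lt {f g : (ℕ → ℕ) → (ℕ → Set ℕ) → ℕ} (hf : AN f) (hg : AN g) :
    UD (fun _ _ v V => f v V < g v V) := (Ar.lt hf hg).ud
theorem UD.le {f g : (ℕ → ℕ) → (ℕ → Set ℕ) → ℕ} (hf : AN f) (hg : AN g) :
    UD (fun _ _ v V => f v V ≤ g v V) := (Ar.le hf hg).ud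
theorem UD.mem {f : (ℕ → ℕ) → (ℕ → Set ℕ) → ℕ} {t : (ℕ → ℕ) → (ℕ → Set ℕ) → Set ℕ} (hf : AN f)
    (ht : AS t) : UD (fun _ _ v V => f v V ∈ t v V) := (Ar.mem hf ht).ud
theorem UD.eqS {s t : (ℕ → ℕ) → (ℕ → Set ℕ) → Set ℕ} (hs : AS s) (ht : AS t) :
    UD (fun _ _ v V => s v V = t v V) := (Ar.eqS hs ht).ud
theorem UD.neS {s t : (ℕ → ℕ) → (ℕ → Set ℕ) → Set ℕ} (hs : AS s) (ht : AS t) :
    UD (fun _ _ v V => s v V ≠ t v V) := (Ar.neS hs ht).ud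
theorem UD.subset {s t : (ℕ → ℕ) → (ℕ → Set ℕ) → Set ℕ} (hs : AS s) (ht : AS t) :
    UD (fun _ _ v V => s v V ⊆ t v V) := (Ar.subset hs ht).ud

/-- membership of a term in the predicate `C` -/
theorem UD.memC {t : (ℕ → ℕ) → (ℕ → Set ℕ) → Set ℕ} (ht : AS t) :
    UD (fun _ C v V => t v V ∈ C) :=
  UD.s01 (R := fun _ C X => X ∈ C) (UD.cv 0) ht

theorem UD.fls : UD (fun _ _ _ _ => False) := Ar.fls.ud
theorem UD.tru : UD (fun _ _ _ _ => True) := Ar.tru.ud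

attribute [aesop safe apply (transparency := reducible)]
  Ar.fls Ar.tru UD.fls UD.tru
  AN.var
  AS.var
  AN.const
  AS.empty
  UD.cv
  AN.pair
  AN.fst
  AN.snd
  AN.beta
  AN.get
  AN.tl
  AN.add
  AN.mul
  AN.sub
  AN.div
  AN.mod
  AN.pow2
  AN.ite
  AN.sInf
  AS.sec
  AS.singleton
  AS.union
  AS.inter
  AS.ite
  AS.setOf
  Ar.testBit
  Ar.neN
  Ar.neS
  Ar.not
  Ar.and
  Ar.or
  Ar.iff
  Ar.lt
  Ar.le
  Ar.mem
  Ar.eqN
  Ar.eqS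
  Ar.subset
  Ar.allN
  Ar.exN
  Ar.imp
  UD.memC
  UD.neN
  UD.neS
  UD.not
  UD.and
  UD.or
  UD.iff
  UD.lt
  UD.le
  UD.mem
  UD.eqN
  UD.eqS
  UD.subset
  UD.allC
  UD.exC
  UD.allS
  UD.exS
  UD.allN
  UD.exN
  UD.imp

example : Ar (fun v V => ∀ n, n < v 2 → ∃ m, Nat.pair n m ∈ V 1 ∧ (m + v 0 = 2 * n ∨ ¬ n ∈ V 0)) := by
  aesop (config := { enableSimp := false })

example : AS (fun v V => {n | ∃ k, Nat.pair (v 3) k ∈ sec (V 0) n ∧ sInf {w | w ∈ sec (V 1) k} = n}) := by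
  aesop (config := { enableSimp := false })

example : UD (fun U C v V => ∃ X ∈ C, ∀ Y ∈ U, (∀ n, n ∈ sec Y (v 0) ↔ n ∈ V 0) → sec Y 3 ∈ C ∧
    X ≠ sec Y 2) := by
  aesop (config := { enableSimp := false })

end B8d
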