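import Pool.Agent.Lib.MP_8dbd20_lc.Defs1
import Pool.Agent.Lib.Z2.L2

/-!
# MP_8dbd20_lc: INTERFACE between the hierarchy part (sections 1-3) and sections 4-8

`M` is an ω-model of full second-order arithmetic.  `CM M` is the class of master codes of `M`
(entries of hierarchy codes of `M` which are well-founded in the sense of `M`), `UM M` the reals of
the hierarchy.  Everything which sections 4-8 need about them is collected in the structure `Univ`.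
-/

set_option linter.unusedVariables false

namespace B8d

open Pool.Agent.Lib.Z2 (Str Dfn DF)

/-- good structures of the framework `Pool.Agent.Lib.Z2` (not to be confused with `B8d.Good`) -/
abbrev GoodS (S : Str) : Prop := Pool.Agent.Lib.Z2.Good S

/-- structure in which every real is an allowed parameter -/
def SU (U C : Set (Set ℕ)) : Str := ⟨U, C, U⟩

/-- the master codes of `M` -/
def CM (M : Set (Set ℕ)) : Set (Set ℕ) := {X | ∃ Z ∈ M, HCin M Z ∧ X ∈ Ent Z}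

/-- the reals of the hierarchy of `M` -/
def UM (M : Set (Set ℕ)) : Set (Set ℕ) := UU (CM M)

/-- the structure of the limit code `d`: reals -/
def Ud (d : Set ℕ) : Set (Set ℕ) := Secs (sec d 1)
/-- the structure of the limit code `d`: master codes (those before `d`) -/
def Cd (C : Set (Set ℕ)) (d : Set ℕ) : Set (Set ℕ) := Lseg C d

/-- the finite set of numbers coded by `e` -/
def Fs (e : ℕ) : Set ℕ := {i | e.testBit i = true}

/-- Everything sections 4-8 may use about the universe `(U, C)` of an ω-model `M` of `Z_2`. -/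
structure Univ (M U C : Set (Set ℕ)) : Prop where
  /-- `U` is part of the model -/
  um : U ⊆ M
  good : GoodS (SU U C)
  /-- definable sets of numbers are in `U` (Claim A) -/
  comp : ∀ P : ℕ → Prop, Dfn (SU U C) P → {n | P n} ∈ U
  /-- definable choice -/
  ac : ∀ P : ℕ → Set ℕ → Prop, Dfn (SU U C) (fun x : ℕ × Set ℕ => P x.1 x.2) →
    (∀ n, ∃ X ∈ U, P n X) → ∃ Z ∈ U, ∀ n, P n (sec Z n)
  /-- no definable partial map from `ℕ` onto `C` -/
  noSurj : ∀ P : ℕ → Set ℕ → Prop, Dfn (SU U C) (fun x : ℕ × Set ℕ => P x.1 x.2) →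
    (∀ n, ∀ X ∈ C, ∀ Y ∈ C, P n X → P n Y → X = Y) → ¬ ∀ c ∈ C, ∃ n, P n c
  /-- `C` is nonempty -/
  inh : C.Nonempty
  /-- the order of `C` is linear (`c < d` iff `c ∈ Ss d`) ... -/
  lin : ∀ c ∈ C, ∀ d ∈ C, c = d ∨ c ∈ Ss d ∨ d ∈ Ss c
  /-- ... irreflexive ... -/
  irr : ∀ c ∈ C, c ∉ Ss c
  /-- ... and transitive -/
  trans : ∀ c ∈ C, ∀ d ∈ C, c ∈ Ss d → Ss c ⊆ Ss d
  /-- the reals listed by a code belong to `U` -/
  ssU : ∀ c ∈ C, Ss c ⊆ U
  /-- `U` is the union of the `Ss c` -/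
  uSs : ∀ X ∈ U, ∃ c ∈ C, X ∈ Ss c
  /-- definable classes of codes have least elements -/
  least : ∀ P : Set ℕ → Prop, Dfn (SU U C) P → (∃ c ∈ C, P c) →
    ∃ c ∈ C, P c ∧ ∀ d ∈ C, P d → d = c ∨ c ∈ Ss d
  /-- limit codes are cofinal -/
  limX : ∀ X ∈ U, ∃ d, Lim C d ∧ X ∈ Ud d
  /-- structure of a limit code -/
  limGood : ∀ d, Lim C d → GoodS (SU (Ud d) (Cd C d))
  limComp : ∀ d, Lim C d → ∀ P : ℕ → Prop, Dfn (SU (Ud d) (Cd C d)) P → {n | P n} ∈ Ss d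
  limSub : ∀ d, Lim C d → Ud d ⊆ Ss d
  limC : ∀ d, Lim C d → ∀ c ∈ C, c ∈ Ud d ↔ c ∈ Ss d
  /-- mutual genericity, 1: all sets of `B` far out => one of them avoids all `Gam c`, `c ∈ F` -/
  mg1 : ∀ d ∈ C, ∀ F : Set (Set ℕ), F.Finite → F ⊆ C → (∀ c ∈ F, c = d ∨ d ∈ Ss c) →
    ∀ B ∈ Ss d, (∀ L, ∃ e ∈ B, ∀ i ∈ Fs e, L ≤ i) → ∃ e ∈ B, ∀ c ∈ F, ∀ i ∈ Fs e, i ∉ Gam c
  /-- mutual genericity, 2: moreover hit `Gam d` at a given place -/
  mg2 : ∀ d ∈ C, ∀ F : Set (Set ℕ), F.Finite → F ⊆ C → (∀ c ∈ F, c = d ∨ d ∈ Ss c) →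
    ∀ B ∈ Ss d, (∀ L, ∃ e w, Nat.pair e w ∈ B ∧ L ≤ w ∧ w ∉ Fs e ∧ ∀ i ∈ Fs e, L ≤ i) →
    ∃ e w, Nat.pair e w ∈ B ∧ w ∈ Gam d ∧ ∀ c ∈ F, ∀ i ∈ Fs e, i ∉ Gam c
  /-- every code is an entry of a hierarchy code in `U`, well-founded in the sense of `M` -/
  hc : ∀ c ∈ C, ∃ Z ∈ U, HCin M Z ∧ c ∈ Ent Z
  /-- entries of the hierarchy codes of `M` are in `C` -/
  entM : ∀ Z ∈ M, HCin M Z → Ent Z ⊆ C
  /-- `Ss c` is closed under arithmetical definability (with parameters) -/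
  ssAr : ∀ c ∈ C, ArClosed (Ss c)
  /-- primitive recursive sets are in every `Ss c` -/
  ssPrim : ∀ c ∈ C, ∀ p : ℕ → Prop, PrimrecPred p → {n | p n} ∈ Ss c

/-- the relations of the hierarchy are definable over every good structure -/
def S_dfnGam : Prop := ∀ S : Str, [GoodS S] → Dfn S (fun x : ℕ × Set ℕ => x.1 ∈ Gam x.2)
def S_dfnLocal : Prop := ∀ S : Str, [GoodS S] → Dfn S (fun Z : Set ℕ => Local Z)
def S_dfnSs : Prop := ∀ S : Str, [GoodS S] → Dfn S (fun x : Set ℕ × Set ℕ => x.1 ∈ Ss x.2)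

/-- HIERARCHY THEOREM (sections 1-3): the universe of every ω-model of `Z_2` -/
def S_Univ : Prop := ∀ M : Set (Set ℕ), Mod2 M → Univ M (UM M) (CM M)

/-- LEMMA E (new form), to be applied to `K = N` (and `K = U`).
`K` is closed under definability, contains `U`, preserves the well-foundedness of the orders of `U`
and no real of `K` lists all of `C`.  Then every linear order `R ∈ K` without descending sequence in
`K` is isomorphic, by a map in `K`, to the order of a hierarchy code in `U`. -/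
def S_LemE : Prop := ∀ M U C : Set (Set ℕ), Univ M U C → ∀ K : Set (Set ℕ), U ⊆ K → Mod2 K →
  (∀ R ∈ U, (∀ f ∈ U, ¬ Desc f R) → ∀ f ∈ K, ¬ Desc f R) →
  (¬ ∃ L ∈ K, ∀ c ∈ C, ∃ n, c = sec L n) →
  ∀ R ∈ K, LinO R → (∀ f ∈ K, ¬ Desc f R) →
    ∃ Z ∈ U, HCin M Z ∧ ∃ h : ℕ → ℕ, {x | x.unpair.2 = h x.unpair.1} ∈ K ∧
      (∀ i, Nat.pair i i ∈ R → h i ∈ fld Z) ∧
      (∀ i j, Nat.pair i i ∈ R → Nat.pair j j ∈ R →
        (Nat.pair i j ∈ R ↔ Nat.pair (h i) (h j) ∈ sec Z 0)) ∧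
      (∀ j ∈ fld Z, ∃ i, Nat.pair i i ∈ R ∧ h i = j)

/-- the entries of the hierarchy codes of such a `K` are the master codes -/
def S_LemEC : Prop := ∀ M U C : Set (Set ℕ), Univ M U C → ∀ K : Set (Set ℕ), U ⊆ K → Mod2 K →
  (∀ R ∈ U, (∀ f ∈ U, ¬ Desc f R) → ∀ f ∈ K, ¬ Desc f R) →
  (¬ ∃ L ∈ K, ∀ c ∈ C, ∃ n, c = sec L n) →
  ∀ c, c ∈ C ↔ ∃ Z ∈ K, HCin K Z ∧ c ∈ Ent Z

end B8d
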