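import Pool.Agent.Lib.Z2.Fo.Main
import Pool.Agent.Lib.MP_8dbd20_lc.Fi.Un
import Pool.Agent.Lib.MP_8dbd20_lc.Fi.Ab0b
import Pool.Agent.Lib.MP_8dbd20_lc.Ab.Ab0
import Pool.Agent.Lib.MP_8dbd20_lc.Ab.Ab1
import Pool.Agent.Lib.MP_8dbd20_lc.Ab.Ab2
import Pool.Agent.Lib.MP_8dbd20_lc.Ab.Ab3
import Pool.Agent.Lib.MP_8dbd20_lc.Ab.Ab4
import Pool.Agent.Lib.MP_8dbd20_lc.Ab.Ab5
import Pool.Agent.Lib.MP_8dbd20_lc.Ab.Ab6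
import Pool.Agent.Lib.MP_8dbd20_lc.Ab.Ab7
import Pool.Agent.Lib.MP_8dbd20_lc.Br.Br1
import Pool.Agent.Lib.MP_8dbd20_lc.Br.Br2
import Pool.Agent.Lib.MP_8dbd20_lc.Br.Br3
import Pool.Agent.Lib.MP_8dbd20_lc.Br.Br4
import Pool.Agent.Lib.MP_8dbd20_lc.Br.Br5
import Pool.Agent.Lib.MP_8dbd20_lc.Br.Br6
import Pool.Agent.Lib.MP_8dbd20_lc.Br.Br7
import Pool.Agent.Lib.MP_8dbd20_lc.Br.Br8
import Pool.Agent.Lib.MP_8dbd20_lc.Br.Br9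
import Pool.Agent.Lib.MP_8dbd20_lc.Fi.Be0
import Pool.Agent.Lib.MP_8dbd20_lc.Fi.Be1
import Pool.Agent.Lib.MP_8dbd20_lc.Fi.Be2
import Pool.Agent.Lib.MP_8dbd20_lc.Fi.Be3
import Pool.Agent.Lib.MP_8dbd20_lc.Fi.Be4
import Pool.Agent.Lib.MP_8dbd20_lc.Fi.Be5
import Pool.Agent.Lib.MP_8dbd20_lc.Fi.Be6
import Pool.Agent.Lib.MP_8dbd20_lc.Fi.Be7
import Pool.Agent.Lib.MP_8dbd20_lc.Fi.Be8
import Pool.Agent.Lib.MP_8dbd20_lc.Fi.Brg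
import Pool.Agent.Lib.MP_8dbd20_lc.Fi.DG
import Pool.Agent.Lib.MP_8dbd20_lc.Fi.Fi0
import Pool.Agent.Lib.MP_8dbd20_lc.Fi.Fi1
import Pool.Agent.Lib.MP_8dbd20_lc.Fi.Fi10
import Pool.Agent.Lib.MP_8dbd20_lc.Fi.Fi11
import Pool.Agent.Lib.MP_8dbd20_lc.Fi.Fi12
import Pool.Agent.Lib.MP_8dbd20_lc.Fi.Fi13
import Pool.Agent.Lib.MP_8dbd20_lc.Fi.Fi2
import Pool.Agent.Lib.MP_8dbd20_lc.Fi.Fi3
import Pool.Agent.Lib.MP_8dbd20_lc.Fi.Fi4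
import Pool.Agent.Lib.MP_8dbd20_lc.Fi.Fi5
import Pool.Agent.Lib.MP_8dbd20_lc.Fi.Fi6
import Pool.Agent.Lib.MP_8dbd20_lc.Fi.Fi7
import Pool.Agent.Lib.MP_8dbd20_lc.Fi.Fi8
import Pool.Agent.Lib.MP_8dbd20_lc.Fi.Fi9
import Pool.Agent.Lib.MP_8dbd20_lc.Fi.LS2
import Pool.Agent.Lib.MP_8dbd20_lc.Hi.C1
import Pool.Agent.Lib.MP_8dbd20_lc.Hi.C10
import Pool.Agent.Lib.MP_8dbd20_lc.Hi.C11
import Pool.Agent.Lib.MP_8dbd20_lc.Hi.C11a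
import Pool.Agent.Lib.MP_8dbd20_lc.Hi.C12
import Pool.Agent.Lib.MP_8dbd20_lc.Hi.C13
import Pool.Agent.Lib.MP_8dbd20_lc.Hi.C14
import Pool.Agent.Lib.MP_8dbd20_lc.Hi.C15
import Pool.Agent.Lib.MP_8dbd20_lc.Hi.C16
import Pool.Agent.Lib.MP_8dbd20_lc.Hi.C17
import Pool.Agent.Lib.MP_8dbd20_lc.Hi.C2
import Pool.Agent.Lib.MP_8dbd20_lc.Hi.C3
import Pool.Agent.Lib.MP_8dbd20_lc.Hi.C4
import Pool.Agent.Lib.MP_8dbd20_lc.Hi.C5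
import Pool.Agent.Lib.MP_8dbd20_lc.Hi.C5b
import Pool.Agent.Lib.MP_8dbd20_lc.Hi.C6
import Pool.Agent.Lib.MP_8dbd20_lc.Hi.C6a
import Pool.Agent.Lib.MP_8dbd20_lc.Hi.C7
import Pool.Agent.Lib.MP_8dbd20_lc.Hi.C8
import Pool.Agent.Lib.MP_8dbd20_lc.Hi.C9
import Pool.Agent.Lib.MP_8dbd20_lc.Hi.E0
import Pool.Agent.Lib.MP_8dbd20_lc.Hi.E1
import Pool.Agent.Lib.MP_8dbd20_lc.Hi.E2
import Pool.Agent.Lib.MP_8dbd20_lc.Hi.E3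
import Pool.Agent.Lib.MP_8dbd20_lc.Hi.E4
import Pool.Agent.Lib.MP_8dbd20_lc.Hi.E5
import Pool.Agent.Lib.MP_8dbd20_lc.Hi.E5U
import Pool.Agent.Lib.MP_8dbd20_lc.Hi.E6
import Pool.Agent.Lib.MP_8dbd20_lc.Hi.G1
import Pool.Agent.Lib.MP_8dbd20_lc.Hi.G2
import Pool.Agent.Lib.MP_8dbd20_lc.Hi.G3
import Pool.Agent.Lib.MP_8dbd20_lc.Hi.G4
import Pool.Agent.Lib.MP_8dbd20_lc.Hi.L0
import Pool.Agent.Lib.MP_8dbd20_lc.Hi.L0b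
import Pool.Agent.Lib.MP_8dbd20_lc.Hi.L1
import Pool.Agent.Lib.MP_8dbd20_lc.Hi.L2
import Pool.Agent.Lib.MP_8dbd20_lc.Hi.L3
import Pool.Agent.Lib.MP_8dbd20_lc.Hi.L4
import Pool.Agent.Lib.MP_8dbd20_lc.Hi.L5
import Pool.Agent.Lib.MP_8dbd20_lc.Hi.L6
import Pool.Agent.Lib.MP_8dbd20_lc.Hi.L7
import Pool.Agent.Lib.MP_8dbd20_lc.Hi.LS
import Pool.Agent.Lib.MP_8dbd20_lc.Hi.St2
import Pool.Agent.Lib.MP_8dbd20_lc.Hi.St3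
import Pool.Agent.Lib.MP_8dbd20_lc.Hi.St4
import Pool.Agent.Lib.MP_8dbd20_lc.Hi.T1
import Pool.Agent.Lib.MP_8dbd20_lc.Hi.T10
import Pool.Agent.Lib.MP_8dbd20_lc.Hi.T11
import Pool.Agent.Lib.MP_8dbd20_lc.Hi.T2
import Pool.Agent.Lib.MP_8dbd20_lc.Hi.T3
import Pool.Agent.Lib.MP_8dbd20_lc.Hi.T4
import Pool.Agent.Lib.MP_8dbd20_lc.Hi.T5
import Pool.Agent.Lib.MP_8dbd20_lc.Hi.T6
import Pool.Agent.Lib.MP_8dbd20_lc.Hi.T7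
import Pool.Agent.Lib.MP_8dbd20_lc.Hi.T8
import Pool.Agent.Lib.MP_8dbd20_lc.Hi.T9

/-! C45 (MP_8dbd20_lc): total assembly -/

set_option linter.unusedVariables false

namespace B8d

theorem qAb2 : S_Ab2 := pAb2
theorem qBr1 : S_Br1 := pBr1
theorem qBr2 : S_Br2 := pBr2 qBr1
theorem qBr3 : S_Br3 := pBr3
theorem qBr4 : S_Br4 := pBr4 qBr3
theorem qBr5 : S_Br5 := pBr5 qBr1
theorem qBr6 : S_Br6 := pBr6 qBr2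
theorem qBr7 : S_Br7 := pBr7
theorem qBr8 : S_Br8 := pBr8 qBr7
theorem qBr9 : S_Br9 := pBr9 qBr3
theorem qBe0 : S_Be0 := pBe0
theorem qBe1 : S_Be1 := pBe1 qBe0
theorem qBe2 : S_Be2 := pBe2
theorem qBe3 : S_Be3 := pBe3 qBe0
theorem qBe4 : S_Be4 := pBe4 qBe0
theorem qBe5 : S_Be5 := pBe5 qBe0
theorem qBe6 : S_Be6 := pBe6 qBe0
theorem qBe7 : S_Be7 := pBe7 qBe0 qBe4 qBe5 qBe6
theorem qBrg : Pool.Agent.Lib.Z2.S_Brg := pBrg qBr5 qBr6 qBr8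
theorem qFi0 : S_Fi0 := pFi0 qBr1
theorem qFi2 : S_Fi2 := pFi2
theorem qFi6 : S_Fi6 := pFi6 Pool.Agent.Lib.Z2.sCdc Pool.Agent.Lib.Z2.sIc Pool.Agent.Lib.Z2.sInn
theorem qE0 : S_E0 := pE0
theorem qG1 : S_G1 := pG1
theorem qG3 : S_G3 := pG3
theorem qL0b : S_L0b := pL0b
theorem qL1 : S_L1 := pL1
theorem qL5 : S_L5 := pL5
theorem qL6 : S_L6 := pL6
theorem qT1 : S_T1 := pT1
theorem qT2 : S_T2 := pT2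
theorem qT3 : S_T3 := pT3
theorem qT4 : S_T4 := (pT4).1
theorem qT4b : S_T4b := (pT4).2
theorem qT5 : S_T5 := pT5 qT4 qT4b
theorem qT6 : S_T6 := pT6 qT1 qT2 qT3
theorem qT7 : S_T7 := pT7
theorem qT8 : S_T8 := pT8 qT2 qT6 qT7
theorem qT9 : S_T9 := pT9 qT6 qT8
theorem qAb1 : S_Ab1 := pAb1 qT1 qBr3 qBr6
theorem qAb3 : S_Ab3 := pAb3 qAb1 Pool.Agent.Lib.Z2.sIc Pool.Agent.Lib.Z2.sLe
theorem qAb4 : S_Ab4 := pAb4 qT5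
theorem qAb6 : S_Ab6 := pAb6 qAb1 qAb4 Pool.Agent.Lib.Z2.sIdl Pool.Agent.Lib.Z2.sNms Pool.Agent.Lib.Z2.sIFin
theorem qdfnGam : S_dfnGam := pdfnGam qBr4 qL0b
theorem qLS2 : S_LS2 := tLS2 qT1 qT2 qT3
theorem qE5U : S_E5U := pE5U qT2
theorem qG2 : S_G2 := pG2 qL0b qT3 qG1
theorem qG4 : S_G4 := pG4 qT3 qG2 qG3
theorem qL0 : S_L0 := pL0 qT5
theorem qL7 : S_L7 := pL7 qT4
theorem qLS : S_LS := pLS qT1 qT2 qT3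
theorem qSt4 : S_St4 := pSt4 qT9
theorem qT10 : S_T10 := pT10 qT8
theorem qT11 : S_T11 := pT11 qT6
theorem qFi1 : S_Fi1 := pFi1 qL0 qL0b qFi0
theorem qFi3 : S_Fi3 := pFi3 qBr8 qE5U Pool.Agent.Lib.Z2.sNms Pool.Agent.Lib.Z2.sZ2 Pool.Agent.Lib.Z2.sNoL Pool.Agent.Lib.Z2.sPres
theorem qFi9 : S_Fi9 := pFi9 qBr4 qL0b qE5U
theorem qSt1 : S_St1 := (pSt2 qT9 qT10).1
theorem qSt2 : S_St2 := (pSt2 qT9 qT10).2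
theorem qSt3 : S_St3 := pSt3 qT9 qT10
theorem qL2 : S_L2 := pL2 qT9 qT10 qSt1 qSt2
theorem qL3 : S_L3 := pL3 qL1 qL2 qSt4
theorem qL4 : S_L4 := pL4 qL1 qL2 qL3 qSt3
theorem qC1 : S_C1 := pC1 qL2 qL3 qL4
theorem qC2 : S_C2 := pC2 qL1 qC1
theorem qC3 : S_C3 := pC3 qT9 qL2 qL5 qL6 qL7
theorem qC4 : S_C4 := pC4 qT2 qT8 qT10 qC1
theorem qC5 : S_C5 := pC5 qL0 qL0b qC1
theorem qC5b : S_C5b := pC5b qC1 qC2 qC3 qC5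
theorem qC6a : S_C6a := pC6a qT9 qT10 qC1 qC2
theorem qC7 : S_C7 := pC7 qT9 qT10 qC1 qC3 qC4 qC5b
theorem qE1 : S_E1 := pE1 qL1 qL2 qSt3
theorem qE2 : S_E2 := pE2 qL0 qE0 qE1
theorem qE3 : S_E3 := pE3 qL4 qE5U
theorem qE4 : S_E4 := pE4 qL0 qL1 qL4 qE2 qE3 qE5U
theorem qE5 : S_E5 := pE5 qL2 qE0 qE3 qE4 qE5U
theorem qE6 : S_E6 := pE6 qE3
theorem qAb5 : S_Ab5 := pAb5 qT1 qT9 qC1 qC3 qC4 qC5 qAb4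
theorem qBe8 : S_Be8 := pBe8 qL0b qE5 qBe0 qBe1 qBe2 qBe3 qBe7
theorem qFi10 : S_Fi10 := pFi10 qE5 qFi3
theorem qFi12 : S_Fi12 := tFi12 qFi3 qE5 qE5U
theorem qFi4 : S_Fi4 := pFi4 qE6
theorem qFi5 : S_Fi5 := pFi5 qE6 qFi3 qFi4 Pool.Agent.Lib.Z2.sNms Pool.Agent.Lib.Z2.sNTs Pool.Agent.Lib.Z2.sGenR Pool.Agent.Lib.Z2.sIFin
theorem qFi7 : S_Fi7 := pFi7 qE6 qFi3 qFi4 qFi6 Pool.Agent.Lib.Z2.sNms Pool.Agent.Lib.Z2.sNTs Pool.Agent.Lib.Z2.sPresT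
theorem qFi8 : S_Fi8 := pFi8 qBr7 qFi1 qFi2 qFi3 qFi5 qFi7
theorem qC12 : S_C12 := pC12 qT9 qT10 qT11 qC1 qC4
theorem qC6 : S_C6 := pC6 qT9 qL5 qL7 qC3 qC4 qC5 qC5b qC6a
theorem qC8 : S_C8 := pC8 qT1 qT2 qT3 qT10 qC1 qC3 qC4 qC6 qC7
theorem qC9 : S_C9 := pC9 qT2 qT3 qT9 qT10 qC1 qC3 qC4 qC5b qC8
theorem qC10 : S_C10 := pC10 qT9 qT10 qC1 qC3 qC4 qC5b qC8
theorem qC11a : S_C11a := pC11a qT2 qT3 qT10 qC1 qC3 qC4 qC9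
theorem qC11 : S_C11 := pC11 qC3 qC4 qC10 qC11a
theorem qC13 : S_C13 := pC13 qT2 qC1 qC3 qC4 qC11 qC12
theorem qC14 : S_C14 := pC14 qT10 qC1 qC3 qC4 qC6a qC11 qC12
theorem qC15 : S_C15 := pC15 qC1 qC3 qC4 qC7 qC13
theorem qC16 : S_C16 := pC16 qT8 qT9 qT10 qG4 qBr1 qC1 qC11 qC12
theorem qC17 : S_C17 := pC17 qBr5 qBr6 qC1 qC3 qC4 qC5b qC8 qC12 qC13 qC14 qC15 qC16
theorem qAb0 : S_Ab0 := pAb0 qBr8 qC17 qFi3 qFi8 qFi9 qFi10 qBe8 Pool.Agent.Lib.Z2.sZ2 (Pool.Agent.Lib.Z2.sAc qBrg)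
theorem qAb7 : S_Ab7 := pAb7 qBr8 qC3 qC4 qC17 qFi9 qAb0 qAb2 qAb3 qAb4 qAb5 qAb6 Pool.Agent.Lib.Z2.sGenEx Pool.Agent.Lib.Z2.sTriv
theorem qFi11 : S_Fi11 := pFi11 qBr8 qLS qC17 qFi3 qFi8 qFi9 qFi10 qBe8 Pool.Agent.Lib.Z2.sGenEx Pool.Agent.Lib.Z2.sTriv Pool.Agent.Lib.Z2.sZ2 (Pool.Agent.Lib.Z2.sAc qBrg)
theorem qFi13 : S_Fi13 := tFi13 qBr8 qLS2 qC17 qFi9 qFi3 qBe8 qFi8 qFi12 qL0b Pool.Agent.Lib.Z2.sTriv Pool.Agent.Lib.Z2.sGenEx Pool.Agent.Lib.Z2.sZ2 (Pool.Agent.Lib.Z2.sAc qBrg) Pool.Agent.Lib.Z2.sNms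

/-- The final theorem (S_Fi13 without hypotheses). -/
theorem main13 (M : Set (Set ℕ)) (hne : M.Nonempty) (hM : Pool.Agent.Lib.Z2.IsZ2 M) :
    ∃ N : Set (Set ℕ), N.Nonempty ∧ N.Countable ∧ Pool.Agent.Lib.Z2.IsZ2 N ∧
      Pool.Agent.Lib.Z2.HasAC N ∧ ¬ Pool.Agent.Lib.Z2.HasPi12DC N ∧
      (Pool.Agent.Lib.Z2.IsBeta M → Pool.Agent.Lib.Z2.IsBeta N) ∧
      ∀ R ∈ N, LinO R → (∀ f ∈ N, ¬ Desc f R) →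
        ∃ R' ∈ M, R' ∈ N ∧ LinO R' ∧ (∀ f ∈ M, ¬ Desc f R') ∧ ∃ h, gr h ∈ N ∧ IsoH R R' h :=
  qFi13 (fun M U C G hU _ hG => edges_of qdfnGam hU hG) M hne hM
/-- every generic filter over a countable model works -/
theorem mainGen (M : Set (Set ℕ)) (hc : M.Countable) (hM : Mod2 M)
    (G : Pool.Agent.Lib.Z2.Cond → Prop)
    (hG : Pool.Agent.Lib.Z2.Gen (SU (UM M) (CM M)) Gam G) :
    Props2 M (Pool.Agent.Lib.Z2.NN (SU (UM M) (CM M)) G) :=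
  tAb0b qBr8 qC17 qFi9 qFi3 qBe8 qFi8 qFi12 Pool.Agent.Lib.Z2.sZ2 (Pool.Agent.Lib.Z2.sAc qBrg)
    (fun M U C G hU _ hG => edges_of qdfnGam hU hG) M hc hM G hG

/-- The theorem inside every beta-model. -/
theorem mainAb (K : Set (Set ℕ)) (hne : K.Nonempty) (hK : Pool.Agent.Lib.Z2.IsBeta K)
    (E : Set ℕ) (hE : E ∈ K) (hZ : Pool.Agent.Lib.Z2.IsZ2 (Secs E)) :
    ∃ E' ∈ K, Props2 (Secs E) (Secs E') :=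
  Ab7_gen qBr8 qC3 qC4 qC17 qFi9 qAb2 qAb3 qAb4 qAb5 qAb6 Pool.Agent.Lib.Z2.sGenEx
    Pool.Agent.Lib.Z2.sTriv Props2 mainGen K hne hK E hE hZ

end B8d
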